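import Pool.Agent.SA27.L81

set_option autoImplicit false

/-! Certificates, part 2. -/

namespace Pool.Agent.SA27

/-- Certificates. -/
def cert81_2 : List (List (Bool × ℕ × List ℕ)) := [
  [(true, 4, [0, 1, 2, 4, 8, 5, 10, 6, 7, 9, 3]),
   (true, 4, [4, 1, 2, 6, 8, 7, 5, 10, 11, 9, 3]),
   (true, 49, [1, 4, 2, 6, 5, 7, 8, 9, 10, 11, 0, 3]),
   (false, 45, [1, 2, 3, 10, 0, 4, 5, 6, 7, 8, 9]),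
   (true, 6, [1, 2, 4, 6, 7, 10, 8, 11, 9, 5, 3]),
   (false, 47, [1, 4, 5, 10, 0, 2, 3, 6, 7, 8, 9]),
   (true, 6, [1, 2, 6, 4, 5, 10, 8, 11, 9, 7, 3]),
   (false, 47, [1, 6, 7, 10, 0, 2, 3, 4, 5, 8, 9]),
   (true, 47, [4, 1, 2, 6, 8, 5, 7, 10, 3, 11, 9, 0]),
   (false, 50, [2, 8, 9, 10, 3, 1, 0, 4, 5, 6, 7])],
  [(true, 6, [1, 2, 4, 0, 10, 8, 6, 9, 7, 5, 3]),
   (true, 6, [1, 2, 4, 10, 11, 8, 6, 9, 7, 5, 3]),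
   (true, 47, [6, 2, 1, 10, 4, 7, 11, 8, 0, 9, 5, 3]),
   (false, 48, [1, 2, 3, 10, 0, 4, 5, 6, 7, 8, 9]),
   (true, 47, [8, 4, 1, 10, 2, 9, 11, 6, 0, 7, 3, 5]),
   (false, 48, [1, 4, 5, 10, 0, 2, 3, 8, 9, 6, 7]),
   (true, 37, [0, 1, 4, 2, 6, 5, 10, 3, 8, 9, 7, 11]),
   (false, 51, [2, 6, 7, 10, 3, 1, 0, 4, 5, 8, 9]),
   (true, 37, [0, 1, 2, 4, 8, 3, 10, 5, 6, 7, 9, 11]),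
   (false, 51, [4, 8, 9, 10, 5, 1, 0, 2, 3, 6, 7])],
  [(true, 3, [0, 1, 5, 7, 8, 6, 2, 10, 11, 3, 9]),
   (true, 48, [0, 1, 4, 5, 2, 6, 7, 8, 3, 10, 11, 9]),
   (true, 5, [3, 2, 10, 1, 9, 0, 11, 5, 6, 7, 8]),
   (true, 26, [0, 5, 1, 7, 6, 2, 8, 3, 10, 11, 9, 4]),
   (true, 3, [0, 1, 4, 5, 6, 10, 2, 7, 8, 3, 9]),
   (true, 0, [0, 7, 1, 5, 10, 8, 2, 11, 3, 9, 6]),
   (false, 52, [0, 1, 2, 3, 4, 5, 6, 7, 8, 9, 10]),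
   (true, 0, [0, 5, 1, 7, 10, 6, 2, 11, 3, 9, 8]),
   (false, 52, [0, 1, 2, 3, 4, 7, 8, 5, 6, 9, 10]),
   (false, 53, [0, 1, 2, 3, 4, 5, 6, 7, 8, 9, 10])],
  [(true, 7, [1, 0, 4, 5, 9, 6, 2, 7, 8, 10, 11]),
   (true, 4, [4, 0, 1, 5, 2, 6, 9, 7, 8, 3, 10]),
   (true, 3, [0, 1, 4, 5, 6, 9, 2, 7, 8, 10, 11]),
   (true, 3, [0, 1, 4, 5, 6, 9, 2, 7, 8, 3, 10]),
   (true, 4, [1, 0, 4, 5, 10, 6, 2, 7, 8, 11, 9]),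
   (true, 4, [1, 0, 5, 4, 10, 9, 2, 7, 8, 11, 6]),
   (false, 54, [0, 1, 2, 3, 4, 5, 6, 7, 8, 9, 10]),
   (true, 4, [1, 0, 7, 4, 10, 9, 2, 5, 6, 11, 8]),
   (false, 54, [0, 1, 2, 3, 4, 7, 8, 5, 6, 9, 10]),
   (false, 54, [0, 1, 2, 3, 5, 4, 9, 7, 8, 6, 10])],
  [(false, 75, [0, 1, 2, 3, 4, 5, 6, 7, 8, 10, 11, 9]),
   (true, 51, [7, 0, 1, 5, 8, 6, 2, 3, 9, 10, 4, 11]),
   (true, 42, [7, 0, 5, 1, 6, 2, 8, 9, 10, 11, 3, 4]),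
   (false, 52, [0, 1, 2, 3, 4, 5, 6, 7, 8, 10, 9]),
   (false, 54, [0, 1, 2, 3, 4, 5, 6, 7, 8, 10, 9]),
   (true, 51, [7, 0, 5, 1, 8, 2, 6, 9, 3, 10, 4, 11]),
   (true, 42, [7, 0, 1, 5, 2, 6, 8, 3, 10, 11, 9, 4]),
   (false, 77, [0, 1, 2, 3, 4, 7, 8, 5, 6, 10, 11, 9]),
   (false, 55, [0, 1, 2, 3, 4, 5, 6, 7, 8, 9, 10]),
   (false, 52, [0, 5, 6, 9, 4, 1, 2, 7, 8, 10, 3])],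
  [(true, 48, [0, 1, 4, 5, 2, 6, 10, 11, 3, 7, 8, 9]),
   (true, 4, [2, 1, 0, 7, 5, 8, 3, 10, 11, 6, 4]),
   (true, 6, [1, 0, 2, 7, 8, 3, 5, 9, 6, 10, 4]),
   (true, 0, [1, 7, 2, 0, 5, 8, 3, 6, 10, 11, 4]),
   (false, 56, [0, 1, 2, 3, 4, 5, 6, 7, 8, 9, 10]),
   (true, 38, [0, 4, 1, 5, 2, 6, 3, 7, 8, 9, 10, 11]),
   (false, 57, [0, 1, 2, 3, 4, 5, 6, 7, 8, 9, 10]),
   (true, 6, [1, 0, 7, 2, 3, 10, 5, 11, 6, 8, 4]),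
   (false, 58, [0, 1, 2, 3, 4, 5, 6, 7, 8, 9, 10]),
   (true, 0, [1, 7, 2, 0, 5, 8, 3, 6, 9, 10, 4])],
  [(true, 4, [4, 0, 1, 5, 2, 6, 9, 10, 11, 3, 7]),
   (true, 4, [2, 1, 0, 7, 4, 8, 3, 10, 11, 9, 5]),
   (true, 6, [1, 0, 2, 7, 8, 10, 4, 11, 9, 3, 5]),
   (false, 56, [0, 1, 2, 3, 4, 5, 6, 7, 8, 10, 9]),
   (true, 6, [0, 1, 4, 5, 6, 10, 2, 11, 3, 9, 7]),
   (true, 6, [0, 1, 5, 4, 9, 10, 2, 11, 3, 6, 7]),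
   (false, 56, [1, 0, 5, 6, 2, 7, 8, 4, 9, 10, 3]),
   (true, 6, [1, 0, 7, 2, 3, 10, 4, 11, 9, 8, 5]),
   (false, 56, [0, 1, 7, 8, 4, 5, 6, 2, 3, 10, 9]),
   (false, 56, [1, 0, 4, 9, 2, 7, 8, 5, 6, 10, 3])],
  [(true, 51, [10, 0, 1, 5, 11, 6, 2, 3, 9, 7, 4, 8]),
   (true, 3, [1, 0, 2, 7, 8, 3, 5, 10, 11, 6, 9]),
   (true, 0, [1, 7, 0, 2, 10, 8, 5, 11, 6, 9, 3]),
   (false, 57, [0, 1, 2, 3, 4, 5, 6, 7, 8, 10, 9]),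
   (false, 56, [1, 0, 5, 6, 2, 7, 8, 4, 10, 9, 3]),
   (true, 5, [2, 1, 7, 0, 3, 5, 8, 6, 9, 10, 11]),
   (true, 28, [0, 5, 4, 1, 6, 2, 3, 7, 8, 10, 11, 9]),
   (true, 0, [1, 2, 0, 7, 10, 3, 5, 11, 6, 9, 8]),
   (false, 57, [0, 1, 7, 8, 4, 5, 6, 2, 3, 10, 9]),
   (false, 59, [0, 1, 2, 3, 4, 5, 6, 7, 8, 9, 10])],
  [(true, 5, [3, 2, 7, 1, 9, 0, 8, 5, 6, 10, 11]),
   (true, 6, [1, 0, 2, 10, 11, 3, 5, 9, 6, 7, 4]),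
   (true, 3, [2, 1, 3, 7, 8, 9, 0, 10, 11, 5, 6]),
   (true, 0, [2, 7, 1, 3, 10, 8, 0, 11, 5, 6, 9]),
   (true, 5, [3, 2, 7, 1, 9, 0, 8, 4, 10, 5, 6]),
   (true, 34, [0, 4, 5, 1, 10, 2, 11, 6, 3, 9, 7, 8]),
   (false, 60, [0, 1, 2, 3, 4, 5, 6, 7, 8, 9, 10]),
   (true, 0, [2, 3, 1, 7, 10, 9, 0, 11, 5, 6, 8]),
   (false, 61, [0, 1, 2, 3, 4, 5, 6, 7, 8, 9, 10]),
   (false, 61, [0, 1, 2, 7, 4, 5, 6, 3, 9, 8, 10])],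
  [(true, 42, [10, 0, 5, 1, 6, 2, 11, 9, 7, 8, 3, 4]),
   (true, 0, [1, 10, 0, 2, 7, 11, 5, 8, 6, 9, 3]),
   (false, 76, [2, 1, 0, 4, 3, 7, 8, 10, 11, 5, 6, 9]),
   (false, 60, [0, 1, 2, 3, 4, 5, 6, 7, 8, 10, 9]),
   (false, 61, [2, 1, 0, 4, 3, 7, 8, 5, 6, 10, 9]),
   (true, 28, [0, 1, 4, 5, 2, 6, 9, 10, 11, 7, 8, 3]),
   (true, 39, [1, 2, 0, 5, 7, 6, 10, 8, 11, 4, 9, 3]),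
   (false, 79, [2, 1, 0, 4, 3, 7, 8, 5, 6, 10, 11, 9]),
   (false, 62, [0, 1, 2, 3, 4, 5, 6, 7, 8, 9, 10]),
   (false, 63, [0, 1, 2, 3, 4, 5, 6, 7, 8, 9, 10])],
  [(true, 26, [0, 5, 1, 10, 6, 2, 11, 3, 8, 9, 7, 4]),
   (true, 0, [1, 10, 2, 0, 5, 11, 3, 6, 8, 9, 4]),
   (true, 0, [2, 10, 1, 3, 8, 11, 0, 9, 5, 6, 7]),
   (true, 26, [3, 8, 2, 10, 9, 1, 11, 0, 5, 6, 4, 7]),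
   (false, 64, [0, 1, 2, 3, 4, 5, 6, 7, 8, 9, 10]),
   (true, 35, [0, 1, 4, 5, 2, 10, 11, 6, 3, 7, 8, 9]),
   (false, 65, [0, 1, 2, 3, 4, 5, 6, 7, 8, 9, 10]),
   (false, 64, [3, 2, 1, 0, 7, 8, 9, 4, 5, 6, 10]),
   (true, 35, [3, 2, 7, 8, 1, 10, 11, 9, 0, 4, 5, 6]),
   (false, 65, [3, 2, 1, 0, 7, 8, 9, 4, 5, 6, 10])],
  [(true, 0, [0, 10, 1, 5, 8, 11, 2, 9, 3, 7, 6]),
   (true, 38, [0, 4, 1, 5, 2, 6, 3, 10, 11, 7, 8, 9]),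
   (true, 34, [0, 4, 5, 1, 8, 2, 9, 6, 3, 7, 10, 11]),
   (true, 35, [0, 1, 4, 5, 2, 8, 9, 6, 3, 7, 10, 11]),
   (true, 0, [0, 4, 1, 5, 8, 10, 2, 9, 3, 7, 6]),
   (true, 24, [8, 5, 0, 10, 11, 9, 1, 2, 3, 7, 4, 6]),
   (false, 59, [0, 5, 6, 10, 4, 1, 2, 8, 9, 3, 7]),
   (false, 66, [0, 1, 2, 3, 4, 5, 6, 7, 8, 9, 10]),
   (true, 36, [1, 0, 4, 5, 8, 2, 10, 6, 11, 9, 3, 7]),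
   (false, 67, [0, 1, 2, 3, 4, 5, 6, 7, 8, 9, 10])],
  [(false, 78, [0, 1, 2, 3, 4, 5, 6, 10, 11, 7, 8, 9]),
   (true, 29, [0, 1, 5, 4, 6, 2, 10, 3, 11, 7, 8, 9]),
   (true, 41, [0, 1, 5, 4, 7, 2, 8, 10, 11, 9, 6, 3]),
   (false, 67, [0, 1, 2, 3, 4, 5, 6, 10, 7, 8, 9]),
   (false, 57, [5, 0, 1, 2, 6, 7, 8, 4, 10, 3, 9]),
   (false, 78, [5, 7, 8, 9, 6, 0, 4, 10, 11, 1, 2, 3]),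
   (false, 57, [0, 5, 7, 8, 4, 1, 2, 6, 10, 9, 3]),
   (true, 29, [5, 7, 0, 6, 4, 8, 10, 9, 11, 1, 2, 3]),
   (true, 41, [5, 7, 0, 6, 1, 8, 2, 10, 11, 3, 4, 9]),
   (false, 67, [5, 7, 8, 9, 6, 0, 4, 10, 1, 2, 3])],
  [(true, 3, [0, 1, 4, 5, 6, 8, 2, 10, 11, 3, 7]),
   (true, 46, [0, 1, 10, 2, 11, 3, 4, 8, 5, 6, 7, 9]),
   (true, 5, [3, 2, 10, 1, 7, 0, 11, 4, 8, 5, 6]),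
   (true, 40, [0, 1, 5, 4, 6, 8, 2, 9, 3, 10, 11, 7]),
   (true, 0, [0, 5, 1, 4, 10, 6, 2, 11, 3, 7, 8]),
   (true, 0, [0, 4, 1, 5, 6, 8, 2, 9, 3, 7, 10]),
   (true, 2, [0, 1, 5, 4, 2, 8, 6, 3, 10, 7, 11]),
   (false, 69, [0, 1, 2, 3, 4, 5, 6, 7, 8, 9, 10]),
   (true, 1, [0, 4, 1, 5, 6, 2, 8, 3, 10, 7, 9]),
   (true, 2, [0, 1, 5, 4, 2, 8, 6, 3, 9, 7, 10])],
  [(true, 3, [0, 1, 4, 5, 6, 8, 2, 10, 11, 3, 7]),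
   (true, 0, [1, 10, 2, 0, 4, 11, 3, 8, 7, 9, 5]),
   (true, 5, [3, 2, 10, 1, 7, 0, 11, 4, 8, 5, 6]),
   (true, 33, [0, 4, 1, 5, 8, 6, 2, 3, 7, 10, 9, 11]),
   (true, 0, [0, 5, 1, 4, 10, 6, 2, 11, 3, 7, 8]),
   (true, 0, [0, 4, 1, 5, 10, 8, 2, 11, 3, 7, 6]),
   (false, 69, [0, 1, 2, 3, 4, 5, 6, 7, 8, 10, 9]),
   (true, 30, [1, 0, 4, 5, 6, 8, 2, 3, 7, 10, 11, 9]),
   (false, 69, [0, 1, 2, 3, 5, 4, 8, 7, 6, 10, 9]),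
   (false, 70, [0, 1, 2, 3, 4, 5, 6, 7, 8, 9, 10])],
  [(true, 43, [0, 10, 5, 1, 6, 2, 11, 8, 3, 7, 9, 4]),
   (true, 0, [1, 10, 2, 0, 5, 11, 3, 6, 7, 9, 4]),
   (true, 44, [5, 0, 1, 4, 2, 6, 8, 10, 11, 3, 7, 9]),
   (true, 31, [3, 2, 7, 10, 9, 11, 1, 0, 5, 6, 8, 4]),
   (false, 69, [0, 1, 2, 3, 4, 5, 6, 7, 10, 8, 9]),
   (true, 27, [1, 0, 4, 5, 6, 2, 8, 10, 11, 3, 7, 9]),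
   (true, 11, [0, 5, 1, 6, 10, 2, 3, 7, 11, 9, 4, 8]),
   (true, 14, [1, 0, 5, 2, 3, 7, 6, 10, 11, 4, 8, 9]),
   (false, 71, [0, 1, 2, 3, 4, 5, 6, 7, 8, 9, 10]),
   (false, 72, [0, 1, 2, 3, 4, 5, 6, 7, 8, 9, 10])],
  [(true, 2, [0, 1, 5, 10, 2, 11, 6, 3, 8, 7, 9]),
   (true, 45, [1, 0, 5, 4, 6, 2, 10, 3, 11, 8, 9, 7]),
   (true, 32, [2, 1, 0, 5, 6, 8, 3, 7, 9, 4, 10, 11]),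
   (true, 15, [5, 0, 1, 2, 3, 6, 10, 8, 11, 9, 7, 4]),
   (true, 2, [0, 1, 5, 4, 2, 10, 6, 3, 8, 7, 9]),
   (true, 45, [5, 0, 1, 4, 2, 6, 10, 8, 11, 3, 7, 9]),
   (true, 32, [6, 5, 0, 1, 2, 3, 8, 9, 7, 4, 10, 11]),
   (false, 71, [0, 1, 2, 3, 4, 5, 6, 7, 8, 10, 9]),
   (true, 15, [1, 0, 5, 6, 8, 2, 10, 3, 11, 7, 9, 4]),
   (false, 71, [0, 5, 6, 8, 4, 1, 2, 9, 3, 10, 7])],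
  [(true, 25, [1, 0, 5, 10, 11, 2, 6, 3, 7, 8, 9, 4]),
   (true, 0, [1, 10, 2, 0, 5, 11, 3, 6, 7, 8, 4]),
   (true, 2, [2, 1, 3, 10, 0, 11, 7, 5, 8, 6, 9]),
   (true, 40, [3, 2, 7, 10, 8, 11, 1, 9, 0, 5, 6, 4]),
   (false, 70, [0, 1, 2, 3, 4, 5, 6, 7, 10, 8, 9]),
   (true, 10, [5, 0, 1, 4, 2, 10, 11, 6, 3, 7, 8, 9]),
   (false, 72, [0, 1, 2, 3, 4, 5, 6, 7, 10, 8, 9]),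
   (true, 30, [3, 7, 8, 10, 11, 9, 2, 1, 0, 5, 6, 4]),
   (true, 13, [2, 1, 3, 0, 7, 8, 5, 10, 11, 6, 4, 9]),
   (false, 73, [0, 1, 2, 3, 4, 5, 6, 7, 8, 9, 10])],
  [(true, 52, [0, 1, 4, 10, 2, 11, 7, 5, 6, 8, 3, 9]),
   (true, 50, [1, 2, 0, 10, 3, 11, 4, 7, 5, 6, 8, 9]),
   (true, 1, [0, 4, 1, 5, 6, 2, 7, 10, 9, 11, 8]),
   (true, 1, [0, 4, 1, 5, 6, 2, 7, 3, 9, 10, 8]),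
   (true, 50, [4, 7, 0, 10, 9, 11, 1, 2, 5, 6, 8, 3]),
   (true, 50, [5, 6, 0, 10, 8, 11, 1, 2, 4, 7, 9, 3]),
   (true, 1, [0, 1, 5, 4, 7, 6, 2, 10, 3, 11, 9]),
   (true, 1, [0, 1, 4, 5, 6, 7, 2, 10, 3, 11, 8]),
   (true, 1, [0, 1, 5, 4, 7, 6, 2, 8, 3, 10, 9]),
   (true, 1, [0, 1, 4, 5, 6, 7, 2, 9, 3, 10, 8])],
  [(true, 16, [0, 10, 4, 1, 6, 2, 11, 8, 3, 5, 7, 9]),
   (true, 2, [1, 0, 2, 10, 4, 11, 3, 6, 5, 8, 7]),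
   (true, 2, [2, 1, 3, 10, 0, 11, 5, 4, 7, 6, 9]),
   (true, 16, [3, 10, 5, 2, 7, 1, 11, 9, 0, 4, 6, 8]),
   (true, 9, [0, 4, 6, 10, 11, 8, 1, 2, 3, 5, 7, 9]),
   (true, 9, [3, 5, 7, 10, 11, 9, 2, 1, 0, 4, 6, 8]),
   (true, 12, [10, 6, 4, 0, 11, 1, 2, 3, 5, 7, 8, 9]),
   (true, 12, [10, 7, 5, 3, 11, 2, 1, 0, 4, 6, 9, 8]),
   (false, 74, [0, 1, 2, 3, 4, 5, 6, 7, 8, 9, 10]),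
   (false, 74, [1, 2, 3, 5, 0, 7, 4, 9, 6, 10, 8])]]

theorem rows81_2 : rowsB L81 pats53 none L81_2 cert81_2 = true := by
  decide +kernel

end Pool.Agent.SA27
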