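import Pool.Agent.SA27.L81

set_option autoImplicit false

/-! Certificates, part 4. -/

namespace Pool.Agent.SA27

/-- Certificates. -/
def cert81_4 : List (List (Bool × ℕ × List ℕ)) := [
  [(true, 5, [3, 2, 7, 1, 9, 0, 8, 5, 6, 11, 12]),
   (true, 0, [1, 11, 0, 2, 3, 12, 5, 9, 6, 10, 7]),
   (true, 3, [2, 1, 3, 7, 8, 9, 0, 11, 12, 5, 6]),
   (true, 0, [2, 7, 1, 3, 11, 8, 0, 12, 5, 6, 9]),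
   (true, 5, [3, 2, 7, 1, 9, 0, 8, 4, 11, 5, 6]),
   (true, 28, [0, 1, 4, 5, 2, 6, 10, 11, 12, 3, 9, 7]),
   (true, 30, [1, 2, 3, 7, 8, 9, 0, 5, 6, 11, 12, 10]),
   (true, 0, [2, 3, 1, 7, 11, 9, 0, 12, 5, 6, 8]),
   (true, 44, [5, 0, 1, 4, 2, 6, 10, 3, 9, 7, 8, 11]),
   (true, 44, [5, 0, 1, 4, 2, 6, 10, 7, 8, 3, 9, 11]),
   (true, 32, [2, 1, 0, 5, 6, 10, 3, 9, 11, 4, 7, 8])],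
  [(true, 5, [3, 2, 7, 1, 9, 0, 8, 5, 6, 11, 12]),
   (true, 0, [1, 11, 2, 0, 5, 12, 7, 6, 8, 10, 4]),
   (true, 3, [2, 1, 3, 7, 8, 9, 0, 11, 12, 5, 6]),
   (true, 0, [2, 7, 1, 3, 11, 8, 0, 12, 5, 6, 9]),
   (true, 5, [3, 2, 7, 1, 9, 0, 8, 4, 11, 5, 6]),
   (true, 34, [0, 4, 5, 1, 11, 2, 12, 6, 3, 9, 7, 8]),
   (true, 44, [5, 0, 1, 4, 2, 6, 11, 3, 9, 7, 8, 10]),
   (true, 0, [2, 3, 1, 7, 8, 9, 0, 10, 5, 6, 11]),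
   (true, 2, [2, 1, 7, 3, 0, 9, 8, 5, 11, 6, 12]),
   (true, 1, [2, 3, 1, 7, 8, 0, 9, 5, 11, 6, 10]),
   (true, 2, [2, 1, 7, 3, 0, 9, 8, 5, 10, 6, 11])],
  [(true, 42, [11, 0, 5, 1, 6, 2, 12, 9, 7, 8, 3, 4]),
   (true, 0, [1, 11, 0, 2, 7, 12, 5, 8, 6, 9, 3]),
   (true, 42, [11, 2, 7, 1, 8, 0, 12, 10, 5, 6, 4, 3]),
   (true, 44, [5, 0, 1, 4, 2, 6, 9, 3, 11, 7, 8, 10]),
   (true, 44, [7, 2, 1, 3, 0, 8, 10, 4, 11, 5, 6, 9]),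
   (true, 27, [1, 0, 4, 5, 6, 2, 9, 11, 12, 7, 8, 10]),
   (true, 11, [0, 5, 1, 6, 11, 2, 7, 8, 12, 10, 4, 9]),
   (true, 27, [1, 2, 3, 7, 8, 0, 10, 11, 12, 5, 6, 9]),
   (true, 11, [2, 7, 1, 8, 11, 0, 5, 6, 12, 9, 3, 10]),
   (true, 20, [5, 0, 4, 1, 6, 2, 9, 7, 11, 8, 10, 3]),
   (true, 20, [7, 2, 3, 1, 8, 0, 10, 5, 11, 6, 9, 4])],
  [(true, 2, [0, 1, 5, 11, 2, 12, 6, 7, 9, 8, 10]),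
   (true, 0, [1, 11, 0, 2, 7, 12, 5, 8, 6, 9, 3]),
   (true, 25, [1, 2, 7, 11, 12, 0, 8, 5, 6, 9, 10, 3]),
   (true, 32, [2, 1, 0, 5, 6, 9, 3, 11, 10, 4, 7, 8]),
   (true, 2, [0, 1, 5, 4, 2, 11, 6, 7, 9, 8, 10]),
   (true, 28, [0, 1, 4, 5, 2, 6, 9, 11, 12, 7, 8, 3]),
   (true, 30, [5, 6, 9, 11, 12, 10, 0, 1, 2, 7, 8, 3]),
   (true, 10, [7, 2, 1, 3, 0, 11, 12, 8, 5, 6, 9, 10]),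
   (true, 20, [5, 0, 4, 1, 6, 2, 9, 7, 10, 8, 11, 3]),
   (true, 11, [0, 1, 5, 2, 7, 6, 9, 11, 8, 12, 4, 3]),
   (true, 11, [0, 1, 5, 2, 7, 6, 9, 10, 8, 11, 4, 3])],
  [(true, 3, [0, 1, 4, 5, 6, 10, 2, 11, 12, 3, 7]),
   (true, 0, [1, 11, 2, 0, 4, 12, 3, 10, 8, 9, 5]),
   (true, 0, [2, 11, 1, 3, 8, 12, 0, 9, 4, 10, 7]),
   (true, 26, [3, 8, 2, 11, 9, 1, 12, 0, 4, 10, 5, 7]),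
   (true, 0, [0, 5, 1, 4, 11, 6, 2, 12, 3, 7, 10]),
   (true, 0, [0, 4, 1, 5, 11, 10, 2, 12, 3, 7, 6]),
   (true, 40, [0, 1, 5, 4, 6, 10, 2, 11, 3, 8, 9, 7]),
   (true, 33, [0, 4, 1, 5, 10, 6, 2, 3, 7, 8, 11, 9]),
   (true, 30, [1, 0, 4, 5, 6, 10, 2, 3, 8, 11, 12, 9]),
   (true, 31, [0, 1, 4, 5, 10, 6, 2, 3, 8, 9, 11, 7]),
   (true, 40, [0, 1, 4, 5, 10, 6, 2, 11, 3, 8, 9, 7])],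
  [(true, 26, [0, 5, 1, 11, 6, 2, 12, 3, 8, 9, 7, 4]),
   (true, 0, [1, 11, 2, 0, 5, 12, 3, 6, 8, 9, 4]),
   (true, 0, [2, 11, 1, 3, 8, 12, 0, 9, 5, 6, 7]),
   (true, 25, [2, 3, 8, 11, 12, 1, 9, 0, 5, 6, 10, 7]),
   (true, 40, [0, 1, 5, 4, 6, 11, 2, 10, 3, 8, 9, 7]),
   (true, 27, [1, 0, 4, 5, 6, 2, 10, 11, 12, 3, 8, 9]),
   (true, 11, [0, 5, 1, 6, 11, 2, 3, 8, 12, 9, 4, 10]),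
   (true, 31, [3, 2, 7, 8, 11, 9, 1, 0, 5, 6, 10, 4]),
   (true, 10, [8, 3, 2, 7, 1, 11, 12, 9, 0, 5, 6, 10]),
   (true, 19, [1, 0, 5, 4, 2, 6, 3, 8, 9, 11, 10, 7]),
   (true, 15, [5, 0, 1, 2, 3, 6, 8, 10, 9, 11, 7, 4])],
  [(true, 0, [0, 11, 1, 5, 8, 12, 2, 9, 3, 7, 6]),
   (true, 0, [1, 11, 2, 0, 5, 12, 3, 6, 7, 10, 4]),
   (true, 34, [0, 4, 5, 1, 8, 2, 9, 6, 3, 7, 11, 12]),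
   (true, 30, [2, 3, 7, 11, 12, 10, 1, 0, 5, 8, 9, 6]),
   (true, 0, [0, 4, 1, 5, 8, 11, 2, 9, 3, 7, 6]),
   (true, 24, [8, 5, 0, 11, 12, 9, 1, 2, 3, 7, 4, 6]),
   (true, 27, [1, 0, 4, 5, 6, 2, 11, 8, 9, 3, 7, 10]),
   (true, 10, [5, 0, 1, 4, 2, 8, 9, 6, 3, 7, 11, 12]),
   (true, 10, [8, 5, 0, 6, 1, 11, 12, 9, 2, 3, 7, 10]),
   (true, 17, [1, 2, 0, 5, 8, 9, 3, 11, 7, 10, 6, 4]),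
   (true, 10, [5, 0, 1, 4, 2, 8, 9, 6, 3, 7, 10, 11])],
  [(true, 0, [0, 11, 1, 5, 8, 12, 2, 9, 3, 7, 6]),
   (true, 29, [0, 1, 5, 4, 6, 2, 11, 3, 12, 8, 9, 10]),
   (true, 31, [2, 1, 3, 11, 7, 12, 0, 5, 8, 9, 10, 6]),
   (true, 14, [0, 5, 8, 1, 2, 3, 9, 11, 12, 6, 10, 7]),
   (true, 0, [0, 4, 1, 5, 8, 11, 2, 9, 3, 7, 6]),
   (true, 24, [8, 5, 0, 11, 12, 9, 1, 2, 3, 7, 4, 6]),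
   (true, 45, [5, 0, 1, 4, 2, 8, 6, 9, 11, 3, 7, 10]),
   (true, 17, [1, 2, 0, 5, 8, 9, 3, 10, 7, 11, 6, 4]),
   (true, 27, [0, 5, 6, 8, 9, 1, 10, 11, 12, 2, 3, 7]),
   (true, 11, [5, 8, 0, 9, 11, 1, 2, 3, 12, 7, 6, 10]),
   (true, 22, [0, 5, 4, 1, 8, 2, 3, 9, 10, 7, 11, 6])],
  [(true, 25, [1, 0, 5, 11, 12, 2, 6, 3, 7, 9, 10, 4]),
   (true, 0, [1, 11, 2, 0, 5, 12, 3, 6, 7, 8, 4]),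
   (true, 2, [2, 1, 3, 11, 0, 12, 7, 5, 9, 6, 10]),
   (true, 0, [3, 11, 2, 7, 9, 12, 1, 10, 0, 4, 8]),
   (true, 30, [1, 0, 4, 5, 6, 11, 2, 3, 7, 9, 10, 8]),
   (true, 10, [5, 0, 1, 4, 2, 11, 12, 6, 3, 7, 9, 10]),
   (true, 14, [1, 0, 5, 2, 3, 7, 6, 9, 10, 4, 11, 8]),
   (true, 25, [3, 7, 9, 11, 12, 2, 10, 1, 0, 5, 6, 8]),
   (true, 30, [3, 7, 8, 9, 10, 11, 2, 1, 0, 5, 6, 4]),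
   (true, 10, [9, 7, 3, 8, 2, 11, 12, 10, 1, 0, 5, 6]),
   (true, 14, [3, 7, 9, 2, 1, 0, 10, 5, 6, 8, 11, 4])],
  [(true, 3, [0, 1, 4, 5, 6, 8, 2, 11, 12, 3, 7]),
   (true, 0, [1, 11, 2, 0, 4, 12, 3, 8, 7, 10, 5]),
   (true, 5, [3, 2, 11, 1, 7, 0, 12, 4, 8, 5, 6]),
   (true, 31, [3, 2, 7, 11, 10, 12, 1, 0, 5, 6, 9, 4]),
   (true, 0, [0, 5, 1, 4, 11, 6, 2, 12, 3, 7, 8]),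
   (true, 0, [0, 4, 1, 5, 6, 8, 2, 9, 3, 7, 11]),
   (true, 2, [0, 1, 5, 4, 2, 8, 6, 3, 11, 7, 12]),
   (true, 14, [1, 0, 5, 2, 3, 7, 6, 11, 12, 4, 9, 10]),
   (true, 1, [0, 4, 1, 5, 6, 2, 8, 3, 11, 7, 9]),
   (true, 2, [0, 1, 5, 4, 2, 8, 6, 3, 9, 7, 11]),
   (true, 16, [0, 4, 5, 1, 6, 2, 8, 9, 3, 7, 10, 11])],
  [(true, 3, [0, 1, 4, 5, 6, 8, 2, 11, 12, 3, 7]),
   (true, 0, [1, 11, 2, 0, 4, 12, 3, 8, 7, 9, 5]),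
   (true, 2, [2, 1, 3, 11, 0, 12, 7, 4, 9, 8, 10]),
   (true, 31, [0, 1, 4, 5, 8, 6, 2, 3, 7, 9, 10, 11]),
   (true, 0, [0, 5, 1, 4, 11, 6, 2, 12, 3, 7, 8]),
   (true, 0, [0, 4, 1, 5, 11, 8, 2, 12, 3, 7, 6]),
   (true, 16, [0, 4, 5, 1, 6, 2, 8, 11, 3, 7, 9, 10]),
   (true, 30, [1, 0, 4, 5, 6, 8, 2, 3, 7, 9, 10, 11]),
   (true, 16, [0, 5, 4, 1, 8, 2, 6, 11, 3, 7, 9, 10]),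
   (true, 9, [1, 0, 4, 5, 6, 8, 2, 3, 7, 9, 11, 12]),
   (true, 9, [1, 0, 4, 5, 6, 8, 2, 3, 7, 9, 10, 11])],
  [(true, 2, [0, 1, 5, 11, 2, 12, 6, 3, 8, 7, 10]),
   (true, 0, [1, 11, 2, 0, 5, 12, 3, 6, 7, 9, 4]),
   (true, 16, [2, 11, 3, 1, 7, 0, 12, 9, 5, 6, 8, 10]),
   (true, 9, [2, 3, 7, 11, 12, 9, 1, 0, 5, 6, 8, 10]),
   (true, 2, [0, 1, 5, 4, 2, 11, 6, 3, 8, 7, 10]),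
   (true, 16, [5, 11, 6, 0, 8, 1, 12, 10, 2, 3, 7, 9]),
   (true, 9, [5, 6, 8, 11, 12, 10, 0, 1, 2, 3, 7, 9]),
   (true, 12, [11, 7, 3, 2, 12, 1, 0, 5, 6, 8, 9, 10]),
   (true, 12, [11, 8, 6, 5, 12, 0, 1, 2, 3, 7, 10, 9]),
   (true, 21, [0, 1, 2, 3, 5, 7, 9, 6, 8, 10, 4, 11]),
   (true, 23, [1, 0, 5, 2, 3, 6, 8, 7, 9, 10, 11, 4])],
  [(true, 16, [0, 11, 5, 1, 6, 2, 12, 8, 3, 7, 9, 10]),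
   (true, 0, [1, 11, 2, 0, 5, 12, 3, 6, 7, 9, 4]),
   (true, 2, [2, 1, 3, 11, 0, 12, 7, 5, 9, 6, 10]),
   (true, 16, [3, 11, 7, 2, 9, 1, 12, 10, 0, 5, 6, 8]),
   (true, 16, [0, 4, 5, 1, 6, 2, 11, 8, 3, 7, 9, 10]),
   (true, 9, [0, 5, 6, 11, 12, 8, 1, 2, 3, 7, 9, 10]),
   (true, 11, [0, 5, 1, 6, 11, 2, 3, 7, 12, 9, 4, 8]),
   (true, 9, [3, 7, 9, 11, 12, 10, 2, 1, 0, 5, 6, 8]),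
   (true, 21, [0, 1, 2, 3, 5, 7, 9, 6, 8, 11, 4, 10]),
   (true, 12, [11, 9, 7, 3, 12, 2, 1, 0, 5, 6, 10, 8]),
   (true, 18, [1, 0, 5, 2, 3, 7, 6, 9, 8, 10, 4, 11])],
  [(true, 9, [1, 0, 5, 11, 12, 6, 2, 3, 7, 8, 9, 10]),
   (true, 0, [1, 11, 2, 0, 5, 12, 3, 6, 7, 8, 4]),
   (true, 2, [2, 1, 3, 11, 0, 12, 7, 5, 8, 6, 9]),
   (true, 2, [3, 2, 7, 11, 1, 12, 8, 0, 9, 4, 10]),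
   (true, 9, [1, 0, 4, 5, 6, 11, 2, 3, 7, 8, 9, 10]),
   (true, 10, [5, 0, 1, 4, 2, 11, 12, 6, 3, 7, 8, 9]),
   (true, 18, [1, 0, 5, 2, 3, 7, 6, 8, 11, 9, 4, 10]),
   (true, 14, [3, 7, 8, 2, 1, 0, 9, 5, 6, 11, 10, 4]),
   (true, 9, [7, 8, 9, 11, 12, 10, 3, 2, 1, 0, 5, 6]),
   (true, 12, [5, 0, 1, 2, 6, 3, 7, 8, 9, 11, 4, 12]),
   (true, 12, [5, 0, 1, 2, 6, 3, 7, 8, 9, 10, 4, 11])],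
  [(true, 2, [0, 1, 4, 11, 2, 12, 6, 3, 8, 5, 10]),
   (true, 2, [1, 0, 2, 11, 4, 12, 3, 6, 5, 8, 7]),
   (true, 2, [2, 1, 3, 11, 0, 12, 5, 4, 7, 6, 9]),
   (true, 9, [2, 3, 5, 11, 12, 7, 1, 0, 4, 6, 8, 10]),
   (true, 9, [0, 4, 6, 11, 12, 8, 1, 2, 3, 5, 7, 9]),
   (true, 9, [3, 5, 7, 11, 12, 9, 2, 1, 0, 4, 6, 8]),
   (true, 9, [4, 6, 8, 11, 12, 10, 0, 1, 2, 3, 5, 7]),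
   (true, 8, [1, 0, 2, 3, 4, 6, 5, 7, 11, 12, 8, 10]),
   (true, 8, [0, 4, 1, 2, 6, 8, 3, 5, 7, 9, 11, 12]),
   (true, 8, [1, 0, 2, 3, 4, 6, 5, 7, 9, 11, 8, 10]),
   (true, 8, [0, 4, 1, 2, 6, 8, 3, 5, 7, 9, 10, 11])],
  [(true, 7, [1, 0, 5, 7, 6, 8, 2, 9, 10, 12, 13]),
   (true, 4, [5, 0, 1, 7, 2, 8, 6, 9, 10, 3, 12]),
   (true, 3, [0, 1, 5, 7, 8, 6, 2, 9, 10, 12, 13]),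
   (true, 3, [0, 1, 5, 7, 8, 6, 2, 9, 10, 3, 12]),
   (true, 7, [1, 0, 4, 5, 12, 6, 2, 7, 8, 9, 10]),
   (true, 4, [1, 0, 5, 7, 6, 8, 2, 9, 10, 11, 12]),
   (true, 3, [0, 5, 1, 7, 8, 2, 6, 9, 10, 12, 13]),
   (true, 4, [1, 0, 7, 5, 12, 6, 2, 9, 10, 13, 8]),
   (true, 52, [0, 1, 5, 9, 2, 10, 6, 7, 8, 12, 3, 11]),
   (true, 4, [1, 0, 9, 5, 12, 6, 2, 7, 8, 13, 10]),
   (true, 52, [0, 1, 5, 7, 2, 8, 6, 9, 10, 12, 3, 11]),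
   (true, 3, [0, 5, 1, 7, 8, 2, 6, 9, 10, 11, 12])],
  [(true, 3, [0, 1, 5, 7, 8, 6, 2, 12, 13, 9, 10]),
   (true, 0, [1, 12, 2, 0, 5, 13, 9, 6, 10, 11, 4]),
   (true, 5, [5, 0, 7, 1, 6, 2, 8, 9, 10, 12, 13]),
   (true, 5, [3, 2, 9, 1, 12, 0, 10, 5, 6, 7, 8]),
   (true, 3, [0, 1, 4, 5, 6, 12, 2, 7, 8, 9, 10]),
   (true, 0, [0, 7, 1, 5, 12, 8, 2, 13, 9, 10, 6]),
   (true, 42, [7, 0, 5, 1, 6, 2, 8, 12, 9, 10, 3, 4]),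
   (true, 0, [0, 5, 1, 7, 12, 6, 2, 13, 9, 10, 8]),
   (true, 42, [5, 0, 7, 1, 8, 2, 6, 12, 9, 10, 3, 4]),
   (true, 26, [0, 5, 1, 7, 6, 2, 8, 9, 10, 11, 12, 4]),
   (true, 25, [1, 0, 5, 7, 8, 2, 6, 9, 10, 12, 13, 4]),
   (true, 25, [1, 0, 5, 7, 8, 2, 6, 9, 10, 11, 12, 4])],
  [(true, 4, [1, 0, 5, 7, 9, 8, 2, 12, 13, 10, 6]),
   (true, 6, [0, 1, 5, 7, 8, 9, 2, 10, 3, 6, 12]),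
   (true, 0, [0, 7, 1, 5, 9, 8, 2, 10, 12, 13, 6]),
   (true, 0, [0, 7, 1, 5, 9, 8, 2, 10, 3, 12, 6]),
   (true, 4, [1, 0, 5, 4, 9, 12, 2, 7, 8, 10, 6]),
   (true, 48, [5, 0, 6, 9, 1, 10, 12, 13, 2, 7, 8, 3]),
   (true, 50, [5, 6, 0, 9, 12, 10, 1, 2, 7, 8, 11, 3]),
   (true, 6, [0, 5, 7, 1, 2, 8, 9, 11, 10, 12, 6]),
   (true, 0, [0, 1, 7, 5, 9, 2, 8, 10, 12, 13, 6]),
   (true, 1, [0, 1, 5, 7, 8, 9, 2, 12, 3, 13, 11]),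
   (true, 1, [0, 1, 5, 7, 8, 9, 2, 10, 3, 12, 11]),
   (true, 0, [0, 1, 7, 5, 9, 2, 8, 10, 11, 12, 6])],
  [(true, 3, [0, 5, 1, 7, 8, 2, 9, 12, 13, 10, 11]),
   (true, 0, [0, 7, 5, 1, 2, 8, 9, 3, 10, 11, 12]),
   (true, 0, [0, 7, 1, 5, 9, 8, 2, 10, 12, 13, 6]),
   (true, 0, [0, 7, 1, 5, 9, 8, 2, 10, 3, 12, 6]),
   (true, 3, [0, 5, 1, 4, 12, 2, 9, 7, 8, 10, 11]),
   (true, 46, [0, 5, 12, 9, 13, 10, 7, 8, 1, 2, 11, 3]),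
   (true, 46, [0, 5, 6, 9, 12, 10, 7, 8, 1, 2, 11, 3]),
   (true, 0, [0, 1, 5, 7, 12, 2, 9, 13, 10, 11, 8]),
   (true, 1, [0, 1, 5, 7, 8, 9, 2, 10, 3, 11, 12]),
   (true, 5, [1, 0, 7, 5, 2, 9, 8, 10, 11, 12, 13]),
   (true, 24, [1, 0, 5, 7, 8, 2, 9, 10, 12, 13, 6, 4]),
   (true, 24, [1, 0, 5, 7, 8, 2, 9, 10, 11, 12, 6, 4])],
  [(true, 0, [0, 12, 1, 5, 9, 13, 2, 10, 7, 8, 6]),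
   (true, 0, [1, 12, 0, 2, 7, 13, 5, 8, 9, 10, 3]),
   (true, 26, [2, 7, 1, 12, 8, 0, 13, 5, 9, 10, 6, 3]),
   (true, 34, [0, 4, 5, 1, 9, 2, 10, 6, 3, 12, 7, 8]),
   (true, 0, [0, 4, 1, 5, 9, 12, 2, 10, 7, 8, 6]),
   (true, 24, [9, 5, 0, 12, 13, 10, 1, 2, 7, 8, 4, 6]),
   (true, 27, [1, 0, 4, 5, 6, 2, 12, 9, 10, 7, 8, 11]),
   (true, 27, [1, 2, 3, 7, 8, 0, 11, 12, 13, 5, 9, 10]),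
   (true, 10, [5, 0, 1, 4, 2, 9, 10, 6, 7, 8, 12, 13]),
   (true, 10, [9, 5, 0, 6, 1, 12, 13, 10, 2, 7, 8, 11]),
   (true, 17, [1, 2, 0, 5, 9, 10, 7, 12, 8, 11, 6, 4]),
   (true, 10, [5, 0, 1, 4, 2, 9, 10, 6, 7, 8, 11, 12])],
  [(true, 24, [1, 0, 5, 12, 13, 2, 7, 9, 10, 11, 6, 4]),
   (true, 27, [5, 0, 4, 1, 2, 7, 3, 12, 13, 9, 10, 11]),
   (true, 11, [0, 1, 5, 2, 12, 7, 9, 10, 13, 11, 4, 3]),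
   (true, 17, [0, 1, 5, 7, 9, 10, 2, 11, 3, 12, 8, 6]),
   (true, 29, [5, 0, 7, 6, 8, 1, 4, 2, 12, 9, 10, 11]),
   (true, 0, [5, 12, 0, 7, 9, 13, 1, 10, 2, 3, 8]),
   (true, 0, [5, 6, 0, 7, 9, 12, 1, 10, 2, 3, 8]),
   (true, 24, [9, 7, 5, 12, 13, 10, 0, 1, 2, 3, 6, 8]),
   (true, 29, [5, 7, 0, 6, 4, 8, 9, 12, 10, 1, 2, 3]),
   (true, 27, [5, 7, 8, 9, 10, 0, 11, 12, 13, 1, 2, 3]),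
   (true, 11, [7, 9, 5, 10, 12, 0, 1, 2, 13, 3, 8, 11]),
   (true, 17, [7, 9, 5, 0, 1, 2, 10, 3, 11, 12, 4, 6])]]

theorem rows81_4 : rowsB L81 pats53 none L81_4 cert81_4 = true := by
  decide +kernel

end Pool.Agent.SA27
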