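import Pool.Agent.SA27.Cov81C1
import Pool.Agent.SA27.Cov81C2
import Pool.Agent.SA27.Cov81C3
import Pool.Agent.SA27.Cov81C4

set_option autoImplicit false

/-! Every twin-free tree with at least three vertices contains one of the 53 patterns or is in the
list `L81`. -/

namespace Pool.Agent.SA27

open SimpleGraph Pool.Agent.SA33 Pool.Agent.SA97

universe u

theorem cov81 {V : Type u} [Finite V] {G : SimpleGraph V} (hG : G.IsTree) (htw : TwinFree G)
    (hc : 3 ≤ Nat.card V) : (∃ q ∈ pats53, Nonempty (ptree q ↪g G)) ∨
      (∃ q ∈ L81, Nonempty (ptree q ≃g G)) := by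
  have h : Covered L81 pats53 none G := by
    apply covered _ _ hG htw hc
    · decide +kernel
    · intro q hq
      unfold L81 at hq
      simp only [List.mem_append] at hq
      rcases hq with h | h | h | h
      · exact rowsB_spec rows81_1 q h
      · exact rowsB_spec rows81_2 q h
      · exact rowsB_spec rows81_3 q h
      · exact rowsB_spec rows81_4 q h
  rcases h with h | h | h
  · exact Or.inl h
  · exact Or.inr h
  · exact absurd (show false = true from h) (by decide)

end Pool.Agent.SA27
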