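import Pool.Agent.SA27.Bases

set_option autoImplicit false

/-! `PlusGood` certificates, part 1. -/

namespace Pool.Agent.SA27

/-- Certificates. -/
def finP1 : List (List ℕ × PC) := [
  ([0, 0, 1, 2, 1, 4], ⟨1, 2,
    [default, default, (⟨0, [0, 0], true, 0, 0, [], []⟩, [2, 3]), default, (⟨0, [0, 0], true, 0, 0, [], []⟩, [4, 5]), default],
    [0, 0, 0, 2], [1, 0, 4, 5], 2, 0, [0, 1, 2, 3], [1, 2, 4, 0, 3, 5], [],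
    []⟩),
  ([0, 0, 1, 2, 1, 4, 1, 6], ⟨1, 2,
    [default, default, (⟨0, [0, 0], true, 0, 0, [], []⟩, [2, 3]), default, (⟨0, [0, 0], true, 0, 0, [], []⟩, [4, 5]), default, (⟨0, [0, 0], true, 0, 0, [], []⟩, [6, 7]), default],
    [0, 0, 0, 2, 0, 4], [1, 0, 4, 5, 6, 7], 0, 2, [0, 1, 2, 3, 6, 7], [2, 4, 6], [3, 5, 7],
    []⟩),
  ([0, 0, 1, 2, 0, 0, 5, 6], ⟨0, 1,
    [default, (⟨1, [0, 0], true, 0, 0, [], []⟩, [1, 2, 3]), default, default, default, (⟨1, [0, 0], true, 0, 0, [], []⟩, [5, 6, 7]), default, default],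
    [0, 0, 0, 2, 3], [0, 4, 5, 6, 7], 1, 1, [0, 1, 2, 3, 4], [0, 4, 2, 3, 6, 7], [],
    [[[], [1, 2, 5, 6, 0], [], [], [1, 2, 5, 6, 0], [1, 2, 5, 6, 0], [], []],
      [[0, 4, 2, 3, 0], [], [0, 4, 2, 3, 0], [], [], [], [], []],
      [[], [0, 4, 6, 7, 1], [], [0, 1, 6, 7, 1], [], [], [], []],
      [[], [], [0, 1, 6, 7, 1], [], [], [], [], []],
      [[1, 2, 5, 6, 1], [], [], [], [], [], [], []],
      [[0, 1, 6, 7, 0], [], [], [], [], [], [0, 1, 6, 7, 0], []],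
      [[], [], [], [], [], [0, 4, 2, 3, 1], [], [0, 4, 2, 3, 1]],
      [[], [], [], [], [], [], [0, 4, 2, 3, 1], []]]⟩),
  ([0, 0, 1, 2, 0, 0, 5, 0, 7], ⟨0, 1,
    [default, (⟨1, [0, 0], true, 0, 0, [], []⟩, [1, 2, 3]), default, default, default, (⟨0, [0, 0], true, 0, 0, [], []⟩, [5, 6]), default, (⟨0, [0, 0], true, 0, 0, [], []⟩, [7, 8]), default],
    [0, 0, 0, 2, 0, 4], [0, 4, 5, 6, 7, 8], 0, 2, [0, 1, 2, 3, 6, 7], [1, 5, 7], [2, 6, 8],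
    []⟩),
  ([0, 0, 1, 2, 0, 1, 5, 1, 7], ⟨1, 0,
    [(⟨0, [0, 0], true, 0, 0, [], []⟩, [0, 4]), default, (⟨0, [0, 0], true, 0, 0, [], []⟩, [2, 3]), default, default, (⟨0, [0, 0], true, 0, 0, [], []⟩, [5, 6]), default, (⟨0, [0, 0], true, 0, 0, [], []⟩, [7, 8]), default],
    [0, 0, 1, 0, 3, 0, 5], [1, 2, 3, 5, 6, 7, 8], 0, 3, [0, 2, 3, 6, 7, 10, 11], [0, 2, 5, 7], [4, 3, 6, 8],
    []⟩),
  ([0, 0, 1, 2, 0, 0, 5, 4, 6], ⟨0, 1,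
    [default, (⟨1, [0, 0], true, 0, 0, [], []⟩, [1, 2, 3]), default, default, (⟨0, [0, 0], true, 0, 0, [], []⟩, [4, 7]), (⟨1, [0, 0], true, 0, 0, [], []⟩, [5, 6, 8]), default, default, default],
    [0, 0, 1, 0, 3, 4], [0, 4, 7, 5, 6, 8], 0, 2, [0, 2, 3, 6, 7, 8], [1, 4, 5], [2, 7, 6],
    []⟩),
  ([0, 0, 1, 2, 1, 4, 1, 6, 1, 8], ⟨1, 2,
    [default, default, (⟨0, [0, 0], true, 0, 0, [], []⟩, [2, 3]), default, (⟨0, [0, 0], true, 0, 0, [], []⟩, [4, 5]), default, (⟨0, [0, 0], true, 0, 0, [], []⟩, [6, 7]), default, (⟨0, [0, 0], true, 0, 0, [], []⟩, [8, 9]), default],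
    [0, 0, 0, 2, 0, 4, 0, 6], [1, 0, 4, 5, 6, 7, 8, 9], 0, 3, [0, 1, 2, 3, 6, 7, 10, 11], [2, 4, 6, 8], [3, 5, 7, 9],
    []⟩),
  ([0, 0, 1, 2, 1, 4, 1, 6, 2, 8], ⟨1, 2,
    [default, default, (⟨0, [0, 0, 0, 2], false, 0, 0, [0, 1, 2, 4], [1, 2, 4, 6, 3, 5, 7]⟩, [2, 3, 8, 9]), default, (⟨0, [0, 0], true, 0, 0, [], []⟩, [4, 5]), default, (⟨0, [0, 0], true, 0, 0, [], []⟩, [6, 7]), default, default, default],
    [0, 0, 0, 2, 0, 4], [1, 0, 4, 5, 6, 7], 0, 2, [0, 1, 2, 3, 6, 7], [2, 4, 6], [3, 5, 7],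
    []⟩),
  ([0, 0, 1, 2, 0, 0, 5, 0, 7, 3], ⟨0, 1,
    [default, (⟨2, [0, 0], true, 0, 0, [], []⟩, [1, 2, 3, 9]), default, default, default, (⟨0, [0, 0], true, 0, 0, [], []⟩, [5, 6]), default, (⟨0, [0, 0], true, 0, 0, [], []⟩, [7, 8]), default, default],
    [0, 0, 0, 2, 0, 4], [0, 4, 5, 6, 7, 8], 0, 2, [0, 1, 2, 3, 6, 7], [1, 5, 7], [2, 6, 8],
    []⟩),
  ([0, 0, 1, 2, 0, 0, 5, 0, 7, 4], ⟨0, 1,
    [default, (⟨1, [0, 0], true, 0, 0, [], []⟩, [1, 2, 3]), default, default, (⟨0, [0, 0], true, 0, 0, [], []⟩, [4, 9]), (⟨0, [0, 0], true, 0, 0, [], []⟩, [5, 6]), default, (⟨0, [0, 0], true, 0, 0, [], []⟩, [7, 8]), default, default],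
    [0, 0, 1, 0, 3, 0, 5], [0, 4, 9, 5, 6, 7, 8], 0, 3, [0, 2, 3, 6, 7, 10, 11], [1, 4, 5, 7], [2, 9, 6, 8],
    []⟩),
  ([0, 0, 1, 2, 0, 0, 5, 0, 7, 6], ⟨0, 1,
    [default, (⟨1, [0, 0], true, 0, 0, [], []⟩, [1, 2, 3]), default, default, default, (⟨1, [0, 0], true, 0, 0, [], []⟩, [5, 6, 9]), default, (⟨0, [0, 0], true, 0, 0, [], []⟩, [7, 8]), default, default],
    [0, 0, 0, 2, 3, 0, 5], [0, 4, 5, 6, 9, 7, 8], 0, 2, [0, 1, 2, 3, 4, 6, 7], [1, 5, 7], [2, 6, 8],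
    []⟩),
  ([0, 0, 1, 2, 0, 0, 5, 1, 7, 3], ⟨1, 0,
    [(⟨0, [0, 0, 0, 2], false, 0, 0, [0, 1, 2, 4], [1, 0, 2, 7, 4, 3, 8]⟩, [0, 4, 5, 6]), default, (⟨1, [0, 0], true, 0, 0, [], []⟩, [2, 3, 9]), default, default, default, default, (⟨0, [0, 0], true, 0, 0, [], []⟩, [7, 8]), default, default],
    [0, 0, 1, 2, 0, 4], [1, 2, 3, 9, 7, 8], 0, 2, [0, 2, 3, 4, 6, 7], [0, 2, 7], [4, 3, 8],
    []⟩),
  ([0, 0, 1, 2, 0, 0, 5, 3, 5, 8], ⟨0, 5,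
    [default, (⟨2, [0, 0], true, 0, 0, [], []⟩, [1, 2, 3, 7]), default, default, default, (⟨0, [0, 0, 0, 2], false, 0, 1, [0, 1, 2, 4], [0, 1, 5, 4, 2, 6, 3]⟩, [5, 6, 8, 9]), default, default, default, default],
    [0, 0, 1, 2, 3, 0], [0, 1, 2, 3, 7, 4], 1, 1, [0, 2, 3, 4, 5, 1], [0, 1, 3, 7, 8, 9], [],
    [[[], [1, 2, 5, 6, 0], [], [], [1, 2, 5, 6, 0], [1, 2, 5, 6, 0], [], [], [], []],
      [[0, 4, 2, 3, 0], [], [0, 4, 2, 3, 0], [], [], [], [], [], [], []],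
      [[], [1, 0, 3, 7, 0], [], [1, 0, 3, 7, 0], [], [], [], [], [], []],
      [[], [], [0, 1, 8, 9, 1], [], [], [], [], [0, 1, 8, 9, 1], [], []],
      [[1, 2, 5, 6, 1], [], [], [], [], [], [], [], [], []],
      [[0, 1, 8, 9, 0], [], [], [], [], [], [0, 1, 8, 9, 0], [], [0, 1, 8, 9, 0], []],
      [[], [], [], [], [], [0, 1, 3, 7, 1], [], [], [], []],
      [[], [], [], [0, 1, 8, 9, 1], [], [], [], [], [], []],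
      [[], [], [], [], [], [0, 1, 3, 7, 1], [], [], [], [0, 1, 3, 7, 1]],
      [[], [], [], [], [], [], [], [], [0, 1, 3, 7, 1], []]]⟩),
  ([0, 0, 1, 2, 0, 0, 5, 3, 4, 6], ⟨0, 1,
    [default, (⟨2, [0, 0], true, 0, 0, [], []⟩, [1, 2, 3, 7]), default, default, (⟨0, [0, 0], true, 0, 0, [], []⟩, [4, 8]), (⟨1, [0, 0], true, 0, 0, [], []⟩, [5, 6, 9]), default, default, default, default],
    [0, 0, 1, 0, 3, 4], [0, 4, 8, 5, 6, 9], 0, 2, [0, 2, 3, 6, 7, 8], [1, 4, 5], [2, 8, 6],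
    []⟩)]

theorem finP1_ok : (finP1.all fun p => plusB bases0 p.1 p.2) = true := by
  decide +kernel

end Pool.Agent.SA27
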