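import Pool.Agent.SA27.Bases

set_option autoImplicit false

/-! Edge certificates using the two pairs. -/

namespace Pool.Agent.SA27

/-- Certificates. -/
def finR : List (List ℕ × EC) := [
  ([0, 0, 1, 2, 1, 4, 2, 6, 4, 8], ⟨1, 2, ⟨0, [0, 0, 0, 2, 2, 4], false, 3, 0, [0, 6, 1, 5, 2, 3], [1, 2, 6, 7, 3, 4, 8, 9, 5, 0]⟩, [1, 0, 4, 5, 8, 9],
    ⟨0, [0, 0, 0, 2], false, 0, 1, [0, 1, 2, 4], [1, 2, 4, 0, 6, 5, 7]⟩, [2, 3, 6, 7]⟩),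
  ([0, 0, 1, 2, 0, 0, 5, 1, 7, 5, 9], ⟨0, 1, ⟨0, [0, 0, 0, 2, 2, 4], false, 3, 0, [0, 6, 1, 5, 2, 3], [0, 1, 2, 3, 7, 5, 9, 10, 6, 4]⟩, [0, 4, 5, 6, 9, 10],
    ⟨0, [0, 0, 1, 0, 3], false, 0, 0, [0, 1, 3, 2, 4], [1, 0, 2, 7, 4, 3, 8]⟩, [1, 2, 3, 7, 8]⟩),
  ([0, 0, 1, 2, 0, 0, 5, 2, 7, 5, 9], ⟨0, 1, ⟨0, [0, 0, 0, 2, 2, 4], false, 2, 0, [0, 5, 1, 4, 2, 3], [1, 0, 5, 9, 10, 6, 4, 2, 7, 8]⟩, [0, 4, 5, 6, 9, 10],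
    ⟨1, [0, 0, 0, 2], false, 0, 1, [0, 1, 2, 4], [0, 1, 5, 4, 2, 6, 3]⟩, [1, 2, 3, 7, 8]⟩),
  ([0, 0, 1, 2, 0, 0, 5, 5, 7, 7, 9], ⟨0, 5, ⟨0, [0, 0, 1, 2, 0], false, 1, 2, [0, 2, 3, 4, 1], [1, 0, 2, 5, 4, 7, 6, 9, 10]⟩, [0, 1, 2, 3, 4],
    ⟨0, [0, 0, 0, 2, 2, 4], false, 2, 0, [0, 5, 1, 4, 2, 3], [0, 5, 7, 9, 10, 8, 6, 1, 2, 3]⟩, [5, 6, 7, 8, 9, 10]⟩),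
  ([0, 0, 1, 2, 0, 0, 5, 3, 5, 8, 7], ⟨0, 1, ⟨0, [0, 0, 0, 2, 2, 4], false, 2, 0, [0, 5, 1, 4, 2, 3], [1, 0, 5, 8, 9, 6, 4, 2, 3, 7]⟩, [0, 4, 5, 6, 8, 9],
    ⟨3, [0, 0], true, 0, 0, [], []⟩, [1, 2, 3, 7, 10]⟩),
  ([0, 0, 1, 2, 0, 0, 5, 2, 7, 5, 9, 8], ⟨0, 1, ⟨0, [0, 0, 0, 2, 2, 4], false, 2, 0, [0, 5, 1, 4, 2, 3], [1, 0, 5, 9, 10, 6, 4, 2, 7, 8]⟩, [0, 4, 5, 6, 9, 10],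
    ⟨1, [0, 0, 0, 2, 3], false, 1, 2, [0, 1, 2, 3, 4], [9, 5, 10, 0, 6, 1, 4, 2, 3]⟩, [1, 2, 3, 7, 8, 11]⟩),
  ([0, 0, 1, 2, 0, 0, 5, 5, 7, 7, 9, 10], ⟨0, 5, ⟨0, [0, 0, 1, 2, 0], false, 1, 2, [0, 2, 3, 4, 1], [0, 5, 1, 7, 6, 9, 8, 10, 11]⟩, [0, 1, 2, 3, 4],
    ⟨0, [0, 0, 0, 2, 2, 4, 5], false, 3, 0, [0, 6, 1, 5, 2, 3, 4], [5, 0, 1, 2, 4, 7, 9, 10, 8, 6]⟩, [5, 6, 7, 8, 9, 10, 11]⟩)]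

theorem finR_ok : (finR.all fun p => edgeB basesAB p.1 p.2) = true := by
  decide +kernel

end Pool.Agent.SA27
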