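import Pool.Agent.SA27.FinE1
import Pool.Agent.SA27.FinE2
import Pool.Agent.SA27.FinP1
import Pool.Agent.SA27.FinP2
import Pool.Agent.SA27.FinP3
import Pool.Agent.SA27.FinR
import Pool.Agent.SA27.Cov81

set_option autoImplicit false

/-! All trees of the list `L81` are `EdgeGood` or `PlusGood`. -/

namespace Pool.Agent.SA27

open SimpleGraph Pool.Agent.SA33 Pool.Agent.SA97 Pool.Agent.SA32

/-- All edge certificates. -/
def finE : List (List ℕ × EC) := finE1 ++ finE2

/-- All `PlusGood` certificates. -/
def finP : List (List ℕ × PC) := finP1 ++ (finP2 ++ (finP3))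

theorem finE_ok : ∀ p ∈ finE, edgeB bases0 p.1 p.2 = true := by
  intro p hp
  unfold finE at hp
  simp only [List.mem_append] at hp
  rcases hp with h | h
  · exact List.all_eq_true.1 finE1_ok p h
  · exact List.all_eq_true.1 finE2_ok p h

theorem finP_ok : ∀ p ∈ finP, plusB bases0 p.1 p.2 = true := by
  intro p hp
  unfold finP at hp
  simp only [List.mem_append] at hp
  rcases hp with h | h | h
  · exact List.all_eq_true.1 finP1_ok p h
  · exact List.all_eq_true.1 finP2_ok p h
  · exact List.all_eq_true.1 finP3_ok p h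

/-- Every member of `L81` has a certificate. -/
theorem fin_cover : (L81.all fun q => (finE.any fun p => p.1 == q) ||
    ((finP.any fun p => p.1 == q) || (finR.any fun p => p.1 == q))) = true := by
  decide +kernel

/-- The members of `L81` which do not need the two pairs are good; the others if the pairs are. -/
theorem fin81_or {q : List ℕ} (hq : q ∈ L81) (hT : (ptree q).IsTree) {k : ℕ} (hk : 3 ≤ k) :
    EdgeGood (ptree q) k ∨ PlusGood (ptree q) k ∨ ∃ c, (q, c) ∈ finR := by
  have h := List.all_eq_true.1 fin_cover q hq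
  rw [Bool.or_eq_true, Bool.or_eq_true, List.any_eq_true, List.any_eq_true, List.any_eq_true] at h
  rcases h with ⟨p, hp, h⟩ | ⟨p, hp, h⟩ | ⟨p, hp, h⟩
  · left
    have h1 := eq_of_beq h
    subst h1
    exact edgeB_spec bases0_ok (finE_ok p hp) hT hk
  · right; left
    have h1 := eq_of_beq h
    subst h1
    exact plusB_spec bases0_ok (finP_ok p hp) hT hk
  · right; right
    have h1 := eq_of_beq h
    subst h1
    exact ⟨p.2, hp⟩

/-- All members of `L81` are good if the two pairs are. -/
theorem fin81 (hA : BaseOK pairA) (hB : BaseOK pairB) {q : List ℕ} (hq : q ∈ L81)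
    (hT : (ptree q).IsTree) {k : ℕ} (hk : 3 ≤ k) : EdgeGood (ptree q) k ∨ PlusGood (ptree q) k := by
  rcases fin81_or hq hT hk with h | h | ⟨c, h⟩
  · exact Or.inl h
  · exact Or.inr h
  · exact Or.inl (edgeB_spec (basesAB_ok hA hB) (List.all_eq_true.1 finR_ok _ h) hT hk)

end Pool.Agent.SA27
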