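import Pool.Agent.SA27.Check

set_option autoImplicit false

/-! The 53 patterns of helper36 with property P(4), and the twin-free trees with at least 4
vertices containing none of them. -/

namespace Pool.Agent.SA27

/-- The 53 patterns. -/
def pats53 : List (List ℕ) := [
  [0, 0, 0, 0, 3, 1, 2, 4, 6, 8, 3],
  [0, 0, 0, 0, 3, 2, 1, 5, 6, 7, 4],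
  [0, 0, 0, 0, 1, 3, 2, 4, 6, 7, 8],
  [0, 0, 0, 0, 3, 2, 1, 0, 7, 6, 9],
  [0, 0, 1, 1, 2, 3, 0, 1, 7, 4, 2],
  [0, 0, 1, 1, 0, 3, 2, 5, 7, 5, 9],
  [0, 0, 0, 0, 3, 2, 1, 5, 6, 2, 1],
  [0, 0, 1, 1, 2, 3, 0, 1, 7, 1, 9],
  [0, 0, 0, 2, 1, 4, 3, 6, 7, 8, 5, 10],
  [0, 0, 1, 1, 3, 2, 0, 6, 7, 8, 9, 10],
  [0, 0, 1, 1, 2, 0, 5, 0, 4, 8, 9, 10],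
  [0, 0, 0, 1, 3, 2, 5, 6, 4, 7, 0, 3],
  [0, 0, 1, 2, 0, 3, 5, 6, 7, 8, 1, 9],
  [0, 0, 0, 1, 2, 4, 3, 5, 7, 6, 3, 5],
  [0, 0, 1, 0, 3, 4, 2, 5, 7, 1, 6, 5],
  [0, 0, 1, 2, 3, 0, 4, 5, 6, 7, 4, 1],
  [0, 0, 0, 0, 2, 3, 1, 4, 5, 8, 9, 10],
  [0, 0, 0, 2, 3, 4, 1, 5, 6, 8, 3, 2],
  [0, 0, 1, 0, 3, 4, 2, 5, 6, 7, 1, 9],
  [0, 0, 1, 1, 0, 2, 4, 6, 7, 8, 5, 6],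
  [0, 0, 1, 1, 0, 3, 4, 5, 6, 7, 9, 5],
  [0, 0, 1, 2, 0, 3, 5, 4, 7, 8, 0, 6],
  [0, 0, 0, 0, 1, 3, 5, 4, 7, 6, 8, 1],
  [0, 0, 1, 0, 3, 2, 5, 4, 7, 6, 9, 1],
  [0, 0, 1, 1, 3, 0, 2, 6, 7, 8, 2, 1],
  [0, 0, 1, 1, 3, 0, 2, 5, 7, 8, 9, 1],
  [0, 0, 0, 0, 1, 2, 3, 5, 7, 8, 7, 0],
  [0, 0, 1, 1, 3, 0, 4, 3, 7, 5, 9, 10],
  [0, 0, 0, 0, 1, 3, 5, 3, 7, 4, 9, 4],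
  [0, 0, 0, 0, 2, 1, 1, 5, 6, 2, 9, 10],
  [0, 0, 1, 1, 3, 2, 0, 6, 7, 8, 9, 8],
  [0, 0, 0, 0, 2, 3, 1, 6, 7, 8, 9, 7],
  [0, 0, 1, 2, 3, 4, 0, 6, 5, 2, 0, 10],
  [0, 0, 0, 0, 1, 3, 2, 6, 7, 7, 8, 9],
  [0, 0, 0, 0, 2, 3, 4, 2, 5, 8, 5, 10],
  [0, 0, 0, 0, 1, 3, 5, 3, 4, 8, 8, 10],
  [0, 0, 1, 1, 3, 0, 4, 3, 6, 4, 5, 10],
  [0, 0, 1, 1, 3, 2, 4, 3, 2, 8, 4, 6],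
  [0, 0, 0, 0, 2, 3, 4, 2, 7, 6, 3, 10],
  [0, 0, 0, 2, 1, 3, 5, 4, 6, 2, 5, 1],
  [0, 0, 0, 0, 2, 3, 1, 4, 6, 8, 9, 8],
  [0, 0, 0, 0, 2, 1, 4, 5, 7, 6, 2, 5],
  [0, 0, 1, 1, 2, 3, 0, 4, 5, 8, 5, 1],
  [0, 0, 0, 0, 2, 3, 1, 4, 5, 8, 9, 0],
  [0, 0, 1, 1, 2, 0, 5, 4, 7, 4, 9, 10],
  [0, 0, 1, 1, 2, 0, 0, 5, 6, 4, 9, 7],
  [0, 0, 1, 1, 2, 3, 0, 6, 0, 8, 5, 9],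
  [0, 0, 1, 1, 2, 0, 3, 4, 2, 7, 4, 1],
  [0, 0, 0, 0, 1, 3, 0, 6, 4, 1, 9, 8],
  [0, 0, 0, 0, 1, 3, 2, 6, 2, 8, 0, 2],
  [0, 0, 0, 0, 1, 3, 2, 6, 2, 8, 9, 7],
  [0, 0, 1, 1, 0, 3, 2, 6, 5, 2, 1, 9],
  [0, 0, 0, 0, 1, 3, 2, 0, 7, 8, 4, 6]]

/-- Part 1 of the list of twin-free trees without pattern. -/
def L81_1 : List (List ℕ) := [
  [0, 0, 1, 2],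
  [0, 0, 1, 2, 0],
  [0, 0, 1, 2, 1, 4],
  [0, 0, 1, 2, 0, 3],
  [0, 0, 1, 2, 0, 0, 5],
  [0, 0, 1, 2, 0, 1, 5],
  [0, 0, 1, 2, 0, 3, 4],
  [0, 0, 1, 2, 1, 4, 1, 6],
  [0, 0, 1, 2, 1, 4, 2, 6],
  [0, 0, 1, 2, 0, 0, 5, 3],
  [0, 0, 1, 2, 0, 0, 5, 4],
  [0, 0, 1, 2, 0, 0, 5, 6],
  [0, 0, 1, 2, 0, 3, 4, 5],
  [0, 0, 1, 2, 0, 0, 5, 0, 7],
  [0, 0, 1, 2, 0, 0, 5, 1, 7],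
  [0, 0, 1, 2, 0, 0, 5, 2, 7],
  [0, 0, 1, 2, 0, 0, 5, 5, 7],
  [0, 0, 1, 2, 0, 1, 5, 1, 7],
  [0, 0, 1, 2, 0, 0, 5, 3, 4],
  [0, 0, 1, 2, 0, 0, 5, 3, 6],
  [0, 0, 1, 2, 0, 0, 5, 3, 7],
  [0, 0, 1, 2, 0, 0, 5, 4, 6],
  [0, 0, 1, 2, 0, 3, 4, 5, 6],
  [0, 0, 1, 2, 1, 4, 1, 6, 1, 8]]

/-- Part 2 of the list of twin-free trees without pattern. -/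
def L81_2 : List (List ℕ) := [
  [0, 0, 1, 2, 1, 4, 1, 6, 2, 8],
  [0, 0, 1, 2, 1, 4, 2, 6, 4, 8],
  [0, 0, 1, 2, 0, 0, 5, 0, 7, 3],
  [0, 0, 1, 2, 0, 0, 5, 0, 7, 4],
  [0, 0, 1, 2, 0, 0, 5, 0, 7, 6],
  [0, 0, 1, 2, 0, 0, 5, 1, 7, 3],
  [0, 0, 1, 2, 0, 0, 5, 1, 7, 4],
  [0, 0, 1, 2, 0, 0, 5, 1, 7, 6],
  [0, 0, 1, 2, 0, 0, 5, 2, 7, 3],
  [0, 0, 1, 2, 0, 0, 5, 2, 7, 6],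
  [0, 0, 1, 2, 0, 0, 5, 3, 3, 8],
  [0, 0, 1, 2, 0, 0, 5, 3, 5, 8],
  [0, 0, 1, 2, 0, 0, 5, 5, 7, 8],
  [0, 0, 1, 2, 0, 0, 5, 3, 4, 6],
  [0, 0, 1, 2, 0, 0, 5, 3, 4, 7],
  [0, 0, 1, 2, 0, 0, 5, 3, 6, 7],
  [0, 0, 1, 2, 0, 0, 5, 3, 6, 8],
  [0, 0, 1, 2, 0, 0, 5, 3, 7, 8],
  [0, 0, 1, 2, 0, 0, 5, 4, 6, 7],
  [0, 0, 1, 2, 0, 3, 4, 5, 6, 7]]

/-- Part 3 of the list of twin-free trees without pattern. -/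
def L81_3 : List (List ℕ) := [
  [0, 0, 1, 2, 0, 0, 5, 0, 7, 0, 9],
  [0, 0, 1, 2, 0, 0, 5, 0, 7, 1, 9],
  [0, 0, 1, 2, 0, 0, 5, 0, 7, 2, 9],
  [0, 0, 1, 2, 0, 0, 5, 0, 7, 5, 9],
  [0, 0, 1, 2, 0, 0, 5, 1, 7, 5, 9],
  [0, 0, 1, 2, 0, 0, 5, 2, 7, 5, 9],
  [0, 0, 1, 2, 0, 0, 5, 5, 7, 5, 9],
  [0, 0, 1, 2, 0, 0, 5, 5, 7, 7, 9],
  [0, 0, 1, 2, 0, 0, 5, 0, 7, 3, 6],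
  [0, 0, 1, 2, 0, 0, 5, 0, 7, 3, 9],
  [0, 0, 1, 2, 0, 0, 5, 0, 7, 4, 6],
  [0, 0, 1, 2, 0, 0, 5, 0, 7, 6, 8],
  [0, 0, 1, 2, 0, 0, 5, 1, 7, 3, 4],
  [0, 0, 1, 2, 0, 0, 5, 1, 7, 3, 6],
  [0, 0, 1, 2, 0, 0, 5, 1, 7, 3, 8],
  [0, 0, 1, 2, 0, 0, 5, 1, 7, 6, 9]]

/-- Part 4 of the list of twin-free trees without pattern. -/
def L81_4 : List (List ℕ) := [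
  [0, 0, 1, 2, 0, 0, 5, 2, 7, 3, 6],
  [0, 0, 1, 2, 0, 0, 5, 2, 7, 3, 8],
  [0, 0, 1, 2, 0, 0, 5, 2, 7, 6, 8],
  [0, 0, 1, 2, 0, 0, 5, 2, 7, 6, 9],
  [0, 0, 1, 2, 0, 0, 5, 3, 3, 8, 4],
  [0, 0, 1, 2, 0, 0, 5, 3, 3, 8, 6],
  [0, 0, 1, 2, 0, 0, 5, 3, 5, 8, 7],
  [0, 0, 1, 2, 0, 0, 5, 3, 5, 8, 9],
  [0, 0, 1, 2, 0, 0, 5, 3, 7, 7, 9],
  [0, 0, 1, 2, 0, 0, 5, 3, 4, 6, 7],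
  [0, 0, 1, 2, 0, 0, 5, 3, 4, 7, 9],
  [0, 0, 1, 2, 0, 0, 5, 3, 6, 7, 8],
  [0, 0, 1, 2, 0, 0, 5, 3, 6, 7, 9],
  [0, 0, 1, 2, 0, 0, 5, 3, 7, 8, 9],
  [0, 0, 1, 2, 0, 3, 4, 5, 6, 7, 8],
  [0, 0, 1, 2, 0, 0, 5, 0, 7, 0, 9, 6],
  [0, 0, 1, 2, 0, 0, 5, 0, 7, 2, 9, 10],
  [0, 0, 1, 2, 0, 0, 5, 0, 7, 5, 9, 8],
  [0, 0, 1, 2, 0, 0, 5, 0, 7, 5, 9, 10],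
  [0, 0, 1, 2, 0, 0, 5, 2, 7, 5, 9, 8],
  [0, 0, 1, 2, 0, 0, 5, 5, 7, 7, 9, 10]]

/-- The twin-free trees without pattern. -/
def L81 : List (List ℕ) :=
  L81_1 ++ (L81_2 ++ (L81_3 ++ (L81_4)))

end Pool.Agent.SA27
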