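import Pool.Agent.SA27.Cert

set_option autoImplicit false

/-! The base facts used by the certificates. -/

namespace Pool.Agent.SA27

open SimpleGraph Pool.Agent.SA33 Pool.Agent.SA97

/-- The rooted trees `(2,2)` and `(3,1)` with the trees which are not in their hosts. -/
def bases0 : List (List ℕ × List (List ℕ)) := [([0, 0, 0, 1, 2], patM), ([0, 0, 0, 2, 3], patR)]

/-- Pair A. -/
def pairA : List ℕ × List (List ℕ) := ([0, 0, 1, 2, 1, 0], [[0, 0, 1, 2, 3, 2, 1, 0, 7, 8]])

/-- Pair B. -/
def pairB : List ℕ × List (List ℕ) := ([0, 0, 1, 2, 3, 1, 0], [[0, 0, 1, 2, 1, 0, 5, 6, 5, 0]])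

/-- The base facts with the two pairs. -/
def basesAB : List (List ℕ × List (List ℕ)) :=
  [([0, 0, 0, 1, 2], patM), ([0, 0, 0, 2, 3], patR), pairA, pairB]

theorem baseOK_B22 : BaseOK ([0, 0, 0, 1, 2], patM) := by
  intro h0 τ T k hk h
  exact good_B22 hk h

theorem baseOK_B31 : BaseOK ([0, 0, 0, 2, 3], patR) := by
  intro h0 τ T k hk h
  exact good_B31 hk h

theorem bases0_ok : ∀ b ∈ bases0, BaseOK b := by
  intro b hb
  unfold bases0 at hb
  simp only [List.mem_cons, List.not_mem_nil, or_false] at hb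
  rcases hb with rfl | rfl
  · exact baseOK_B22
  · exact baseOK_B31

theorem basesAB_ok (hA : BaseOK pairA) (hB : BaseOK pairB) : ∀ b ∈ basesAB, BaseOK b := by
  intro b hb
  unfold basesAB at hb
  simp only [List.mem_cons, List.not_mem_nil, or_false] at hb
  rcases hb with rfl | rfl | rfl | rfl
  · exact baseOK_B22
  · exact baseOK_B31
  · exact hA
  · exact hB

end Pool.Agent.SA27
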