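import Pool.Agent.SA27.L13

set_option autoImplicit false

/-! Certificates, part 2. -/

namespace Pool.Agent.SA27

/-- Certificates. -/
def cert13_2 : List (List (Bool × ℕ × List ℕ)) := [
  [(false, 170, [11, 0, 1, 2, 4, 6, 12, 3, 8, 5, 10, 7, 9]),
   (false, 169, [11, 1, 0, 4, 2, 3, 12, 6, 5, 8, 7, 10, 9]),
   (false, 170, [11, 2, 1, 0, 3, 5, 12, 4, 7, 6, 9, 8, 10]),
   (false, 171, [11, 3, 2, 1, 5, 7, 12, 0, 9, 4, 6, 8, 10]),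
   (false, 171, [11, 4, 0, 1, 6, 8, 12, 2, 10, 3, 5, 7, 9]),
   (false, 172, [7, 5, 3, 2, 11, 12, 9, 1, 0, 4, 6, 8, 10]),
   (false, 172, [8, 6, 4, 0, 11, 12, 10, 1, 2, 3, 5, 7, 9]),
   (false, 176, [9, 7, 5, 3, 11, 12, 2, 1, 0, 4, 6, 8, 10]),
   (false, 176, [10, 8, 6, 4, 11, 12, 0, 1, 2, 3, 5, 7, 9]),
   (false, 83, [0, 1, 2, 3, 4, 5, 6, 7, 8, 9, 10, 11]),
   (false, 83, [4, 0, 1, 2, 6, 3, 8, 5, 10, 7, 11, 9])],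
  [(false, 189, [4, 1, 0, 6, 2, 3, 11, 12, 5, 9, 7, 8, 10]),
   (false, 178, [11, 1, 2, 3, 0, 6, 4, 5, 12, 7, 9, 8, 10]),
   (false, 187, [0, 1, 2, 11, 4, 5, 3, 7, 6, 12, 8, 10, 9]),
   (false, 204, [0, 1, 2, 3, 4, 5, 7, 11, 12, 6, 8, 10, 9]),
   (false, 189, [0, 1, 4, 5, 2, 3, 11, 12, 6, 8, 7, 9, 10]),
   (false, 209, [0, 1, 4, 5, 2, 3, 8, 11, 12, 6, 7, 9, 10]),
   (false, 209, [4, 1, 0, 6, 2, 3, 9, 11, 12, 5, 7, 8, 10]),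
   (false, 217, [0, 1, 2, 3, 4, 5, 7, 10, 11, 12, 6, 8, 9]),
   (false, 84, [0, 1, 2, 3, 4, 5, 6, 7, 8, 9, 10, 11]),
   (false, 84, [4, 1, 0, 6, 2, 3, 5, 9, 7, 8, 11, 10]),
   (false, 85, [0, 1, 2, 3, 4, 5, 6, 7, 8, 9, 10, 11])],
  [(false, 196, [2, 1, 0, 6, 4, 5, 11, 12, 3, 8, 7, 10, 9]),
   (false, 179, [0, 1, 2, 3, 4, 5, 11, 12, 6, 7, 8, 9, 10]),
   (false, 188, [0, 1, 2, 11, 4, 5, 3, 7, 6, 12, 8, 9, 10]),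
   (false, 205, [0, 1, 2, 3, 4, 5, 7, 11, 12, 6, 8, 9, 10]),
   (false, 188, [0, 1, 4, 11, 2, 3, 5, 8, 6, 12, 7, 10, 9]),
   (false, 205, [0, 1, 4, 5, 2, 3, 8, 11, 12, 6, 7, 10, 9]),
   (false, 84, [0, 1, 2, 3, 4, 5, 6, 7, 8, 11, 9, 10]),
   (false, 218, [0, 1, 2, 3, 4, 5, 7, 9, 11, 12, 6, 8, 10]),
   (false, 218, [0, 1, 4, 5, 2, 3, 8, 10, 11, 12, 6, 7, 9]),
   (false, 86, [0, 1, 2, 3, 4, 5, 6, 7, 8, 9, 10, 11]),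
   (false, 86, [0, 1, 4, 5, 2, 3, 6, 8, 7, 10, 9, 11])],
  [(false, 197, [4, 1, 0, 6, 2, 3, 11, 12, 5, 7, 8, 9, 10]),
   (false, 180, [0, 1, 2, 3, 4, 5, 11, 12, 6, 7, 8, 9, 10]),
   (false, 188, [11, 2, 1, 0, 3, 7, 4, 5, 12, 6, 9, 8, 10]),
   (false, 203, [0, 1, 2, 3, 4, 5, 11, 7, 9, 6, 8, 12, 10]),
   (false, 190, [0, 1, 4, 5, 2, 3, 11, 12, 6, 8, 7, 9, 10]),
   (false, 210, [0, 1, 4, 5, 2, 3, 8, 11, 12, 6, 7, 9, 10]),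
   (false, 85, [0, 1, 2, 3, 4, 5, 6, 7, 8, 11, 9, 10]),
   (false, 215, [0, 1, 2, 3, 4, 5, 7, 9, 11, 12, 6, 8, 10]),
   (false, 86, [0, 1, 2, 3, 4, 5, 6, 7, 8, 9, 11, 10]),
   (false, 259, [0, 1, 2, 3, 4, 5, 7, 9, 10, 11, 12, 6, 8]),
   (false, 87, [0, 1, 2, 3, 4, 5, 6, 7, 8, 9, 10, 11])],
  [(false, 198, [4, 1, 0, 6, 2, 3, 11, 12, 5, 7, 8, 9, 10]),
   (false, 181, [0, 1, 2, 3, 4, 5, 11, 12, 6, 7, 8, 9, 10]),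
   (false, 190, [11, 2, 1, 0, 3, 7, 4, 5, 12, 6, 8, 9, 10]),
   (false, 205, [11, 3, 2, 1, 7, 8, 0, 4, 5, 12, 9, 6, 10]),
   (false, 198, [0, 1, 4, 5, 2, 3, 11, 12, 6, 7, 8, 9, 10]),
   (false, 87, [0, 1, 2, 3, 4, 5, 6, 7, 11, 8, 9, 10]),
   (false, 87, [4, 1, 2, 3, 0, 6, 5, 7, 11, 8, 9, 10]),
   (false, 215, [11, 7, 3, 2, 8, 9, 1, 0, 4, 5, 12, 10, 6]),
   (false, 260, [0, 1, 2, 3, 4, 5, 7, 8, 9, 11, 12, 6, 10]),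
   (false, 286, [0, 1, 2, 3, 4, 5, 7, 8, 9, 10, 11, 12, 6]),
   (false, 88, [0, 1, 2, 3, 4, 5, 6, 7, 8, 9, 10, 11])],
  [(false, 86, [0, 1, 2, 3, 4, 5, 11, 6, 7, 8, 9, 10]),
   (false, 184, [0, 1, 2, 3, 4, 5, 11, 12, 6, 7, 8, 9, 10]),
   (false, 193, [11, 2, 1, 0, 3, 6, 4, 5, 12, 8, 7, 10, 9]),
   (false, 208, [11, 3, 2, 1, 6, 8, 0, 4, 5, 12, 10, 7, 9]),
   (false, 195, [11, 4, 1, 0, 5, 7, 2, 3, 12, 9, 6, 8, 10]),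
   (false, 211, [7, 5, 4, 1, 11, 12, 0, 2, 3, 9, 6, 8, 10]),
   (false, 219, [8, 6, 3, 2, 11, 12, 1, 0, 4, 5, 10, 7, 9]),
   (false, 221, [0, 1, 4, 5, 2, 3, 7, 9, 11, 12, 6, 8, 10]),
   (false, 263, [0, 1, 2, 3, 4, 5, 6, 8, 10, 11, 12, 7, 9]),
   (false, 89, [0, 1, 2, 3, 4, 5, 6, 7, 8, 9, 10, 11]),
   (false, 90, [0, 1, 2, 3, 4, 5, 6, 7, 8, 9, 10, 11])],
  [(false, 87, [0, 1, 2, 3, 4, 5, 11, 6, 7, 8, 9, 10]),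
   (false, 185, [0, 1, 2, 3, 4, 5, 11, 12, 6, 7, 8, 9, 10]),
   (false, 194, [11, 2, 1, 0, 3, 6, 4, 5, 12, 8, 7, 9, 10]),
   (false, 207, [11, 3, 2, 1, 6, 8, 0, 4, 5, 12, 9, 7, 10]),
   (false, 199, [5, 4, 1, 0, 11, 12, 2, 3, 7, 6, 8, 9, 10]),
   (false, 214, [0, 1, 4, 5, 2, 3, 7, 11, 12, 6, 8, 9, 10]),
   (false, 216, [11, 6, 3, 2, 8, 9, 1, 0, 4, 5, 12, 10, 7]),
   (false, 90, [0, 1, 2, 3, 4, 5, 6, 7, 8, 11, 9, 10]),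
   (false, 261, [9, 8, 6, 3, 11, 12, 2, 1, 0, 4, 5, 10, 7]),
   (false, 287, [0, 1, 2, 3, 4, 5, 6, 8, 9, 10, 11, 12, 7]),
   (false, 91, [0, 1, 2, 3, 4, 5, 6, 7, 8, 9, 10, 11])],
  [(false, 88, [0, 1, 2, 3, 4, 5, 11, 6, 7, 8, 9, 10]),
   (false, 186, [0, 1, 2, 3, 4, 5, 11, 12, 6, 7, 8, 9, 10]),
   (false, 198, [11, 2, 1, 0, 3, 6, 4, 5, 12, 7, 8, 9, 10]),
   (false, 210, [11, 3, 2, 1, 6, 7, 0, 4, 5, 12, 8, 9, 10]),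
   (false, 202, [0, 1, 4, 5, 2, 3, 11, 12, 6, 7, 8, 9, 10]),
   (false, 91, [0, 1, 2, 3, 4, 5, 6, 11, 7, 8, 9, 10]),
   (false, 218, [11, 6, 3, 2, 7, 8, 1, 0, 4, 5, 12, 9, 10]),
   (false, 259, [11, 7, 6, 3, 8, 9, 2, 1, 0, 4, 5, 12, 10]),
   (false, 286, [9, 8, 7, 6, 11, 12, 3, 2, 1, 0, 4, 5, 10]),
   (false, 320, [0, 1, 2, 3, 4, 5, 6, 7, 8, 9, 10, 11, 12]),
   (false, 92, [0, 1, 2, 3, 4, 5, 6, 7, 8, 9, 10, 11])],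
  [(false, 229, [6, 1, 0, 8, 2, 3, 4, 5, 11, 12, 7, 9, 10]),
   (false, 222, [0, 1, 2, 3, 4, 5, 6, 7, 11, 12, 8, 9, 10]),
   (false, 227, [0, 1, 2, 3, 4, 5, 6, 7, 11, 12, 8, 9, 10]),
   (false, 264, [0, 1, 2, 3, 4, 5, 6, 7, 9, 11, 12, 8, 10]),
   (false, 227, [0, 1, 4, 5, 2, 3, 6, 7, 11, 12, 8, 10, 9]),
   (false, 264, [0, 1, 4, 5, 2, 3, 6, 7, 10, 11, 12, 8, 9]),
   (false, 229, [0, 1, 6, 7, 2, 3, 4, 5, 11, 12, 8, 9, 10]),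
   (false, 93, [0, 1, 2, 3, 4, 5, 6, 7, 8, 9, 10, 11]),
   (false, 93, [6, 1, 0, 8, 2, 3, 4, 5, 7, 11, 9, 10]),
   (false, 94, [0, 1, 2, 3, 4, 5, 6, 7, 8, 9, 10, 11]),
   (false, 94, [0, 1, 4, 5, 2, 3, 6, 7, 8, 10, 9, 11])],
  [(false, 231, [4, 1, 0, 8, 2, 3, 6, 7, 11, 12, 5, 9, 10]),
   (false, 223, [0, 1, 2, 3, 4, 5, 6, 7, 11, 12, 8, 9, 10]),
   (false, 228, [0, 1, 2, 11, 4, 5, 6, 7, 3, 9, 8, 12, 10]),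
   (false, 265, [0, 1, 2, 3, 4, 5, 6, 7, 9, 11, 12, 8, 10]),
   (false, 231, [0, 1, 4, 5, 2, 3, 6, 7, 11, 12, 8, 9, 10]),
   (false, 94, [0, 1, 2, 3, 4, 5, 6, 7, 8, 9, 11, 10]),
   (false, 231, [0, 1, 6, 7, 2, 3, 4, 5, 11, 12, 8, 9, 10]),
   (false, 94, [0, 1, 2, 3, 6, 7, 4, 5, 8, 9, 11, 10]),
   (false, 94, [4, 1, 2, 3, 0, 8, 6, 7, 5, 9, 11, 10]),
   (false, 288, [0, 1, 2, 3, 4, 5, 6, 7, 9, 10, 11, 12, 8]),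
   (false, 95, [0, 1, 2, 3, 4, 5, 6, 7, 8, 9, 10, 11])],
  [(false, 93, [0, 1, 2, 3, 4, 5, 6, 7, 11, 8, 9, 10]),
   (false, 224, [0, 1, 2, 3, 4, 5, 6, 7, 11, 12, 8, 9, 10]),
   (false, 233, [0, 1, 2, 3, 4, 5, 6, 7, 11, 12, 8, 9, 10]),
   (false, 267, [0, 1, 2, 3, 4, 5, 6, 7, 8, 11, 12, 9, 10]),
   (false, 233, [0, 1, 4, 5, 2, 3, 6, 7, 11, 12, 9, 8, 10]),
   (false, 267, [0, 1, 4, 5, 2, 3, 6, 7, 9, 11, 12, 8, 10]),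
   (false, 233, [0, 1, 6, 7, 2, 3, 4, 5, 11, 12, 10, 8, 9]),
   (false, 267, [0, 1, 6, 7, 2, 3, 4, 5, 10, 11, 12, 8, 9]),
   (false, 96, [0, 1, 2, 3, 4, 5, 6, 7, 8, 9, 10, 11]),
   (false, 96, [0, 1, 4, 5, 2, 3, 6, 7, 9, 8, 10, 11]),
   (false, 96, [0, 1, 6, 7, 2, 3, 4, 5, 10, 8, 9, 11])],
  [(false, 94, [0, 1, 2, 3, 4, 5, 6, 7, 11, 8, 9, 10]),
   (false, 225, [0, 1, 2, 3, 4, 5, 6, 7, 11, 12, 8, 9, 10]),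
   (false, 234, [0, 1, 2, 11, 4, 5, 6, 7, 3, 8, 12, 9, 10]),
   (false, 268, [0, 1, 2, 3, 4, 5, 6, 7, 8, 11, 12, 9, 10]),
   (false, 235, [0, 1, 4, 5, 2, 3, 6, 7, 11, 12, 9, 8, 10]),
   (false, 270, [0, 1, 4, 5, 2, 3, 6, 7, 9, 11, 12, 8, 10]),
   (false, 239, [0, 1, 6, 7, 2, 3, 4, 5, 11, 12, 8, 9, 10]),
   (false, 96, [0, 1, 2, 3, 4, 5, 6, 7, 8, 9, 11, 10]),
   (false, 289, [0, 1, 2, 3, 4, 5, 6, 7, 8, 10, 11, 12, 9]),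
   (false, 97, [0, 1, 2, 3, 4, 5, 6, 7, 8, 9, 10, 11]),
   (false, 98, [0, 1, 2, 3, 4, 5, 6, 7, 8, 9, 10, 11])],
  [(false, 95, [0, 1, 2, 3, 4, 5, 6, 7, 11, 8, 9, 10]),
   (false, 226, [0, 1, 2, 3, 4, 5, 6, 7, 11, 12, 8, 9, 10]),
   (false, 237, [0, 1, 2, 11, 4, 5, 6, 7, 3, 8, 12, 9, 10]),
   (false, 271, [0, 1, 2, 3, 4, 5, 6, 7, 11, 8, 9, 12, 10]),
   (false, 242, [0, 1, 4, 5, 2, 3, 6, 7, 11, 12, 8, 9, 10]),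
   (false, 98, [0, 1, 2, 3, 4, 5, 6, 7, 8, 11, 9, 10]),
   (false, 242, [0, 1, 6, 7, 2, 3, 4, 5, 11, 12, 8, 9, 10]),
   (false, 98, [0, 1, 2, 3, 6, 7, 4, 5, 8, 11, 9, 10]),
   (false, 290, [0, 1, 2, 3, 4, 5, 6, 7, 8, 9, 11, 12, 10]),
   (false, 321, [0, 1, 2, 3, 4, 5, 6, 7, 8, 9, 10, 11, 12]),
   (false, 99, [0, 1, 2, 3, 4, 5, 6, 7, 8, 9, 10, 11])],
  [(false, 247, [4, 1, 2, 3, 0, 8, 6, 7, 11, 12, 5, 9, 10]),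
   (false, 227, [0, 1, 2, 3, 4, 5, 11, 12, 6, 7, 8, 9, 10]),
   (false, 228, [3, 2, 1, 0, 6, 7, 11, 12, 4, 5, 9, 8, 10]),
   (false, 245, [6, 2, 1, 0, 3, 9, 4, 5, 11, 12, 7, 8, 10]),
   (false, 244, [0, 1, 2, 3, 4, 5, 6, 7, 11, 12, 8, 9, 10]),
   (false, 273, [0, 1, 2, 3, 4, 5, 6, 7, 10, 11, 12, 8, 9]),
   (false, 245, [3, 2, 1, 0, 6, 7, 4, 5, 11, 12, 9, 8, 10]),
   (false, 100, [0, 1, 2, 3, 4, 5, 6, 7, 8, 9, 10, 11]),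
   (false, 101, [0, 1, 2, 3, 4, 5, 6, 7, 8, 9, 10, 11]),
   (false, 100, [0, 1, 2, 6, 4, 5, 3, 9, 8, 7, 10, 11]),
   (false, 102, [0, 1, 2, 3, 4, 5, 6, 7, 8, 9, 10, 11])],
  [(false, 249, [4, 1, 2, 3, 0, 8, 6, 7, 11, 12, 5, 10, 9]),
   (false, 230, [0, 1, 2, 3, 4, 5, 11, 12, 6, 7, 8, 9, 10]),
   (false, 234, [3, 2, 1, 0, 6, 7, 11, 12, 4, 5, 8, 10, 9]),
   (false, 100, [0, 1, 2, 3, 4, 5, 6, 7, 8, 11, 9, 10]),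
   (false, 246, [0, 1, 4, 5, 2, 3, 11, 12, 6, 7, 8, 9, 10]),
   (false, 274, [0, 1, 2, 3, 4, 5, 6, 7, 9, 11, 12, 8, 10]),
   (false, 252, [3, 2, 1, 0, 6, 7, 4, 5, 11, 12, 8, 10, 9]),
   (false, 278, [3, 2, 1, 0, 6, 7, 4, 5, 10, 11, 12, 8, 9]),
   (false, 103, [0, 1, 2, 3, 4, 5, 6, 7, 8, 9, 10, 11]),
   (false, 104, [0, 1, 2, 3, 4, 5, 6, 7, 8, 9, 10, 11]),
   (false, 105, [0, 1, 2, 3, 4, 5, 6, 7, 8, 9, 10, 11])],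
  [(false, 247, [4, 1, 0, 8, 2, 3, 11, 12, 6, 7, 5, 10, 9]),
   (false, 229, [11, 1, 2, 3, 0, 8, 4, 5, 6, 7, 12, 10, 9]),
   (false, 236, [3, 2, 1, 0, 6, 7, 11, 12, 4, 5, 8, 9, 10]),
   (false, 101, [0, 1, 2, 3, 4, 5, 6, 7, 8, 11, 9, 10]),
   (false, 247, [0, 1, 4, 5, 2, 3, 11, 12, 6, 7, 8, 9, 10]),
   (false, 277, [0, 1, 2, 3, 4, 5, 6, 7, 9, 11, 12, 8, 10]),
   (false, 254, [3, 2, 1, 0, 6, 7, 4, 5, 11, 12, 8, 9, 10]),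
   (false, 103, [0, 1, 2, 3, 4, 5, 6, 7, 8, 9, 11, 10]),
   (false, 277, [4, 1, 2, 3, 0, 8, 6, 7, 10, 11, 12, 5, 9]),
   (false, 106, [0, 1, 2, 3, 4, 5, 6, 7, 8, 9, 10, 11]),
   (false, 106, [4, 1, 2, 3, 0, 8, 6, 7, 5, 10, 9, 11])],
  [(false, 251, [4, 1, 0, 8, 2, 3, 11, 12, 6, 7, 5, 9, 10]),
   (false, 231, [0, 1, 2, 3, 4, 5, 11, 12, 6, 7, 8, 9, 10]),
   (false, 237, [3, 2, 1, 0, 6, 7, 11, 12, 4, 5, 8, 9, 10]),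
   (false, 102, [0, 1, 2, 3, 4, 5, 6, 7, 8, 11, 9, 10]),
   (false, 245, [0, 1, 4, 11, 2, 3, 5, 9, 6, 7, 8, 12, 10]),
   (false, 275, [0, 1, 2, 3, 4, 5, 6, 7, 9, 11, 12, 8, 10]),
   (false, 255, [3, 2, 1, 0, 6, 7, 4, 5, 11, 12, 8, 9, 10]),
   (false, 104, [0, 1, 2, 3, 4, 5, 6, 7, 8, 9, 11, 10]),
   (false, 106, [0, 1, 2, 3, 4, 5, 6, 7, 8, 9, 11, 10]),
   (false, 292, [0, 1, 2, 3, 4, 5, 6, 7, 9, 10, 11, 12, 8]),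
   (false, 107, [0, 1, 2, 3, 4, 5, 6, 7, 8, 9, 10, 11])],
  [(false, 250, [4, 1, 2, 3, 0, 8, 6, 7, 11, 12, 5, 9, 10]),
   (false, 232, [0, 1, 2, 3, 4, 5, 11, 12, 6, 7, 8, 9, 10]),
   (false, 235, [3, 2, 1, 0, 6, 7, 11, 12, 4, 5, 8, 9, 10]),
   (false, 102, [3, 2, 1, 0, 6, 7, 4, 5, 11, 8, 9, 10]),
   (false, 250, [0, 1, 2, 3, 4, 5, 6, 7, 11, 12, 8, 9, 10]),
   (false, 105, [0, 1, 2, 3, 4, 5, 6, 7, 8, 11, 9, 10]),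
   (false, 252, [3, 2, 6, 11, 1, 0, 7, 9, 4, 5, 12, 8, 10]),
   (false, 279, [3, 2, 1, 0, 6, 7, 4, 5, 9, 11, 12, 8, 10]),
   (false, 105, [4, 1, 2, 3, 0, 8, 6, 7, 5, 11, 9, 10]),
   (false, 293, [3, 2, 1, 0, 6, 7, 4, 5, 9, 10, 11, 12, 8]),
   (false, 108, [0, 1, 2, 3, 4, 5, 6, 7, 8, 9, 10, 11])],
  [(false, 104, [0, 1, 2, 3, 4, 5, 6, 7, 11, 8, 9, 10]),
   (false, 240, [0, 1, 2, 3, 4, 5, 11, 12, 6, 7, 8, 9, 10]),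
   (false, 241, [3, 2, 1, 0, 6, 7, 11, 12, 4, 5, 9, 8, 10]),
   (false, 105, [3, 2, 1, 0, 6, 7, 4, 5, 11, 9, 8, 10]),
   (false, 253, [0, 1, 4, 11, 2, 3, 5, 8, 6, 7, 12, 10, 9]),
   (false, 281, [0, 1, 2, 3, 4, 5, 6, 7, 8, 11, 12, 9, 10]),
   (false, 256, [3, 2, 6, 7, 1, 0, 11, 12, 4, 5, 9, 8, 10]),
   (false, 283, [3, 2, 1, 0, 6, 7, 4, 5, 9, 11, 12, 8, 10]),
   (false, 294, [0, 1, 2, 3, 4, 5, 6, 7, 8, 10, 11, 12, 9]),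
   (false, 109, [0, 1, 2, 3, 4, 5, 6, 7, 8, 9, 10, 11]),
   (false, 110, [0, 1, 2, 3, 4, 5, 6, 7, 8, 9, 10, 11])],
  [(false, 107, [0, 1, 2, 3, 4, 5, 6, 7, 11, 8, 9, 10]),
   (false, 242, [0, 1, 2, 3, 4, 5, 11, 12, 6, 7, 8, 9, 10]),
   (false, 243, [3, 2, 1, 0, 6, 7, 11, 12, 4, 5, 8, 9, 10]),
   (false, 108, [3, 2, 1, 0, 6, 7, 4, 5, 11, 8, 9, 10]),
   (false, 255, [0, 1, 4, 11, 2, 3, 5, 8, 6, 7, 12, 9, 10]),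
   (false, 284, [0, 1, 2, 3, 4, 5, 6, 7, 11, 8, 9, 12, 10]),
   (false, 258, [3, 2, 1, 0, 6, 7, 4, 5, 11, 12, 8, 9, 10]),
   (false, 110, [0, 1, 2, 3, 4, 5, 6, 7, 8, 11, 9, 10]),
   (false, 295, [0, 1, 2, 3, 4, 5, 6, 7, 8, 9, 11, 12, 10]),
   (false, 322, [0, 1, 2, 3, 4, 5, 6, 7, 8, 9, 10, 11, 12]),
   (false, 111, [0, 1, 2, 3, 4, 5, 6, 7, 8, 9, 10, 11])],
  [(false, 277, [4, 1, 0, 9, 2, 3, 11, 12, 6, 7, 8, 5, 10]),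
   (false, 264, [0, 1, 2, 3, 4, 5, 11, 12, 6, 7, 8, 9, 10]),
   (false, 245, [11, 2, 1, 0, 3, 6, 4, 5, 7, 8, 12, 9, 10]),
   (false, 271, [6, 3, 2, 1, 7, 8, 11, 12, 0, 4, 5, 9, 10]),
   (false, 273, [0, 1, 4, 5, 2, 3, 11, 12, 6, 7, 8, 9, 10]),
   (false, 297, [0, 1, 2, 3, 4, 5, 6, 7, 8, 10, 11, 12, 9]),
   (false, 112, [0, 1, 2, 3, 4, 5, 6, 7, 8, 9, 10, 11]),
   (false, 284, [6, 3, 7, 8, 2, 1, 11, 12, 0, 4, 5, 9, 10]),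
   (false, 113, [0, 1, 2, 3, 4, 5, 6, 7, 8, 9, 10, 11]),
   (false, 114, [0, 1, 2, 3, 4, 5, 6, 7, 8, 9, 10, 11]),
   (false, 115, [0, 1, 2, 3, 4, 5, 6, 7, 8, 9, 10, 11])],
  [(false, 275, [4, 1, 0, 9, 2, 3, 11, 12, 6, 7, 8, 5, 10]),
   (false, 265, [0, 1, 2, 3, 4, 5, 11, 12, 6, 7, 8, 9, 10]),
   (false, 244, [11, 2, 1, 0, 3, 6, 4, 5, 7, 8, 12, 9, 10]),
   (false, 265, [6, 3, 2, 1, 7, 8, 11, 12, 0, 4, 5, 10, 9]),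
   (false, 275, [0, 1, 4, 5, 2, 3, 11, 12, 6, 7, 8, 9, 10]),
   (false, 112, [0, 1, 2, 3, 4, 5, 6, 7, 8, 9, 11, 10]),
   (false, 275, [7, 3, 6, 10, 2, 1, 11, 12, 0, 4, 5, 8, 9]),
   (false, 275, [6, 3, 7, 8, 2, 1, 11, 12, 0, 4, 5, 10, 9]),
   (false, 112, [6, 3, 2, 1, 7, 8, 0, 4, 5, 10, 11, 9]),
   (false, 112, [4, 1, 2, 3, 0, 9, 6, 7, 8, 5, 11, 10]),
   (false, 112, [7, 3, 2, 1, 6, 10, 0, 4, 5, 8, 11, 9])],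
  [(false, 276, [4, 1, 0, 9, 2, 3, 11, 12, 6, 7, 8, 5, 10]),
   (false, 266, [0, 1, 2, 3, 4, 5, 11, 12, 6, 7, 8, 9, 10]),
   (false, 246, [11, 2, 1, 0, 3, 6, 4, 5, 7, 8, 12, 9, 10]),
   (false, 268, [6, 3, 2, 1, 7, 8, 11, 12, 0, 4, 5, 10, 9]),
   (false, 276, [0, 1, 4, 5, 2, 3, 11, 12, 6, 7, 8, 9, 10]),
   (false, 113, [0, 1, 2, 3, 4, 5, 6, 7, 8, 9, 11, 10]),
   (false, 112, [6, 3, 2, 1, 7, 8, 0, 4, 5, 11, 10, 9]),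
   (false, 279, [6, 3, 7, 8, 2, 1, 11, 12, 0, 4, 5, 10, 9]),
   (false, 298, [6, 3, 2, 1, 7, 8, 0, 4, 5, 10, 11, 12, 9]),
   (false, 113, [4, 1, 2, 3, 0, 9, 6, 7, 8, 5, 11, 10]),
   (false, 116, [0, 1, 2, 3, 4, 5, 6, 7, 8, 9, 10, 11])],
  [(false, 113, [0, 1, 2, 3, 4, 5, 6, 7, 8, 11, 9, 10]),
   (false, 269, [0, 1, 2, 3, 4, 5, 11, 12, 6, 7, 8, 9, 10]),
   (false, 248, [11, 2, 1, 0, 3, 6, 4, 5, 7, 8, 12, 9, 10]),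
   (false, 269, [6, 3, 2, 1, 7, 8, 11, 12, 0, 4, 5, 10, 9]),
   (false, 280, [0, 1, 4, 5, 2, 3, 11, 12, 6, 7, 8, 9, 10]),
   (false, 299, [0, 1, 2, 3, 4, 5, 6, 7, 8, 9, 11, 12, 10]),
   (false, 113, [6, 3, 2, 1, 7, 8, 0, 4, 5, 11, 10, 9]),
   (false, 280, [6, 3, 7, 8, 2, 1, 11, 12, 0, 4, 5, 10, 9]),
   (false, 299, [6, 3, 2, 1, 7, 8, 0, 4, 5, 10, 11, 12, 9]),
   (false, 117, [0, 1, 2, 3, 4, 5, 6, 7, 8, 9, 10, 11]),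
   (false, 117, [6, 3, 2, 1, 7, 8, 0, 4, 5, 10, 9, 11])],
  [(false, 115, [0, 1, 2, 3, 4, 5, 6, 7, 8, 11, 9, 10]),
   (false, 270, [0, 1, 2, 3, 4, 5, 11, 12, 6, 7, 8, 9, 10]),
   (false, 250, [11, 2, 1, 0, 3, 6, 4, 5, 7, 8, 12, 9, 10]),
   (false, 272, [6, 3, 2, 1, 7, 8, 11, 12, 0, 4, 5, 9, 10]),
   (false, 278, [0, 1, 4, 11, 2, 3, 5, 9, 6, 7, 8, 12, 10]),
   (false, 298, [0, 1, 4, 5, 2, 3, 9, 11, 12, 6, 7, 8, 10]),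
   (false, 116, [6, 3, 2, 1, 7, 8, 0, 4, 5, 11, 9, 10]),
   (false, 285, [6, 3, 7, 8, 2, 1, 11, 12, 0, 4, 5, 9, 10]),
   (false, 117, [0, 1, 2, 3, 4, 5, 6, 7, 8, 9, 11, 10]),
   (false, 323, [0, 1, 2, 3, 4, 5, 6, 7, 8, 9, 10, 11, 12]),
   (false, 118, [0, 1, 2, 3, 4, 5, 6, 7, 8, 9, 10, 11])],
  [(false, 292, [4, 1, 0, 10, 2, 3, 11, 12, 6, 7, 8, 9, 5]),
   (false, 288, [0, 1, 2, 3, 4, 5, 11, 12, 6, 7, 8, 9, 10]),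
   (false, 273, [11, 2, 1, 0, 3, 6, 4, 5, 7, 8, 9, 12, 10]),
   (false, 275, [11, 3, 6, 7, 2, 1, 8, 9, 0, 4, 5, 12, 10]),
   (false, 292, [0, 1, 4, 5, 2, 3, 11, 12, 6, 7, 8, 9, 10]),
   (false, 119, [0, 1, 2, 3, 4, 5, 6, 7, 8, 9, 10, 11]),
   (false, 290, [7, 6, 3, 2, 8, 9, 11, 12, 1, 0, 4, 5, 10]),
   (false, 120, [0, 1, 2, 3, 4, 5, 6, 7, 8, 9, 10, 11]),
   (false, 295, [7, 6, 8, 9, 3, 2, 11, 12, 1, 0, 4, 5, 10]),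
   (false, 121, [0, 1, 2, 3, 4, 5, 6, 7, 8, 9, 10, 11]),
   (false, 119, [4, 1, 2, 3, 0, 10, 6, 7, 8, 9, 5, 11])],
  [(false, 119, [0, 1, 2, 3, 4, 5, 6, 7, 8, 9, 11, 10]),
   (false, 289, [0, 1, 2, 3, 4, 5, 11, 12, 6, 7, 8, 9, 10]),
   (false, 274, [11, 2, 1, 0, 3, 6, 4, 5, 7, 8, 9, 12, 10]),
   (false, 276, [11, 3, 6, 7, 2, 1, 8, 9, 0, 4, 5, 12, 10]),
   (false, 293, [0, 1, 4, 5, 2, 3, 11, 12, 6, 7, 8, 9, 10]),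
   (false, 323, [0, 1, 4, 5, 2, 3, 10, 11, 12, 6, 7, 8, 9]),
   (false, 291, [7, 6, 3, 2, 8, 9, 11, 12, 1, 0, 4, 5, 10]),
   (false, 121, [7, 6, 3, 2, 8, 9, 1, 0, 4, 5, 11, 10]),
   (false, 296, [7, 6, 8, 9, 3, 2, 11, 12, 1, 0, 4, 5, 10]),
   (false, 122, [0, 1, 2, 3, 4, 5, 6, 7, 8, 9, 10, 11]),
   (false, 123, [0, 1, 2, 3, 4, 5, 6, 7, 8, 9, 10, 11])],
  [(false, 302, [2, 1, 0, 10, 4, 5, 6, 7, 8, 9, 11, 12, 3]),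
   (false, 300, [0, 1, 2, 3, 4, 5, 6, 7, 8, 9, 11, 12, 10]),
   (false, 302, [0, 1, 2, 3, 4, 5, 6, 7, 8, 9, 11, 12, 10]),
   (false, 124, [0, 1, 2, 3, 4, 5, 6, 7, 8, 9, 10, 11]),
   (false, 302, [0, 1, 4, 5, 2, 3, 6, 7, 8, 9, 11, 12, 10]),
   (false, 124, [0, 1, 4, 5, 2, 3, 6, 7, 8, 9, 10, 11]),
   (false, 302, [0, 1, 6, 7, 2, 3, 4, 5, 8, 9, 11, 12, 10]),
   (false, 124, [0, 1, 6, 7, 2, 3, 4, 5, 8, 9, 10, 11]),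
   (false, 302, [0, 1, 8, 9, 2, 3, 4, 5, 6, 7, 11, 12, 10]),
   (false, 124, [0, 1, 8, 9, 2, 3, 4, 5, 6, 7, 10, 11]),
   (false, 124, [2, 1, 0, 10, 4, 5, 6, 7, 8, 9, 3, 11])],
  [(false, 124, [0, 1, 2, 3, 4, 5, 6, 7, 8, 9, 11, 10]),
   (false, 301, [0, 1, 2, 3, 4, 5, 6, 7, 8, 9, 11, 12, 10]),
   (false, 303, [0, 1, 2, 3, 4, 5, 6, 7, 8, 9, 11, 12, 10]),
   (false, 324, [0, 1, 2, 3, 4, 5, 6, 7, 8, 9, 10, 11, 12]),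
   (false, 304, [0, 1, 4, 5, 2, 3, 6, 7, 8, 9, 11, 12, 10]),
   (false, 125, [0, 1, 2, 3, 4, 5, 6, 7, 8, 9, 10, 11]),
   (false, 304, [0, 1, 6, 7, 2, 3, 4, 5, 8, 9, 11, 12, 10]),
   (false, 125, [0, 1, 2, 3, 6, 7, 4, 5, 8, 9, 10, 11]),
   (false, 304, [0, 1, 8, 9, 2, 3, 4, 5, 6, 7, 11, 12, 10]),
   (false, 125, [0, 1, 2, 3, 8, 9, 4, 5, 6, 7, 10, 11]),
   (false, 126, [0, 1, 2, 3, 4, 5, 6, 7, 8, 9, 10, 11])],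
  [(false, 308, [4, 1, 0, 10, 2, 3, 6, 7, 11, 12, 8, 9, 5]),
   (false, 302, [0, 1, 2, 3, 4, 5, 6, 7, 11, 12, 8, 9, 10]),
   (false, 306, [0, 1, 2, 3, 4, 5, 6, 7, 8, 9, 11, 12, 10]),
   (false, 127, [0, 1, 2, 3, 4, 5, 6, 7, 8, 9, 10, 11]),
   (false, 308, [0, 1, 2, 3, 4, 5, 6, 7, 8, 9, 11, 12, 10]),
   (false, 128, [0, 1, 2, 3, 4, 5, 6, 7, 8, 9, 10, 11]),
   (false, 308, [0, 1, 2, 3, 6, 7, 4, 5, 8, 9, 11, 12, 10]),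
   (false, 128, [0, 1, 2, 3, 6, 7, 4, 5, 8, 9, 10, 11]),
   (false, 312, [0, 1, 2, 3, 4, 5, 6, 7, 8, 9, 11, 12, 10]),
   (false, 129, [0, 1, 2, 3, 4, 5, 6, 7, 8, 9, 10, 11]),
   (false, 128, [4, 1, 2, 3, 0, 10, 6, 7, 8, 9, 5, 11])],
  [(false, 127, [0, 1, 2, 3, 4, 5, 6, 7, 8, 9, 11, 10]),
   (false, 303, [0, 1, 2, 3, 4, 5, 6, 7, 11, 12, 8, 9, 10]),
   (false, 306, [3, 2, 1, 0, 8, 9, 11, 12, 4, 5, 6, 7, 10]),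
   (false, 313, [0, 1, 2, 8, 4, 5, 6, 7, 3, 10, 11, 12, 9]),
   (false, 309, [0, 1, 2, 3, 4, 5, 6, 7, 8, 9, 11, 12, 10]),
   (false, 130, [0, 1, 2, 3, 4, 5, 6, 7, 8, 9, 10, 11]),
   (false, 309, [0, 1, 2, 3, 6, 7, 4, 5, 8, 9, 11, 12, 10]),
   (false, 130, [0, 1, 2, 3, 6, 7, 4, 5, 8, 9, 10, 11]),
   (false, 313, [0, 1, 2, 3, 4, 5, 6, 7, 8, 9, 11, 12, 10]),
   (false, 131, [0, 1, 2, 3, 4, 5, 6, 7, 8, 9, 10, 11]),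
   (false, 131, [0, 1, 2, 8, 4, 5, 6, 7, 3, 10, 9, 11])],
  [(false, 128, [0, 1, 2, 3, 4, 5, 6, 7, 8, 9, 11, 10]),
   (false, 304, [0, 1, 2, 3, 4, 5, 6, 7, 11, 12, 8, 9, 10]),
   (false, 307, [0, 1, 2, 3, 4, 5, 6, 7, 8, 9, 11, 12, 10]),
   (false, 130, [0, 1, 2, 3, 4, 5, 6, 7, 8, 9, 11, 10]),
   (false, 309, [0, 1, 4, 5, 2, 3, 6, 7, 11, 12, 8, 9, 10]),
   (false, 325, [0, 1, 2, 3, 4, 5, 6, 7, 8, 9, 10, 11, 12]),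
   (false, 310, [0, 1, 2, 3, 6, 7, 4, 5, 8, 9, 11, 12, 10]),
   (false, 132, [0, 1, 2, 3, 4, 5, 6, 7, 8, 9, 10, 11]),
   (false, 314, [0, 1, 2, 3, 4, 5, 6, 7, 8, 9, 11, 12, 10]),
   (false, 133, [0, 1, 2, 3, 4, 5, 6, 7, 8, 9, 10, 11]),
   (false, 134, [0, 1, 2, 3, 4, 5, 6, 7, 8, 9, 10, 11])],
  [(false, 129, [0, 1, 2, 3, 4, 5, 6, 7, 8, 9, 11, 10]),
   (false, 305, [0, 1, 2, 3, 4, 5, 6, 7, 11, 12, 8, 9, 10]),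
   (false, 307, [3, 2, 1, 0, 8, 9, 11, 12, 4, 5, 6, 7, 10]),
   (false, 131, [0, 1, 2, 3, 4, 5, 6, 7, 8, 9, 11, 10]),
   (false, 311, [0, 1, 2, 3, 4, 5, 6, 7, 8, 9, 11, 12, 10]),
   (false, 133, [0, 1, 2, 3, 4, 5, 6, 7, 8, 9, 11, 10]),
   (false, 311, [0, 1, 2, 3, 6, 7, 4, 5, 8, 9, 11, 12, 10]),
   (false, 133, [0, 1, 2, 3, 6, 7, 4, 5, 8, 9, 11, 10]),
   (false, 315, [0, 1, 2, 3, 4, 5, 6, 7, 8, 9, 11, 12, 10]),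
   (false, 326, [0, 1, 2, 3, 4, 5, 6, 7, 8, 9, 10, 11, 12]),
   (false, 135, [0, 1, 2, 3, 4, 5, 6, 7, 8, 9, 10, 11])],
  [(false, 327, [0, 1, 2, 3, 4, 5, 6, 7, 8, 9, 10, 11, 12]),
   (false, 308, [0, 1, 2, 3, 4, 5, 11, 12, 6, 7, 8, 9, 10]),
   (false, 313, [3, 2, 1, 0, 6, 7, 11, 12, 4, 5, 8, 9, 10]),
   (false, 136, [0, 1, 2, 3, 4, 5, 6, 7, 8, 9, 10, 11]),
   (false, 313, [5, 4, 1, 0, 8, 9, 11, 12, 2, 3, 6, 7, 10]),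
   (false, 136, [0, 1, 4, 5, 2, 3, 8, 9, 6, 7, 10, 11]),
   (false, 317, [0, 1, 2, 3, 4, 5, 6, 7, 8, 9, 11, 12, 10]),
   (false, 137, [0, 1, 2, 3, 4, 5, 6, 7, 8, 9, 10, 11]),
   (false, 317, [0, 1, 4, 5, 2, 3, 8, 9, 6, 7, 11, 12, 10]),
   (false, 137, [0, 1, 4, 5, 2, 3, 8, 9, 6, 7, 10, 11]),
   (false, 138, [0, 1, 2, 3, 4, 5, 6, 7, 8, 9, 10, 11])],
  [(false, 136, [0, 1, 2, 3, 4, 5, 6, 7, 8, 9, 11, 10]),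
   (false, 309, [0, 1, 2, 3, 4, 5, 11, 12, 6, 7, 8, 9, 10]),
   (false, 312, [3, 2, 1, 0, 6, 7, 11, 12, 4, 5, 8, 9, 10]),
   (false, 317, [6, 2, 1, 0, 3, 10, 4, 5, 11, 12, 8, 9, 7]),
   (false, 315, [5, 4, 1, 0, 8, 9, 11, 12, 2, 3, 6, 7, 10]),
   (false, 139, [0, 1, 2, 3, 4, 5, 6, 7, 8, 9, 10, 11]),
   (false, 317, [3, 2, 1, 0, 6, 7, 4, 5, 11, 12, 8, 9, 10]),
   (false, 140, [0, 1, 2, 3, 4, 5, 6, 7, 8, 9, 10, 11]),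
   (false, 318, [0, 1, 4, 5, 2, 3, 8, 9, 6, 7, 11, 12, 10]),
   (false, 141, [0, 1, 2, 3, 4, 5, 6, 7, 8, 9, 10, 11]),
   (false, 140, [0, 1, 2, 6, 4, 5, 3, 10, 8, 9, 7, 11])],
  [(false, 137, [0, 1, 2, 3, 4, 5, 6, 7, 8, 9, 11, 10]),
   (false, 311, [0, 1, 2, 3, 4, 5, 11, 12, 6, 7, 8, 9, 10]),
   (false, 314, [3, 2, 1, 0, 6, 7, 11, 12, 4, 5, 8, 9, 10]),
   (false, 140, [0, 1, 2, 3, 4, 5, 6, 7, 8, 9, 11, 10]),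
   (false, 316, [5, 4, 1, 0, 8, 9, 11, 12, 2, 3, 6, 7, 10]),
   (false, 141, [0, 1, 4, 5, 2, 3, 8, 9, 6, 7, 11, 10]),
   (false, 318, [3, 2, 1, 0, 6, 7, 4, 5, 11, 12, 8, 9, 10]),
   (false, 328, [0, 1, 2, 3, 4, 5, 6, 7, 8, 9, 10, 11, 12]),
   (false, 319, [0, 1, 4, 5, 2, 3, 8, 9, 6, 7, 11, 12, 10]),
   (false, 142, [0, 1, 2, 3, 4, 5, 6, 7, 8, 9, 10, 11]),
   (false, 143, [0, 1, 2, 3, 4, 5, 6, 7, 8, 9, 10, 11])],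
  [(false, 144, [0, 1, 2, 3, 4, 5, 6, 7, 8, 9, 10, 11]),
   (false, 321, [0, 1, 2, 3, 4, 5, 11, 12, 6, 7, 8, 9, 10]),
   (false, 292, [11, 2, 1, 0, 3, 6, 4, 5, 7, 8, 9, 10, 12]),
   (false, 297, [11, 3, 2, 1, 6, 7, 0, 4, 5, 8, 9, 10, 12]),
   (false, 322, [0, 1, 4, 5, 2, 3, 11, 12, 6, 7, 8, 9, 10]),
   (false, 145, [0, 1, 2, 3, 4, 5, 6, 7, 8, 9, 10, 11]),
   (false, 292, [11, 6, 7, 8, 3, 2, 9, 10, 1, 0, 4, 5, 12]),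
   (false, 321, [8, 7, 6, 3, 9, 10, 11, 12, 2, 1, 0, 4, 5]),
   (false, 144, [8, 7, 6, 3, 9, 10, 2, 1, 0, 4, 5, 11]),
   (false, 322, [8, 7, 9, 10, 6, 3, 11, 12, 2, 1, 0, 4, 5]),
   (false, 145, [8, 7, 6, 3, 9, 10, 2, 1, 0, 4, 5, 11])],
  [(false, 146, [0, 1, 2, 3, 4, 5, 6, 7, 8, 9, 10, 11]),
   (false, 324, [0, 1, 2, 3, 4, 5, 6, 7, 11, 12, 8, 9, 10]),
   (false, 313, [0, 1, 2, 11, 4, 5, 6, 7, 3, 8, 9, 10, 12]),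
   (false, 329, [0, 1, 2, 3, 4, 5, 6, 7, 8, 9, 10, 11, 12]),
   (false, 325, [0, 1, 4, 5, 2, 3, 6, 7, 11, 12, 8, 9, 10]),
   (false, 147, [0, 1, 2, 3, 4, 5, 6, 7, 8, 9, 10, 11]),
   (false, 325, [0, 1, 6, 7, 2, 3, 4, 5, 11, 12, 8, 9, 10]),
   (false, 147, [0, 1, 2, 3, 6, 7, 4, 5, 8, 9, 10, 11]),
   (false, 148, [0, 1, 2, 3, 4, 5, 6, 7, 8, 9, 10, 11]),
   (false, 330, [0, 1, 2, 3, 4, 5, 6, 7, 8, 9, 10, 11, 12]),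
   (false, 149, [0, 1, 2, 3, 4, 5, 6, 7, 8, 9, 10, 11])],
  [(false, 150, [0, 1, 2, 3, 4, 5, 6, 7, 8, 9, 10, 11]),
   (false, 325, [0, 1, 2, 3, 4, 5, 11, 12, 6, 7, 8, 9, 10]),
   (false, 326, [3, 2, 1, 0, 6, 7, 11, 12, 4, 5, 8, 9, 10]),
   (false, 151, [0, 1, 2, 3, 4, 5, 6, 7, 8, 9, 10, 11]),
   (false, 317, [11, 4, 1, 0, 5, 8, 2, 3, 9, 10, 6, 7, 12]),
   (false, 330, [8, 5, 4, 1, 9, 10, 11, 12, 0, 2, 3, 6, 7]),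
   (false, 328, [3, 2, 1, 0, 6, 7, 4, 5, 11, 12, 8, 9, 10]),
   (false, 152, [0, 1, 2, 3, 4, 5, 6, 7, 8, 9, 10, 11]),
   (false, 153, [0, 1, 2, 3, 4, 5, 6, 7, 8, 9, 10, 11]),
   (false, 331, [0, 1, 2, 3, 4, 5, 6, 7, 8, 9, 10, 11, 12]),
   (false, 154, [0, 1, 2, 3, 4, 5, 6, 7, 8, 9, 10, 11])],
  [(false, 0, []),
   (false, 0, []),
   (false, 0, []),
   (false, 0, []),
   (false, 0, []),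
   (false, 0, []),
   (false, 0, []),
   (false, 0, []),
   (false, 0, []),
   (false, 0, []),
   (false, 165, [0, 1, 2, 3, 4, 5, 6, 7, 8, 9, 10, 11, 12]),
   (false, 165, [1, 2, 3, 5, 0, 7, 4, 9, 6, 11, 8, 12, 10])]]

theorem rows13_2 : rowsB L13 [] (some 13) L13_2 cert13_2 = true := by
  decide +kernel

end Pool.Agent.SA27
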