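import Pool.Agent.SA27.L13

set_option autoImplicit false

/-! Certificates, part 3. -/

namespace Pool.Agent.SA27

/-- Certificates. -/
def cert13_3 : List (List (Bool × ℕ × List ℕ)) := [
  [(false, 0, []),
   (false, 0, []),
   (false, 0, []),
   (false, 0, []),
   (false, 0, []),
   (false, 0, []),
   (false, 0, []),
   (false, 0, []),
   (false, 0, []),
   (false, 166, [0, 1, 2, 3, 4, 5, 6, 7, 8, 9, 10, 11, 12]),
   (false, 167, [0, 1, 2, 3, 4, 5, 6, 7, 8, 9, 10, 11, 12]),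
   (false, 167, [0, 1, 4, 5, 2, 3, 6, 8, 7, 9, 11, 10, 12])],
  [(false, 0, []),
   (false, 0, []),
   (false, 0, []),
   (false, 0, []),
   (false, 0, []),
   (false, 0, []),
   (false, 0, []),
   (false, 0, []),
   (false, 167, [0, 1, 2, 3, 4, 5, 6, 7, 8, 9, 10, 12, 11]),
   (false, 167, [4, 1, 2, 3, 0, 6, 5, 7, 9, 8, 10, 12, 11]),
   (false, 0, []),
   (false, 168, [0, 1, 2, 3, 4, 5, 6, 7, 8, 9, 10, 11, 12])],
  [(false, 0, []),
   (false, 0, []),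
   (false, 0, []),
   (false, 0, []),
   (false, 0, []),
   (false, 0, []),
   (false, 167, [0, 1, 2, 3, 4, 5, 6, 7, 8, 12, 9, 10, 11]),
   (false, 0, []),
   (false, 0, []),
   (false, 0, []),
   (false, 169, [0, 1, 2, 3, 4, 5, 6, 7, 8, 9, 10, 11, 12]),
   (false, 170, [0, 1, 2, 3, 4, 5, 6, 7, 8, 9, 10, 11, 12])],
  [(false, 0, []),
   (false, 0, []),
   (false, 0, []),
   (false, 0, []),
   (false, 0, []),
   (false, 0, []),
   (false, 168, [0, 1, 2, 3, 4, 5, 6, 7, 8, 12, 9, 10, 11]),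
   (false, 0, []),
   (false, 170, [0, 1, 2, 3, 4, 5, 6, 7, 8, 9, 12, 10, 11]),
   (false, 0, []),
   (false, 0, []),
   (false, 171, [0, 1, 2, 3, 4, 5, 6, 7, 8, 9, 10, 11, 12])],
  [(false, 0, []),
   (false, 0, []),
   (false, 0, []),
   (false, 0, []),
   (false, 0, []),
   (false, 171, [0, 1, 2, 3, 4, 5, 6, 7, 12, 8, 9, 10, 11]),
   (false, 171, [4, 1, 2, 3, 0, 6, 5, 7, 12, 8, 9, 10, 11]),
   (false, 0, []),
   (false, 0, []),
   (false, 0, []),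
   (false, 0, []),
   (false, 172, [0, 1, 2, 3, 4, 5, 6, 7, 8, 9, 10, 11, 12])],
  [(false, 169, [0, 1, 2, 3, 4, 5, 12, 6, 7, 8, 9, 10, 11]),
   (false, 0, []),
   (false, 0, []),
   (false, 0, []),
   (false, 0, []),
   (false, 0, []),
   (false, 0, []),
   (false, 0, []),
   (false, 0, []),
   (false, 0, []),
   (false, 173, [0, 1, 2, 3, 4, 5, 6, 7, 8, 9, 10, 11, 12]),
   (false, 173, [0, 1, 4, 5, 2, 3, 7, 6, 9, 8, 11, 10, 12])],
  [(false, 170, [0, 1, 2, 3, 4, 5, 12, 6, 7, 8, 9, 10, 11]),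
   (false, 0, []),
   (false, 0, []),
   (false, 0, []),
   (false, 0, []),
   (false, 0, []),
   (false, 0, []),
   (false, 0, []),
   (false, 0, []),
   (false, 173, [0, 1, 2, 3, 4, 5, 6, 7, 8, 9, 10, 12, 11]),
   (false, 0, []),
   (false, 174, [0, 1, 2, 3, 4, 5, 6, 7, 8, 9, 10, 11, 12])],
  [(false, 171, [0, 1, 2, 3, 4, 5, 12, 6, 7, 8, 9, 10, 11]),
   (false, 0, []),
   (false, 0, []),
   (false, 0, []),
   (false, 0, []),
   (false, 0, []),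
   (false, 0, []),
   (false, 174, [0, 1, 2, 3, 4, 5, 6, 7, 8, 12, 9, 10, 11]),
   (false, 0, []),
   (false, 0, []),
   (false, 0, []),
   (false, 175, [0, 1, 2, 3, 4, 5, 6, 7, 8, 9, 10, 11, 12])],
  [(false, 172, [0, 1, 2, 3, 4, 5, 12, 6, 7, 8, 9, 10, 11]),
   (false, 0, []),
   (false, 0, []),
   (false, 0, []),
   (false, 0, []),
   (false, 175, [0, 1, 2, 3, 4, 5, 6, 12, 7, 8, 9, 10, 11]),
   (false, 0, []),
   (false, 0, []),
   (false, 0, []),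
   (false, 0, []),
   (false, 0, []),
   (false, 176, [0, 1, 2, 3, 4, 5, 6, 7, 8, 9, 10, 11, 12])],
  [(false, 0, []),
   (false, 0, []),
   (false, 0, []),
   (false, 0, []),
   (false, 0, []),
   (false, 0, []),
   (false, 0, []),
   (false, 0, []),
   (false, 177, [0, 1, 2, 3, 4, 5, 6, 7, 8, 9, 10, 11, 12]),
   (false, 178, [0, 1, 2, 3, 4, 5, 6, 7, 8, 9, 10, 11, 12]),
   (false, 178, [0, 1, 4, 5, 2, 3, 6, 7, 8, 10, 9, 11, 12]),
   (false, 178, [0, 1, 6, 7, 2, 3, 4, 5, 8, 11, 9, 10, 12])],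
  [(false, 0, []),
   (false, 0, []),
   (false, 0, []),
   (false, 0, []),
   (false, 0, []),
   (false, 0, []),
   (false, 0, []),
   (false, 178, [0, 1, 2, 3, 4, 5, 6, 7, 8, 9, 10, 12, 11]),
   (false, 178, [6, 1, 2, 3, 0, 8, 4, 5, 7, 9, 12, 10, 11]),
   (false, 0, []),
   (false, 179, [0, 1, 2, 3, 4, 5, 6, 7, 8, 9, 10, 11, 12]),
   (false, 180, [0, 1, 2, 3, 4, 5, 6, 7, 8, 9, 10, 11, 12])],
  [(false, 0, []),
   (false, 0, []),
   (false, 0, []),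
   (false, 0, []),
   (false, 0, []),
   (false, 180, [0, 1, 2, 3, 4, 5, 6, 7, 8, 9, 12, 10, 11]),
   (false, 0, []),
   (false, 180, [0, 1, 2, 3, 6, 7, 4, 5, 8, 9, 12, 10, 11]),
   (false, 180, [4, 1, 2, 3, 0, 8, 6, 7, 5, 9, 12, 10, 11]),
   (false, 0, []),
   (false, 0, []),
   (false, 181, [0, 1, 2, 3, 4, 5, 6, 7, 8, 9, 10, 11, 12])],
  [(false, 178, [0, 1, 2, 3, 4, 5, 6, 7, 12, 8, 9, 10, 11]),
   (false, 0, []),
   (false, 0, []),
   (false, 0, []),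
   (false, 0, []),
   (false, 0, []),
   (false, 0, []),
   (false, 0, []),
   (false, 0, []),
   (false, 182, [0, 1, 2, 3, 4, 5, 6, 7, 8, 9, 10, 11, 12]),
   (false, 182, [0, 1, 2, 3, 6, 7, 4, 5, 8, 10, 9, 11, 12]),
   (false, 183, [0, 1, 2, 3, 4, 5, 6, 7, 8, 9, 10, 11, 12])],
  [(false, 179, [0, 1, 2, 3, 4, 5, 6, 7, 12, 8, 9, 10, 11]),
   (false, 0, []),
   (false, 0, []),
   (false, 0, []),
   (false, 0, []),
   (false, 0, []),
   (false, 0, []),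
   (false, 182, [0, 1, 2, 3, 4, 5, 6, 7, 8, 9, 12, 10, 11]),
   (false, 0, []),
   (false, 0, []),
   (false, 184, [0, 1, 2, 3, 4, 5, 6, 7, 8, 9, 10, 11, 12]),
   (false, 184, [0, 1, 4, 5, 2, 3, 6, 7, 9, 8, 11, 10, 12])],
  [(false, 180, [0, 1, 2, 3, 4, 5, 6, 7, 12, 8, 9, 10, 11]),
   (false, 0, []),
   (false, 0, []),
   (false, 0, []),
   (false, 0, []),
   (false, 0, []),
   (false, 0, []),
   (false, 183, [0, 1, 2, 3, 4, 5, 6, 7, 8, 9, 12, 10, 11]),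
   (false, 0, []),
   (false, 184, [0, 1, 2, 3, 4, 5, 6, 7, 8, 9, 10, 12, 11]),
   (false, 0, []),
   (false, 185, [0, 1, 2, 3, 4, 5, 6, 7, 8, 9, 10, 11, 12])],
  [(false, 181, [0, 1, 2, 3, 4, 5, 6, 7, 12, 8, 9, 10, 11]),
   (false, 0, []),
   (false, 0, []),
   (false, 0, []),
   (false, 0, []),
   (false, 185, [0, 1, 2, 3, 4, 5, 6, 7, 8, 12, 9, 10, 11]),
   (false, 0, []),
   (false, 185, [0, 1, 2, 3, 6, 7, 4, 5, 8, 12, 9, 10, 11]),
   (false, 0, []),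
   (false, 0, []),
   (false, 0, []),
   (false, 186, [0, 1, 2, 3, 4, 5, 6, 7, 8, 9, 10, 11, 12])],
  [(false, 0, []),
   (false, 0, []),
   (false, 0, []),
   (false, 0, []),
   (false, 0, []),
   (false, 0, []),
   (false, 0, []),
   (false, 0, []),
   (false, 187, [0, 1, 2, 3, 4, 5, 6, 7, 8, 9, 10, 11, 12]),
   (false, 187, [3, 2, 1, 0, 6, 7, 4, 5, 9, 8, 11, 10, 12]),
   (false, 188, [0, 1, 2, 3, 4, 5, 6, 7, 8, 9, 10, 11, 12]),
   (false, 188, [3, 2, 1, 0, 6, 7, 4, 5, 9, 8, 11, 10, 12])],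
  [(false, 0, []),
   (false, 0, []),
   (false, 0, []),
   (false, 0, []),
   (false, 0, []),
   (false, 0, []),
   (false, 0, []),
   (false, 187, [0, 1, 2, 3, 4, 5, 6, 7, 8, 9, 10, 12, 11]),
   (false, 0, []),
   (false, 187, [0, 1, 2, 6, 4, 5, 3, 9, 8, 7, 10, 12, 11]),
   (false, 189, [0, 1, 2, 3, 4, 5, 6, 7, 8, 9, 10, 11, 12]),
   (false, 189, [4, 1, 2, 3, 0, 8, 6, 7, 5, 9, 11, 10, 12])],
  [(false, 0, []),
   (false, 0, []),
   (false, 0, []),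
   (false, 0, []),
   (false, 0, []),
   (false, 0, []),
   (false, 0, []),
   (false, 188, [0, 1, 2, 3, 4, 5, 6, 7, 8, 9, 10, 12, 11]),
   (false, 189, [0, 1, 2, 3, 4, 5, 6, 7, 8, 9, 10, 12, 11]),
   (false, 188, [0, 1, 2, 6, 4, 5, 3, 9, 8, 7, 10, 12, 11]),
   (false, 0, []),
   (false, 190, [0, 1, 2, 3, 4, 5, 6, 7, 8, 9, 10, 11, 12])],
  [(false, 0, []),
   (false, 0, []),
   (false, 0, []),
   (false, 187, [0, 1, 2, 3, 4, 5, 6, 7, 8, 12, 9, 10, 11]),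
   (false, 0, []),
   (false, 0, []),
   (false, 0, []),
   (false, 0, []),
   (false, 0, []),
   (false, 191, [0, 1, 2, 3, 4, 5, 6, 7, 8, 9, 10, 11, 12]),
   (false, 192, [0, 1, 2, 3, 4, 5, 6, 7, 8, 9, 10, 11, 12]),
   (false, 191, [4, 1, 2, 3, 0, 8, 6, 7, 5, 11, 10, 9, 12])],
  [(false, 0, []),
   (false, 0, []),
   (false, 0, []),
   (false, 188, [0, 1, 2, 3, 4, 5, 6, 7, 8, 12, 9, 10, 11]),
   (false, 0, []),
   (false, 0, []),
   (false, 0, []),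
   (false, 0, []),
   (false, 191, [0, 1, 2, 3, 4, 5, 6, 7, 8, 9, 10, 12, 11]),
   (false, 0, []),
   (false, 193, [0, 1, 2, 3, 4, 5, 6, 7, 8, 9, 10, 11, 12]),
   (false, 194, [0, 1, 2, 3, 4, 5, 6, 7, 8, 9, 10, 11, 12])],
  [(false, 0, []),
   (false, 0, []),
   (false, 0, []),
   (false, 188, [3, 2, 1, 0, 6, 7, 4, 5, 12, 8, 10, 9, 11]),
   (false, 0, []),
   (false, 0, []),
   (false, 0, []),
   (false, 0, []),
   (false, 192, [0, 1, 2, 3, 4, 5, 6, 7, 8, 9, 10, 12, 11]),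
   (false, 193, [0, 1, 2, 3, 4, 5, 6, 7, 8, 9, 10, 12, 11]),
   (false, 0, []),
   (false, 195, [0, 1, 2, 3, 4, 5, 6, 7, 8, 9, 10, 11, 12])],
  [(false, 0, []),
   (false, 0, []),
   (false, 0, []),
   (false, 189, [0, 1, 2, 3, 4, 5, 6, 7, 8, 12, 9, 10, 11]),
   (false, 0, []),
   (false, 0, []),
   (false, 0, []),
   (false, 191, [0, 1, 2, 3, 4, 5, 6, 7, 8, 9, 12, 10, 11]),
   (false, 0, []),
   (false, 0, []),
   (false, 196, [0, 1, 2, 3, 4, 5, 6, 7, 8, 9, 10, 11, 12]),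
   (false, 197, [0, 1, 2, 3, 4, 5, 6, 7, 8, 9, 10, 11, 12])],
  [(false, 0, []),
   (false, 0, []),
   (false, 0, []),
   (false, 190, [0, 1, 2, 3, 4, 5, 6, 7, 8, 12, 9, 10, 11]),
   (false, 0, []),
   (false, 0, []),
   (false, 0, []),
   (false, 194, [0, 1, 2, 3, 4, 5, 6, 7, 8, 9, 12, 10, 11]),
   (false, 197, [0, 1, 2, 3, 4, 5, 6, 7, 8, 9, 12, 10, 11]),
   (false, 0, []),
   (false, 0, []),
   (false, 198, [0, 1, 2, 3, 4, 5, 6, 7, 8, 9, 10, 11, 12])],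
  [(false, 0, []),
   (false, 0, []),
   (false, 0, []),
   (false, 190, [3, 2, 1, 0, 6, 7, 4, 5, 12, 8, 9, 10, 11]),
   (false, 0, []),
   (false, 195, [0, 1, 2, 3, 4, 5, 6, 7, 8, 12, 9, 10, 11]),
   (false, 0, []),
   (false, 0, []),
   (false, 195, [4, 1, 2, 3, 0, 8, 6, 7, 5, 12, 9, 10, 11]),
   (false, 0, []),
   (false, 0, []),
   (false, 199, [0, 1, 2, 3, 4, 5, 6, 7, 8, 9, 10, 11, 12])],
  [(false, 193, [0, 1, 2, 3, 4, 5, 6, 7, 12, 8, 9, 10, 11]),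
   (false, 0, []),
   (false, 0, []),
   (false, 193, [3, 2, 1, 0, 6, 7, 4, 5, 12, 9, 8, 11, 10]),
   (false, 0, []),
   (false, 0, []),
   (false, 0, []),
   (false, 0, []),
   (false, 0, []),
   (false, 0, []),
   (false, 200, [0, 1, 2, 3, 4, 5, 6, 7, 8, 9, 10, 11, 12]),
   (false, 200, [3, 2, 1, 0, 6, 7, 4, 5, 9, 8, 11, 10, 12])],
  [(false, 194, [0, 1, 2, 3, 4, 5, 6, 7, 12, 8, 9, 10, 11]),
   (false, 0, []),
   (false, 0, []),
   (false, 195, [3, 2, 1, 0, 6, 7, 4, 5, 12, 9, 8, 10, 11]),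
   (false, 0, []),
   (false, 0, []),
   (false, 0, []),
   (false, 0, []),
   (false, 0, []),
   (false, 200, [0, 1, 2, 3, 4, 5, 6, 7, 8, 9, 10, 12, 11]),
   (false, 0, []),
   (false, 201, [0, 1, 2, 3, 4, 5, 6, 7, 8, 9, 10, 11, 12])],
  [(false, 198, [0, 1, 2, 3, 4, 5, 6, 7, 12, 8, 9, 10, 11]),
   (false, 0, []),
   (false, 0, []),
   (false, 199, [3, 2, 1, 0, 6, 7, 4, 5, 12, 8, 9, 10, 11]),
   (false, 0, []),
   (false, 0, []),
   (false, 0, []),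
   (false, 201, [0, 1, 2, 3, 4, 5, 6, 7, 8, 12, 9, 10, 11]),
   (false, 0, []),
   (false, 0, []),
   (false, 0, []),
   (false, 202, [0, 1, 2, 3, 4, 5, 6, 7, 8, 9, 10, 11, 12])],
  [(false, 0, []),
   (false, 0, []),
   (false, 0, []),
   (false, 0, []),
   (false, 0, []),
   (false, 0, []),
   (false, 0, []),
   (false, 0, []),
   (false, 203, [0, 1, 2, 3, 4, 5, 6, 7, 8, 9, 10, 11, 12]),
   (false, 204, [0, 1, 2, 3, 4, 5, 6, 7, 8, 9, 10, 11, 12]),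
   (false, 205, [0, 1, 2, 3, 4, 5, 6, 7, 8, 9, 10, 11, 12]),
   (false, 203, [0, 1, 2, 3, 4, 5, 7, 6, 11, 9, 10, 8, 12])],
  [(false, 0, []),
   (false, 0, []),
   (false, 0, []),
   (false, 0, []),
   (false, 0, []),
   (false, 0, []),
   (false, 203, [0, 1, 2, 3, 4, 5, 6, 7, 8, 9, 10, 12, 11]),
   (false, 0, []),
   (false, 0, []),
   (false, 206, [0, 1, 2, 3, 4, 5, 6, 7, 8, 9, 10, 11, 12]),
   (false, 207, [0, 1, 2, 3, 4, 5, 6, 7, 8, 9, 10, 11, 12]),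
   (false, 208, [0, 1, 2, 3, 4, 5, 6, 7, 8, 9, 10, 11, 12])],
  [(false, 0, []),
   (false, 0, []),
   (false, 0, []),
   (false, 0, []),
   (false, 0, []),
   (false, 0, []),
   (false, 204, [0, 1, 2, 3, 4, 5, 6, 7, 8, 9, 10, 12, 11]),
   (false, 0, []),
   (false, 206, [0, 1, 2, 3, 4, 5, 6, 7, 8, 9, 10, 12, 11]),
   (false, 0, []),
   (false, 209, [0, 1, 2, 3, 4, 5, 6, 7, 8, 9, 10, 11, 12]),
   (false, 209, [4, 1, 2, 3, 0, 9, 6, 7, 8, 5, 11, 10, 12])],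
  [(false, 0, []),
   (false, 0, []),
   (false, 0, []),
   (false, 0, []),
   (false, 0, []),
   (false, 0, []),
   (false, 205, [0, 1, 2, 3, 4, 5, 6, 7, 8, 9, 10, 12, 11]),
   (false, 0, []),
   (false, 207, [0, 1, 2, 3, 4, 5, 6, 7, 8, 9, 10, 12, 11]),
   (false, 209, [0, 1, 2, 3, 4, 5, 6, 7, 8, 9, 10, 12, 11]),
   (false, 0, []),
   (false, 210, [0, 1, 2, 3, 4, 5, 6, 7, 8, 9, 10, 11, 12])],
  [(false, 0, []),
   (false, 0, []),
   (false, 0, []),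
   (false, 0, []),
   (false, 0, []),
   (false, 208, [0, 1, 2, 3, 4, 5, 6, 7, 8, 9, 12, 10, 11]),
   (false, 205, [6, 3, 2, 1, 7, 8, 0, 4, 5, 12, 10, 9, 11]),
   (false, 0, []),
   (false, 0, []),
   (false, 208, [4, 1, 2, 3, 0, 9, 6, 7, 8, 5, 12, 10, 11]),
   (false, 0, []),
   (false, 211, [0, 1, 2, 3, 4, 5, 6, 7, 8, 9, 10, 11, 12])],
  [(false, 207, [0, 1, 2, 3, 4, 5, 6, 7, 8, 12, 9, 10, 11]),
   (false, 0, []),
   (false, 0, []),
   (false, 0, []),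
   (false, 0, []),
   (false, 0, []),
   (false, 208, [6, 3, 2, 1, 7, 8, 0, 4, 5, 12, 10, 9, 11]),
   (false, 0, []),
   (false, 0, []),
   (false, 0, []),
   (false, 212, [0, 1, 2, 3, 4, 5, 6, 7, 8, 9, 10, 11, 12]),
   (false, 213, [0, 1, 2, 3, 4, 5, 6, 7, 8, 9, 10, 11, 12])],
  [(false, 210, [0, 1, 2, 3, 4, 5, 6, 7, 8, 12, 9, 10, 11]),
   (false, 0, []),
   (false, 0, []),
   (false, 0, []),
   (false, 0, []),
   (false, 0, []),
   (false, 211, [6, 3, 2, 1, 7, 8, 0, 4, 5, 12, 9, 10, 11]),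
   (false, 0, []),
   (false, 213, [0, 1, 2, 3, 4, 5, 6, 7, 8, 9, 12, 10, 11]),
   (false, 0, []),
   (false, 0, []),
   (false, 214, [0, 1, 2, 3, 4, 5, 6, 7, 8, 9, 10, 11, 12])],
  [(false, 0, []),
   (false, 0, []),
   (false, 0, []),
   (false, 0, []),
   (false, 0, []),
   (false, 0, []),
   (false, 0, []),
   (false, 215, [0, 1, 2, 3, 4, 5, 6, 7, 8, 9, 10, 11, 12]),
   (false, 0, []),
   (false, 216, [0, 1, 2, 3, 4, 5, 6, 7, 8, 9, 10, 11, 12]),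
   (false, 217, [0, 1, 2, 3, 4, 5, 6, 7, 8, 9, 10, 11, 12]),
   (false, 218, [0, 1, 2, 3, 4, 5, 6, 7, 8, 9, 10, 11, 12])],
  [(false, 0, []),
   (false, 0, []),
   (false, 0, []),
   (false, 0, []),
   (false, 0, []),
   (false, 215, [0, 1, 2, 3, 4, 5, 6, 7, 8, 9, 10, 12, 11]),
   (false, 0, []),
   (false, 0, []),
   (false, 0, []),
   (false, 215, [7, 6, 3, 2, 8, 9, 1, 0, 4, 5, 11, 12, 10]),
   (false, 215, [4, 1, 2, 3, 0, 10, 6, 7, 8, 9, 5, 12, 11]),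
   (false, 215, [8, 6, 3, 2, 7, 11, 1, 0, 4, 5, 9, 12, 10])],
  [(false, 0, []),
   (false, 0, []),
   (false, 0, []),
   (false, 0, []),
   (false, 0, []),
   (false, 216, [0, 1, 2, 3, 4, 5, 6, 7, 8, 9, 10, 12, 11]),
   (false, 0, []),
   (false, 215, [7, 6, 3, 2, 8, 9, 1, 0, 4, 5, 12, 11, 10]),
   (false, 0, []),
   (false, 0, []),
   (false, 216, [4, 1, 2, 3, 0, 10, 6, 7, 8, 9, 5, 12, 11]),
   (false, 219, [0, 1, 2, 3, 4, 5, 6, 7, 8, 9, 10, 11, 12])],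
  [(false, 216, [0, 1, 2, 3, 4, 5, 6, 7, 8, 9, 12, 10, 11]),
   (false, 0, []),
   (false, 0, []),
   (false, 0, []),
   (false, 0, []),
   (false, 0, []),
   (false, 0, []),
   (false, 216, [7, 6, 3, 2, 8, 9, 1, 0, 4, 5, 12, 11, 10]),
   (false, 0, []),
   (false, 0, []),
   (false, 220, [0, 1, 2, 3, 4, 5, 6, 7, 8, 9, 10, 11, 12]),
   (false, 220, [7, 6, 3, 2, 8, 9, 1, 0, 4, 5, 11, 10, 12])],
  [(false, 218, [0, 1, 2, 3, 4, 5, 6, 7, 8, 9, 12, 10, 11]),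
   (false, 0, []),
   (false, 0, []),
   (false, 0, []),
   (false, 0, []),
   (false, 0, []),
   (false, 0, []),
   (false, 219, [7, 6, 3, 2, 8, 9, 1, 0, 4, 5, 12, 10, 11]),
   (false, 0, []),
   (false, 220, [0, 1, 2, 3, 4, 5, 6, 7, 8, 9, 10, 12, 11]),
   (false, 0, []),
   (false, 221, [0, 1, 2, 3, 4, 5, 6, 7, 8, 9, 10, 11, 12])],
  [(false, 0, []),
   (false, 0, []),
   (false, 0, []),
   (false, 0, []),
   (false, 0, []),
   (false, 222, [0, 1, 2, 3, 4, 5, 6, 7, 8, 9, 10, 11, 12]),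
   (false, 0, []),
   (false, 222, [0, 1, 2, 3, 6, 7, 4, 5, 8, 9, 10, 11, 12]),
   (false, 0, []),
   (false, 222, [0, 1, 2, 3, 8, 9, 4, 5, 6, 7, 10, 11, 12]),
   (false, 222, [4, 1, 0, 10, 2, 3, 6, 7, 8, 9, 5, 12, 11]),
   (false, 223, [0, 1, 2, 3, 4, 5, 6, 7, 8, 9, 10, 11, 12])]]

theorem rows13_3 : rowsB L13 [] (some 13) L13_3 cert13_3 = true := by
  decide +kernel

end Pool.Agent.SA27
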