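import Pool.Agent.SA27.L13

set_option autoImplicit false

/-! Certificates, part 4. -/

namespace Pool.Agent.SA27

/-- Certificates. -/
def cert13_4 : List (List (Bool × ℕ × List ℕ)) := [
  [(false, 222, [0, 1, 2, 3, 4, 5, 6, 7, 8, 9, 12, 10, 11]),
   (false, 0, []),
   (false, 0, []),
   (false, 0, []),
   (false, 0, []),
   (false, 0, []),
   (false, 0, []),
   (false, 224, [0, 1, 2, 3, 4, 5, 6, 7, 8, 9, 10, 11, 12]),
   (false, 0, []),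
   (false, 224, [0, 1, 2, 3, 4, 5, 8, 9, 6, 7, 10, 11, 12]),
   (false, 225, [0, 1, 2, 3, 4, 5, 6, 7, 8, 9, 10, 11, 12]),
   (false, 225, [0, 1, 4, 5, 2, 3, 6, 7, 8, 9, 11, 10, 12])],
  [(false, 223, [0, 1, 2, 3, 4, 5, 6, 7, 8, 9, 12, 10, 11]),
   (false, 0, []),
   (false, 0, []),
   (false, 0, []),
   (false, 0, []),
   (false, 225, [0, 1, 2, 3, 4, 5, 6, 7, 8, 9, 10, 12, 11]),
   (false, 0, []),
   (false, 225, [0, 1, 2, 3, 6, 7, 4, 5, 8, 9, 10, 12, 11]),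
   (false, 0, []),
   (false, 225, [0, 1, 2, 3, 8, 9, 4, 5, 6, 7, 10, 12, 11]),
   (false, 0, []),
   (false, 226, [0, 1, 2, 3, 4, 5, 6, 7, 8, 9, 10, 11, 12])],
  [(false, 0, []),
   (false, 0, []),
   (false, 0, []),
   (false, 0, []),
   (false, 0, []),
   (false, 227, [0, 1, 2, 3, 4, 5, 6, 7, 8, 9, 10, 11, 12]),
   (false, 0, []),
   (false, 227, [0, 1, 2, 3, 6, 7, 4, 5, 8, 9, 10, 11, 12]),
   (false, 0, []),
   (false, 228, [0, 1, 2, 3, 4, 5, 6, 7, 8, 9, 10, 11, 12]),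
   (false, 227, [4, 1, 2, 3, 0, 10, 6, 7, 8, 9, 5, 11, 12]),
   (false, 228, [0, 1, 2, 8, 4, 5, 6, 7, 3, 11, 10, 9, 12])],
  [(false, 0, []),
   (false, 0, []),
   (false, 0, []),
   (false, 227, [0, 1, 2, 3, 4, 5, 6, 7, 8, 9, 10, 12, 11]),
   (false, 0, []),
   (false, 0, []),
   (false, 0, []),
   (false, 229, [0, 1, 2, 3, 4, 5, 6, 7, 8, 9, 10, 11, 12]),
   (false, 0, []),
   (false, 230, [0, 1, 2, 3, 4, 5, 6, 7, 8, 9, 10, 11, 12]),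
   (false, 229, [6, 1, 2, 3, 0, 10, 4, 5, 8, 9, 7, 12, 11]),
   (false, 231, [0, 1, 2, 3, 4, 5, 6, 7, 8, 9, 10, 11, 12])],
  [(false, 0, []),
   (false, 0, []),
   (false, 0, []),
   (false, 228, [0, 1, 2, 3, 4, 5, 6, 7, 8, 9, 10, 12, 11]),
   (false, 0, []),
   (false, 230, [0, 1, 2, 3, 4, 5, 6, 7, 8, 9, 10, 12, 11]),
   (false, 0, []),
   (false, 230, [0, 1, 2, 3, 6, 7, 4, 5, 8, 9, 10, 12, 11]),
   (false, 0, []),
   (false, 0, []),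
   (false, 230, [4, 1, 2, 3, 0, 10, 6, 7, 8, 9, 5, 12, 11]),
   (false, 232, [0, 1, 2, 3, 4, 5, 6, 7, 8, 9, 10, 11, 12])],
  [(false, 227, [0, 1, 2, 3, 4, 5, 6, 7, 8, 9, 12, 10, 11]),
   (false, 0, []),
   (false, 0, []),
   (false, 0, []),
   (false, 0, []),
   (false, 0, []),
   (false, 0, []),
   (false, 233, [0, 1, 2, 3, 4, 5, 6, 7, 8, 9, 10, 11, 12]),
   (false, 0, []),
   (false, 234, [0, 1, 2, 3, 4, 5, 6, 7, 8, 9, 10, 11, 12]),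
   (false, 234, [0, 1, 2, 8, 4, 5, 6, 7, 3, 10, 9, 11, 12]),
   (false, 235, [0, 1, 2, 3, 4, 5, 6, 7, 8, 9, 10, 11, 12])],
  [(false, 228, [0, 1, 2, 3, 4, 5, 6, 7, 8, 9, 12, 10, 11]),
   (false, 0, []),
   (false, 0, []),
   (false, 0, []),
   (false, 0, []),
   (false, 234, [0, 1, 2, 3, 4, 5, 6, 7, 8, 9, 10, 12, 11]),
   (false, 0, []),
   (false, 234, [0, 1, 2, 3, 6, 7, 4, 5, 8, 9, 10, 12, 11]),
   (false, 0, []),
   (false, 0, []),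
   (false, 236, [0, 1, 2, 3, 4, 5, 6, 7, 8, 9, 10, 11, 12]),
   (false, 237, [0, 1, 2, 3, 4, 5, 6, 7, 8, 9, 10, 11, 12])],
  [(false, 229, [0, 1, 2, 3, 4, 5, 6, 7, 8, 9, 12, 10, 11]),
   (false, 0, []),
   (false, 0, []),
   (false, 233, [0, 1, 2, 3, 4, 5, 6, 7, 8, 9, 12, 10, 11]),
   (false, 0, []),
   (false, 0, []),
   (false, 0, []),
   (false, 0, []),
   (false, 0, []),
   (false, 238, [0, 1, 2, 3, 4, 5, 6, 7, 8, 9, 10, 11, 12]),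
   (false, 239, [0, 1, 2, 3, 4, 5, 6, 7, 8, 9, 10, 11, 12]),
   (false, 239, [0, 1, 2, 3, 6, 7, 4, 5, 8, 9, 11, 10, 12])],
  [(false, 230, [0, 1, 2, 3, 4, 5, 6, 7, 8, 9, 12, 10, 11]),
   (false, 0, []),
   (false, 0, []),
   (false, 234, [0, 1, 2, 3, 4, 5, 6, 7, 8, 9, 12, 10, 11]),
   (false, 0, []),
   (false, 0, []),
   (false, 0, []),
   (false, 238, [0, 1, 2, 3, 4, 5, 6, 7, 8, 9, 10, 12, 11]),
   (false, 0, []),
   (false, 0, []),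
   (false, 240, [0, 1, 2, 3, 4, 5, 6, 7, 8, 9, 10, 11, 12]),
   (false, 241, [0, 1, 2, 3, 4, 5, 6, 7, 8, 9, 10, 11, 12])],
  [(false, 231, [0, 1, 2, 3, 4, 5, 6, 7, 8, 9, 12, 10, 11]),
   (false, 0, []),
   (false, 0, []),
   (false, 235, [0, 1, 2, 3, 4, 5, 6, 7, 8, 9, 12, 10, 11]),
   (false, 0, []),
   (false, 0, []),
   (false, 0, []),
   (false, 239, [0, 1, 2, 3, 4, 5, 6, 7, 8, 9, 10, 12, 11]),
   (false, 0, []),
   (false, 240, [0, 1, 2, 3, 4, 5, 6, 7, 8, 9, 10, 12, 11]),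
   (false, 0, []),
   (false, 242, [0, 1, 2, 3, 4, 5, 6, 7, 8, 9, 10, 11, 12])],
  [(false, 232, [0, 1, 2, 3, 4, 5, 6, 7, 8, 9, 12, 10, 11]),
   (false, 0, []),
   (false, 0, []),
   (false, 237, [0, 1, 2, 3, 4, 5, 6, 7, 8, 9, 12, 10, 11]),
   (false, 0, []),
   (false, 241, [0, 1, 2, 3, 4, 5, 6, 7, 8, 9, 12, 10, 11]),
   (false, 0, []),
   (false, 241, [0, 1, 2, 3, 6, 7, 4, 5, 8, 9, 12, 10, 11]),
   (false, 0, []),
   (false, 0, []),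
   (false, 0, []),
   (false, 243, [0, 1, 2, 3, 4, 5, 6, 7, 8, 9, 10, 11, 12])],
  [(false, 0, []),
   (false, 0, []),
   (false, 0, []),
   (false, 0, []),
   (false, 0, []),
   (false, 244, [0, 1, 2, 3, 4, 5, 6, 7, 8, 9, 10, 11, 12]),
   (false, 0, []),
   (false, 245, [0, 1, 2, 3, 4, 5, 6, 7, 8, 9, 10, 11, 12]),
   (false, 0, []),
   (false, 246, [0, 1, 2, 3, 4, 5, 6, 7, 8, 9, 10, 11, 12]),
   (false, 247, [0, 1, 2, 3, 4, 5, 6, 7, 8, 9, 10, 11, 12]),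
   (false, 245, [0, 1, 2, 6, 4, 5, 3, 11, 8, 9, 10, 7, 12])],
  [(false, 0, []),
   (false, 0, []),
   (false, 0, []),
   (false, 245, [0, 1, 2, 3, 4, 5, 6, 7, 8, 9, 10, 12, 11]),
   (false, 0, []),
   (false, 246, [0, 1, 4, 5, 2, 3, 8, 9, 6, 7, 10, 12, 11]),
   (false, 0, []),
   (false, 0, []),
   (false, 0, []),
   (false, 248, [0, 1, 2, 3, 4, 5, 6, 7, 8, 9, 10, 11, 12]),
   (false, 249, [0, 1, 2, 3, 4, 5, 6, 7, 8, 9, 10, 11, 12]),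
   (false, 250, [0, 1, 2, 3, 4, 5, 6, 7, 8, 9, 10, 11, 12])],
  [(false, 0, []),
   (false, 0, []),
   (false, 0, []),
   (false, 247, [0, 1, 2, 3, 4, 5, 6, 7, 8, 9, 10, 12, 11]),
   (false, 0, []),
   (false, 247, [0, 1, 4, 5, 2, 3, 8, 9, 6, 7, 10, 12, 11]),
   (false, 0, []),
   (false, 249, [0, 1, 2, 3, 4, 5, 6, 7, 8, 9, 10, 12, 11]),
   (false, 0, []),
   (false, 249, [0, 1, 4, 5, 2, 3, 8, 9, 6, 7, 10, 12, 11]),
   (false, 0, []),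
   (false, 251, [0, 1, 2, 3, 4, 5, 6, 7, 8, 9, 10, 11, 12])],
  [(false, 244, [0, 1, 2, 3, 4, 5, 6, 7, 8, 9, 12, 10, 11]),
   (false, 0, []),
   (false, 0, []),
   (false, 0, []),
   (false, 0, []),
   (false, 0, []),
   (false, 0, []),
   (false, 252, [0, 1, 2, 3, 4, 5, 6, 7, 8, 9, 10, 11, 12]),
   (false, 0, []),
   (false, 252, [0, 1, 4, 5, 2, 3, 8, 9, 6, 7, 11, 10, 12]),
   (false, 252, [0, 1, 2, 6, 4, 5, 3, 10, 8, 9, 7, 11, 12]),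
   (false, 252, [0, 1, 4, 8, 2, 3, 5, 11, 6, 7, 9, 10, 12])],
  [(false, 245, [0, 1, 2, 3, 4, 5, 6, 7, 8, 9, 12, 10, 11]),
   (false, 0, []),
   (false, 0, []),
   (false, 0, []),
   (false, 0, []),
   (false, 252, [0, 1, 2, 3, 4, 5, 6, 7, 8, 9, 10, 12, 11]),
   (false, 0, []),
   (false, 0, []),
   (false, 0, []),
   (false, 253, [0, 1, 2, 3, 4, 5, 6, 7, 8, 9, 10, 11, 12]),
   (false, 254, [0, 1, 2, 3, 4, 5, 6, 7, 8, 9, 10, 11, 12]),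
   (false, 255, [0, 1, 2, 3, 4, 5, 6, 7, 8, 9, 10, 11, 12])],
  [(false, 246, [0, 1, 2, 3, 4, 5, 6, 7, 8, 9, 12, 10, 11]),
   (false, 0, []),
   (false, 0, []),
   (false, 0, []),
   (false, 0, []),
   (false, 252, [0, 1, 4, 5, 2, 3, 8, 9, 6, 7, 12, 10, 11]),
   (false, 0, []),
   (false, 253, [0, 1, 2, 3, 4, 5, 6, 7, 8, 9, 10, 12, 11]),
   (false, 0, []),
   (false, 0, []),
   (false, 253, [0, 1, 2, 6, 4, 5, 3, 10, 8, 9, 7, 12, 11]),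
   (false, 256, [0, 1, 2, 3, 4, 5, 6, 7, 8, 9, 10, 11, 12])],
  [(false, 248, [0, 1, 2, 3, 4, 5, 6, 7, 8, 9, 12, 10, 11]),
   (false, 0, []),
   (false, 0, []),
   (false, 253, [0, 1, 2, 3, 4, 5, 6, 7, 8, 9, 12, 10, 11]),
   (false, 0, []),
   (false, 253, [0, 1, 4, 5, 2, 3, 8, 9, 6, 7, 12, 11, 10]),
   (false, 0, []),
   (false, 0, []),
   (false, 0, []),
   (false, 0, []),
   (false, 257, [0, 1, 2, 3, 4, 5, 6, 7, 8, 9, 10, 11, 12]),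
   (false, 257, [0, 1, 4, 5, 2, 3, 8, 9, 6, 7, 11, 10, 12])],
  [(false, 250, [0, 1, 2, 3, 4, 5, 6, 7, 8, 9, 12, 10, 11]),
   (false, 0, []),
   (false, 0, []),
   (false, 255, [0, 1, 2, 3, 4, 5, 6, 7, 8, 9, 12, 10, 11]),
   (false, 0, []),
   (false, 256, [0, 1, 4, 5, 2, 3, 8, 9, 6, 7, 12, 10, 11]),
   (false, 0, []),
   (false, 0, []),
   (false, 0, []),
   (false, 257, [0, 1, 2, 3, 4, 5, 6, 7, 8, 9, 10, 12, 11]),
   (false, 0, []),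
   (false, 258, [0, 1, 2, 3, 4, 5, 6, 7, 8, 9, 10, 11, 12])],
  [(false, 0, []),
   (false, 0, []),
   (false, 0, []),
   (false, 0, []),
   (false, 0, []),
   (false, 259, [0, 1, 2, 3, 4, 5, 6, 7, 8, 9, 10, 11, 12]),
   (false, 0, []),
   (false, 0, []),
   (false, 260, [0, 1, 2, 3, 4, 5, 6, 7, 8, 9, 10, 11, 12]),
   (false, 0, []),
   (false, 261, [0, 1, 2, 3, 4, 5, 6, 7, 8, 9, 10, 11, 12]),
   (false, 259, [4, 1, 2, 3, 0, 11, 6, 7, 8, 9, 10, 5, 12])],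
  [(false, 259, [0, 1, 2, 3, 4, 5, 6, 7, 8, 9, 10, 12, 11]),
   (false, 0, []),
   (false, 0, []),
   (false, 0, []),
   (false, 0, []),
   (false, 0, []),
   (false, 0, []),
   (false, 0, []),
   (false, 261, [8, 7, 6, 3, 9, 10, 2, 1, 0, 4, 5, 12, 11]),
   (false, 0, []),
   (false, 262, [0, 1, 2, 3, 4, 5, 6, 7, 8, 9, 10, 11, 12]),
   (false, 263, [0, 1, 2, 3, 4, 5, 6, 7, 8, 9, 10, 11, 12])],
  [(false, 0, []),
   (false, 0, []),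
   (false, 0, []),
   (false, 0, []),
   (false, 0, []),
   (false, 264, [0, 1, 2, 3, 4, 5, 6, 7, 8, 9, 10, 11, 12]),
   (false, 0, []),
   (false, 264, [0, 1, 2, 3, 6, 7, 4, 5, 8, 9, 10, 11, 12]),
   (false, 265, [0, 1, 2, 3, 4, 5, 6, 7, 8, 9, 10, 11, 12]),
   (false, 0, []),
   (false, 266, [0, 1, 2, 3, 4, 5, 6, 7, 8, 9, 10, 11, 12]),
   (false, 264, [4, 1, 2, 3, 0, 11, 6, 7, 8, 9, 10, 5, 12])],
  [(false, 264, [0, 1, 2, 3, 4, 5, 6, 7, 8, 9, 10, 12, 11]),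
   (false, 0, []),
   (false, 0, []),
   (false, 0, []),
   (false, 0, []),
   (false, 0, []),
   (false, 0, []),
   (false, 267, [0, 1, 2, 3, 4, 5, 6, 7, 8, 9, 10, 11, 12]),
   (false, 268, [0, 1, 2, 3, 4, 5, 6, 7, 8, 9, 10, 11, 12]),
   (false, 0, []),
   (false, 269, [0, 1, 2, 3, 4, 5, 6, 7, 8, 9, 10, 11, 12]),
   (false, 270, [0, 1, 2, 3, 4, 5, 6, 7, 8, 9, 10, 11, 12])],
  [(false, 265, [0, 1, 2, 3, 4, 5, 6, 7, 8, 9, 10, 12, 11]),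
   (false, 0, []),
   (false, 0, []),
   (false, 0, []),
   (false, 0, []),
   (false, 268, [0, 1, 2, 3, 4, 5, 6, 7, 8, 9, 10, 12, 11]),
   (false, 0, []),
   (false, 268, [0, 1, 2, 3, 6, 7, 4, 5, 8, 9, 10, 12, 11]),
   (false, 0, []),
   (false, 0, []),
   (false, 271, [0, 1, 2, 3, 4, 5, 6, 7, 8, 9, 10, 11, 12]),
   (false, 271, [0, 1, 2, 3, 4, 5, 6, 7, 9, 8, 11, 10, 12])],
  [(false, 266, [0, 1, 2, 3, 4, 5, 6, 7, 8, 9, 10, 12, 11]),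
   (false, 0, []),
   (false, 0, []),
   (false, 0, []),
   (false, 0, []),
   (false, 269, [0, 1, 2, 3, 4, 5, 6, 7, 8, 9, 10, 12, 11]),
   (false, 0, []),
   (false, 269, [0, 1, 2, 3, 6, 7, 4, 5, 8, 9, 10, 12, 11]),
   (false, 271, [0, 1, 2, 3, 4, 5, 6, 7, 8, 9, 10, 12, 11]),
   (false, 0, []),
   (false, 0, []),
   (false, 272, [0, 1, 2, 3, 4, 5, 6, 7, 8, 9, 10, 11, 12])],
  [(false, 0, []),
   (false, 0, []),
   (false, 0, []),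
   (false, 273, [0, 1, 2, 3, 4, 5, 6, 7, 8, 9, 10, 11, 12]),
   (false, 0, []),
   (false, 0, []),
   (false, 0, []),
   (false, 274, [0, 1, 2, 3, 4, 5, 6, 7, 8, 9, 10, 11, 12]),
   (false, 275, [0, 1, 2, 3, 4, 5, 6, 7, 8, 9, 10, 11, 12]),
   (false, 0, []),
   (false, 276, [0, 1, 2, 3, 4, 5, 6, 7, 8, 9, 10, 11, 12]),
   (false, 277, [0, 1, 2, 3, 4, 5, 6, 7, 8, 9, 10, 11, 12])],
  [(false, 273, [0, 1, 2, 3, 4, 5, 6, 7, 8, 9, 10, 12, 11]),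
   (false, 0, []),
   (false, 0, []),
   (false, 0, []),
   (false, 0, []),
   (false, 0, []),
   (false, 0, []),
   (false, 278, [0, 1, 2, 3, 4, 5, 6, 7, 8, 9, 10, 11, 12]),
   (false, 279, [0, 1, 2, 3, 4, 5, 6, 7, 8, 9, 10, 11, 12]),
   (false, 0, []),
   (false, 280, [0, 1, 2, 3, 4, 5, 6, 7, 8, 9, 10, 11, 12]),
   (false, 278, [0, 1, 2, 6, 4, 5, 3, 11, 8, 9, 10, 7, 12])],
  [(false, 274, [0, 1, 2, 3, 4, 5, 6, 7, 8, 9, 10, 12, 11]),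
   (false, 0, []),
   (false, 0, []),
   (false, 278, [0, 1, 2, 3, 4, 5, 6, 7, 8, 9, 10, 12, 11]),
   (false, 0, []),
   (false, 0, []),
   (false, 0, []),
   (false, 0, []),
   (false, 281, [0, 1, 2, 3, 4, 5, 6, 7, 8, 9, 10, 11, 12]),
   (false, 0, []),
   (false, 282, [0, 1, 2, 3, 4, 5, 6, 7, 8, 9, 10, 11, 12]),
   (false, 283, [0, 1, 2, 3, 4, 5, 6, 7, 8, 9, 10, 11, 12])],
  [(false, 275, [0, 1, 2, 3, 4, 5, 6, 7, 8, 9, 10, 12, 11]),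
   (false, 0, []),
   (false, 0, []),
   (false, 279, [0, 1, 2, 3, 4, 5, 6, 7, 8, 9, 10, 12, 11]),
   (false, 0, []),
   (false, 0, []),
   (false, 0, []),
   (false, 281, [0, 1, 2, 3, 4, 5, 6, 7, 8, 9, 10, 12, 11]),
   (false, 0, []),
   (false, 0, []),
   (false, 284, [0, 1, 2, 3, 4, 5, 6, 7, 8, 9, 10, 11, 12]),
   (false, 284, [0, 1, 2, 3, 4, 5, 6, 7, 9, 8, 11, 10, 12])],
  [(false, 276, [0, 1, 2, 3, 4, 5, 6, 7, 8, 9, 10, 12, 11]),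
   (false, 0, []),
   (false, 0, []),
   (false, 280, [0, 1, 2, 3, 4, 5, 6, 7, 8, 9, 10, 12, 11]),
   (false, 0, []),
   (false, 0, []),
   (false, 0, []),
   (false, 282, [0, 1, 2, 3, 4, 5, 6, 7, 8, 9, 10, 12, 11]),
   (false, 284, [0, 1, 2, 3, 4, 5, 6, 7, 8, 9, 10, 12, 11]),
   (false, 0, []),
   (false, 0, []),
   (false, 285, [0, 1, 2, 3, 4, 5, 6, 7, 8, 9, 10, 11, 12])],
  [(false, 286, [0, 1, 2, 3, 4, 5, 6, 7, 8, 9, 10, 11, 12]),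
   (false, 0, []),
   (false, 0, []),
   (false, 0, []),
   (false, 0, []),
   (false, 287, [0, 1, 2, 3, 4, 5, 6, 7, 8, 9, 10, 11, 12]),
   (false, 0, []),
   (false, 0, []),
   (false, 0, []),
   (false, 286, [9, 8, 7, 6, 10, 11, 3, 2, 1, 0, 4, 5, 12]),
   (false, 0, []),
   (false, 287, [9, 8, 7, 6, 10, 11, 3, 2, 1, 0, 4, 5, 12])],
  [(false, 288, [0, 1, 2, 3, 4, 5, 6, 7, 8, 9, 10, 11, 12]),
   (false, 0, []),
   (false, 0, []),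
   (false, 0, []),
   (false, 0, []),
   (false, 289, [0, 1, 2, 3, 4, 5, 6, 7, 8, 9, 10, 11, 12]),
   (false, 0, []),
   (false, 289, [0, 1, 2, 3, 6, 7, 4, 5, 8, 9, 10, 11, 12]),
   (false, 0, []),
   (false, 290, [0, 1, 2, 3, 4, 5, 6, 7, 8, 9, 10, 11, 12]),
   (false, 0, []),
   (false, 291, [0, 1, 2, 3, 4, 5, 6, 7, 8, 9, 10, 11, 12])],
  [(false, 292, [0, 1, 2, 3, 4, 5, 6, 7, 8, 9, 10, 11, 12]),
   (false, 0, []),
   (false, 0, []),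
   (false, 293, [0, 1, 2, 3, 4, 5, 6, 7, 8, 9, 10, 11, 12]),
   (false, 0, []),
   (false, 0, []),
   (false, 0, []),
   (false, 294, [0, 1, 2, 3, 4, 5, 6, 7, 8, 9, 10, 11, 12]),
   (false, 0, []),
   (false, 295, [0, 1, 2, 3, 4, 5, 6, 7, 8, 9, 10, 11, 12]),
   (false, 0, []),
   (false, 296, [0, 1, 2, 3, 4, 5, 6, 7, 8, 9, 10, 11, 12])],
  [(false, 297, [0, 1, 2, 3, 4, 5, 6, 7, 8, 9, 10, 11, 12]),
   (false, 0, []),
   (false, 0, []),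
   (false, 0, []),
   (false, 0, []),
   (false, 0, []),
   (false, 298, [0, 1, 2, 3, 4, 5, 6, 7, 8, 9, 10, 11, 12]),
   (false, 0, []),
   (false, 299, [0, 1, 2, 3, 4, 5, 6, 7, 8, 9, 10, 11, 12]),
   (false, 298, [0, 1, 4, 5, 2, 3, 9, 10, 11, 6, 7, 8, 12]),
   (false, 0, []),
   (false, 299, [0, 1, 4, 5, 2, 3, 9, 10, 11, 6, 7, 8, 12])],
  [(false, 300, [0, 1, 2, 3, 4, 5, 6, 7, 8, 9, 10, 11, 12]),
   (false, 0, []),
   (false, 0, []),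
   (false, 301, [0, 1, 2, 3, 4, 5, 6, 7, 8, 9, 10, 11, 12]),
   (false, 0, []),
   (false, 301, [0, 1, 4, 5, 2, 3, 6, 7, 8, 9, 10, 11, 12]),
   (false, 0, []),
   (false, 301, [0, 1, 6, 7, 2, 3, 4, 5, 8, 9, 10, 11, 12]),
   (false, 0, []),
   (false, 301, [0, 1, 8, 9, 2, 3, 4, 5, 6, 7, 10, 11, 12]),
   (false, 0, []),
   (false, 301, [0, 1, 10, 11, 2, 3, 4, 5, 6, 7, 8, 9, 12])],
  [(false, 302, [0, 1, 2, 3, 4, 5, 6, 7, 8, 9, 10, 11, 12]),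
   (false, 0, []),
   (false, 0, []),
   (false, 303, [0, 1, 2, 3, 4, 5, 6, 7, 8, 9, 10, 11, 12]),
   (false, 0, []),
   (false, 304, [0, 1, 2, 3, 4, 5, 6, 7, 8, 9, 10, 11, 12]),
   (false, 0, []),
   (false, 304, [0, 1, 2, 3, 6, 7, 4, 5, 8, 9, 10, 11, 12]),
   (false, 0, []),
   (false, 304, [0, 1, 2, 3, 8, 9, 4, 5, 6, 7, 10, 11, 12]),
   (false, 0, []),
   (false, 305, [0, 1, 2, 3, 4, 5, 6, 7, 8, 9, 10, 11, 12])],
  [(false, 306, [0, 1, 2, 3, 4, 5, 6, 7, 8, 9, 10, 11, 12]),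
   (false, 0, []),
   (false, 0, []),
   (false, 306, [3, 2, 1, 0, 8, 9, 10, 11, 4, 5, 6, 7, 12]),
   (false, 0, []),
   (false, 307, [0, 1, 2, 3, 4, 5, 6, 7, 8, 9, 10, 11, 12]),
   (false, 0, []),
   (false, 307, [0, 1, 2, 3, 6, 7, 4, 5, 8, 9, 10, 11, 12]),
   (false, 0, []),
   (false, 307, [3, 2, 1, 0, 8, 9, 10, 11, 4, 5, 6, 7, 12]),
   (false, 0, []),
   (false, 307, [3, 2, 1, 0, 10, 11, 8, 9, 4, 5, 6, 7, 12])],
  [(false, 308, [0, 1, 2, 3, 4, 5, 6, 7, 8, 9, 10, 11, 12]),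
   (false, 0, []),
   (false, 0, []),
   (false, 309, [0, 1, 2, 3, 4, 5, 6, 7, 8, 9, 10, 11, 12]),
   (false, 0, []),
   (false, 309, [0, 1, 4, 5, 2, 3, 6, 7, 10, 11, 8, 9, 12]),
   (false, 0, []),
   (false, 310, [0, 1, 2, 3, 4, 5, 6, 7, 8, 9, 10, 11, 12]),
   (false, 0, []),
   (false, 311, [0, 1, 2, 3, 4, 5, 6, 7, 8, 9, 10, 11, 12]),
   (false, 0, []),
   (false, 311, [0, 1, 4, 5, 2, 3, 6, 7, 10, 11, 8, 9, 12])],
  [(false, 312, [0, 1, 2, 3, 4, 5, 6, 7, 8, 9, 10, 11, 12]),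
   (false, 0, []),
   (false, 0, []),
   (false, 313, [0, 1, 2, 3, 4, 5, 6, 7, 8, 9, 10, 11, 12]),
   (false, 0, []),
   (false, 314, [0, 1, 2, 3, 4, 5, 6, 7, 8, 9, 10, 11, 12]),
   (false, 0, []),
   (false, 314, [0, 1, 2, 3, 6, 7, 4, 5, 8, 9, 10, 11, 12]),
   (false, 0, []),
   (false, 315, [0, 1, 2, 3, 4, 5, 6, 7, 8, 9, 10, 11, 12]),
   (false, 0, []),
   (false, 316, [0, 1, 2, 3, 4, 5, 6, 7, 8, 9, 10, 11, 12])],
  [(false, 317, [0, 1, 2, 3, 4, 5, 6, 7, 8, 9, 10, 11, 12]),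
   (false, 0, []),
   (false, 0, []),
   (false, 317, [3, 2, 1, 0, 6, 7, 4, 5, 10, 11, 8, 9, 12]),
   (false, 0, []),
   (false, 318, [0, 1, 2, 3, 4, 5, 6, 7, 8, 9, 10, 11, 12]),
   (false, 0, []),
   (false, 318, [3, 2, 1, 0, 6, 7, 4, 5, 10, 11, 8, 9, 12]),
   (false, 0, []),
   (false, 319, [0, 1, 2, 3, 4, 5, 6, 7, 8, 9, 10, 11, 12]),
   (false, 0, []),
   (false, 319, [3, 2, 1, 0, 6, 7, 4, 5, 10, 11, 8, 9, 12])]]

theorem rows13_4 : rowsB L13 [] (some 13) L13_4 cert13_4 = true := by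
  decide +kernel

end Pool.Agent.SA27
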