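import Pool.Agent.SA27.All13C1
import Pool.Agent.SA27.All13C2
import Pool.Agent.SA27.All13C3
import Pool.Agent.SA27.All13C4
import Pool.Agent.SA27.All13C5

set_option autoImplicit false

/-! The list of the twin-free trees with at most 13 vertices is complete. -/

namespace Pool.Agent.SA27

open SimpleGraph Pool.Agent.SA33 Pool.Agent.SA97

universe u

/-- Every twin-free tree with 3 to 13 vertices is in the list `L13`. -/
theorem all13 {V : Type u} [Finite V] {G : SimpleGraph V} (hG : G.IsTree) (htw : TwinFree G)
    (hc : 3 ≤ Nat.card V) (hc' : Nat.card V ≤ 13) : ∃ q ∈ L13, Nonempty (ptree q ≃g G) := by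
  have h : Covered L13 [] (some 13) G := by
    apply covered _ _ hG htw hc
    · decide +kernel
    · intro q hq
      unfold L13 at hq
      simp only [List.mem_append] at hq
      rcases hq with h | h | h | h | h
      · exact rowsB_spec rows13_1 q h
      · exact rowsB_spec rows13_2 q h
      · exact rowsB_spec rows13_3 q h
      · exact rowsB_spec rows13_4 q h
      · exact rowsB_spec rows13_5 q h
  rcases h with ⟨q, hq, -⟩ | h | h
  · exact absurd hq (by simp)
  · exact h
  · have := Nat.le_of_ble_eq_true h
    omega

end Pool.Agent.SA27
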