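import Pool.Agent.SA27.L13

set_option autoImplicit false

/-! Certificates, part 1. -/

namespace Pool.Agent.SA27

/-- Certificates. -/
def cert13_1 : List (List (Bool × ℕ × List ℕ)) := [
  [(false, 1, [0, 1, 2, 3, 4]),
   (false, 3, [0, 1, 2, 3, 4, 5]),
   (false, 3, [3, 2, 1, 0, 4, 5]),
   (false, 1, [1, 2, 3, 4, 0])],
  [(false, 6, [4, 0, 1, 2, 5, 6, 3]),
   (false, 5, [0, 1, 2, 3, 5, 6, 4]),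
   (false, 6, [3, 2, 1, 0, 5, 6, 4]),
   (false, 2, [0, 1, 2, 3, 4, 5]),
   (false, 2, [4, 0, 1, 2, 5, 3])],
  [(false, 10, [4, 0, 1, 2, 6, 7, 3, 5]),
   (false, 8, [0, 1, 2, 3, 6, 7, 4, 5]),
   (false, 8, [3, 2, 1, 0, 6, 7, 5, 4]),
   (false, 10, [5, 3, 2, 1, 6, 7, 0, 4]),
   (false, 4, [0, 1, 2, 3, 4, 5, 6]),
   (false, 4, [1, 2, 3, 5, 0, 6, 4])],
  [(false, 5, [0, 1, 2, 3, 4, 5, 6]),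
   (false, 11, [0, 1, 2, 3, 4, 5, 6, 7]),
   (false, 12, [0, 1, 2, 3, 4, 5, 6, 7]),
   (false, 6, [0, 1, 2, 3, 4, 5, 6]),
   (false, 12, [0, 1, 4, 5, 2, 3, 6, 7]),
   (false, 6, [0, 1, 4, 5, 2, 3, 6])],
  [(false, 15, [4, 0, 1, 2, 7, 8, 6, 3, 5]),
   (false, 14, [7, 1, 0, 4, 2, 3, 8, 6, 5]),
   (false, 15, [3, 2, 1, 0, 7, 8, 5, 4, 6]),
   (false, 17, [5, 3, 2, 1, 7, 8, 0, 4, 6]),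
   (false, 17, [6, 4, 0, 1, 7, 8, 2, 3, 5]),
   (false, 7, [0, 1, 2, 3, 4, 5, 6, 7]),
   (false, 7, [4, 0, 1, 2, 6, 3, 7, 5])],
  [(false, 20, [2, 1, 0, 6, 4, 5, 7, 8, 3]),
   (false, 18, [0, 1, 2, 3, 4, 5, 7, 8, 6]),
   (false, 20, [0, 1, 2, 3, 4, 5, 7, 8, 6]),
   (false, 8, [0, 1, 2, 3, 4, 5, 6, 7]),
   (false, 20, [0, 1, 4, 5, 2, 3, 7, 8, 6]),
   (false, 8, [0, 1, 4, 5, 2, 3, 6, 7]),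
   (false, 8, [2, 1, 0, 6, 4, 5, 3, 7])],
  [(false, 8, [0, 1, 2, 3, 4, 5, 7, 6]),
   (false, 19, [0, 1, 2, 3, 4, 5, 7, 8, 6]),
   (false, 20, [3, 2, 1, 0, 7, 8, 4, 5, 6]),
   (false, 22, [0, 1, 2, 3, 4, 5, 6, 7, 8]),
   (false, 21, [0, 1, 4, 5, 2, 3, 7, 8, 6]),
   (false, 9, [0, 1, 2, 3, 4, 5, 6, 7]),
   (false, 10, [0, 1, 2, 3, 4, 5, 6, 7])],
  [(false, 26, [4, 0, 1, 2, 8, 9, 6, 3, 5, 7]),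
   (false, 25, [8, 1, 2, 3, 0, 4, 9, 5, 6, 7]),
   (false, 25, [8, 2, 1, 0, 3, 5, 9, 4, 7, 6]),
   (false, 26, [5, 3, 2, 1, 8, 9, 7, 0, 4, 6]),
   (false, 29, [6, 4, 0, 1, 8, 9, 2, 3, 5, 7]),
   (false, 29, [7, 5, 3, 2, 8, 9, 1, 0, 4, 6]),
   (false, 13, [0, 1, 2, 3, 4, 5, 6, 7, 8]),
   (false, 13, [1, 2, 3, 5, 0, 7, 4, 8, 6])],
  [(false, 34, [4, 1, 0, 6, 2, 3, 8, 9, 5, 7]),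
   (false, 30, [0, 1, 2, 3, 4, 5, 8, 9, 6, 7]),
   (false, 33, [0, 1, 2, 3, 4, 5, 8, 9, 6, 7]),
   (false, 38, [0, 1, 2, 3, 4, 5, 7, 8, 9, 6]),
   (false, 34, [0, 1, 4, 5, 2, 3, 8, 9, 6, 7]),
   (false, 14, [0, 1, 2, 3, 4, 5, 6, 7, 8]),
   (false, 14, [4, 1, 0, 6, 2, 3, 5, 8, 7]),
   (false, 15, [0, 1, 2, 3, 4, 5, 6, 7, 8])],
  [(false, 14, [0, 1, 2, 3, 4, 5, 8, 6, 7]),
   (false, 31, [0, 1, 2, 3, 4, 5, 8, 9, 6, 7]),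
   (false, 35, [3, 2, 1, 0, 8, 9, 4, 5, 6, 7]),
   (false, 39, [0, 1, 2, 3, 4, 5, 6, 8, 9, 7]),
   (false, 35, [5, 4, 1, 0, 8, 9, 2, 3, 7, 6]),
   (false, 39, [0, 1, 4, 5, 2, 3, 7, 8, 9, 6]),
   (false, 16, [0, 1, 2, 3, 4, 5, 6, 7, 8]),
   (false, 16, [0, 1, 4, 5, 2, 3, 7, 6, 8])],
  [(false, 15, [0, 1, 2, 3, 4, 5, 8, 6, 7]),
   (false, 32, [0, 1, 2, 3, 4, 5, 8, 9, 6, 7]),
   (false, 34, [8, 2, 1, 0, 3, 6, 4, 5, 9, 7]),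
   (false, 38, [6, 3, 2, 1, 8, 9, 0, 4, 5, 7]),
   (false, 37, [0, 1, 4, 5, 2, 3, 8, 9, 6, 7]),
   (false, 16, [0, 1, 2, 3, 4, 5, 6, 8, 7]),
   (false, 40, [0, 1, 2, 3, 4, 5, 6, 7, 8, 9]),
   (false, 17, [0, 1, 2, 3, 4, 5, 6, 7, 8])],
  [(false, 18, [0, 1, 2, 3, 4, 5, 6, 7, 8]),
   (false, 41, [0, 1, 2, 3, 4, 5, 6, 7, 8, 9]),
   (false, 42, [0, 1, 2, 3, 4, 5, 6, 7, 8, 9]),
   (false, 19, [0, 1, 2, 3, 4, 5, 6, 7, 8]),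
   (false, 42, [0, 1, 4, 5, 2, 3, 6, 7, 8, 9]),
   (false, 19, [0, 1, 4, 5, 2, 3, 6, 7, 8]),
   (false, 42, [0, 1, 6, 7, 2, 3, 4, 5, 8, 9]),
   (false, 19, [0, 1, 6, 7, 2, 3, 4, 5, 8])],
  [(false, 20, [0, 1, 2, 3, 4, 5, 6, 7, 8]),
   (false, 42, [0, 1, 2, 3, 4, 5, 8, 9, 6, 7]),
   (false, 42, [3, 2, 1, 0, 6, 7, 8, 9, 4, 5]),
   (false, 20, [3, 2, 1, 0, 6, 7, 4, 5, 8]),
   (false, 43, [0, 1, 2, 3, 4, 5, 6, 7, 8, 9]),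
   (false, 21, [0, 1, 2, 3, 4, 5, 6, 7, 8]),
   (false, 43, [3, 2, 1, 0, 6, 7, 4, 5, 8, 9]),
   (false, 21, [3, 2, 1, 0, 6, 7, 4, 5, 8])],
  [(false, 47, [9, 0, 1, 2, 4, 6, 10, 3, 8, 5, 7]),
   (false, 46, [9, 1, 0, 4, 2, 3, 10, 6, 5, 8, 7]),
   (false, 47, [9, 2, 1, 0, 3, 5, 10, 4, 7, 6, 8]),
   (false, 48, [5, 3, 2, 1, 9, 10, 7, 0, 4, 6, 8]),
   (false, 48, [6, 4, 0, 1, 9, 10, 8, 2, 3, 5, 7]),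
   (false, 51, [7, 5, 3, 2, 9, 10, 1, 0, 4, 6, 8]),
   (false, 51, [8, 6, 4, 0, 9, 10, 1, 2, 3, 5, 7]),
   (false, 23, [0, 1, 2, 3, 4, 5, 6, 7, 8, 9]),
   (false, 23, [4, 0, 1, 2, 6, 3, 8, 5, 9, 7])],
  [(false, 59, [2, 1, 0, 6, 4, 5, 9, 10, 3, 8, 7]),
   (false, 52, [0, 1, 2, 3, 4, 5, 9, 10, 6, 7, 8]),
   (false, 57, [0, 1, 2, 3, 4, 5, 9, 10, 6, 7, 8]),
   (false, 64, [0, 1, 2, 3, 4, 5, 7, 9, 10, 6, 8]),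
   (false, 57, [0, 1, 4, 5, 2, 3, 9, 10, 6, 8, 7]),
   (false, 64, [0, 1, 4, 5, 2, 3, 8, 9, 10, 6, 7]),
   (false, 24, [0, 1, 2, 3, 4, 5, 6, 7, 8, 9]),
   (false, 25, [0, 1, 2, 3, 4, 5, 6, 7, 8, 9]),
   (false, 25, [0, 1, 4, 5, 2, 3, 6, 8, 7, 9])],
  [(false, 60, [4, 1, 0, 6, 2, 3, 9, 10, 5, 7, 8]),
   (false, 53, [0, 1, 2, 3, 4, 5, 9, 10, 6, 7, 8]),
   (false, 57, [9, 2, 1, 0, 3, 7, 4, 5, 10, 6, 8]),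
   (false, 65, [0, 1, 2, 3, 4, 5, 7, 9, 10, 6, 8]),
   (false, 60, [0, 1, 4, 5, 2, 3, 9, 10, 6, 7, 8]),
   (false, 25, [0, 1, 2, 3, 4, 5, 6, 7, 9, 8]),
   (false, 25, [4, 1, 2, 3, 0, 6, 5, 7, 9, 8]),
   (false, 69, [0, 1, 2, 3, 4, 5, 7, 8, 9, 10, 6]),
   (false, 26, [0, 1, 2, 3, 4, 5, 6, 7, 8, 9])],
  [(false, 25, [0, 1, 2, 3, 4, 5, 9, 6, 7, 8]),
   (false, 55, [0, 1, 2, 3, 4, 5, 9, 10, 6, 7, 8]),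
   (false, 58, [9, 2, 1, 0, 3, 6, 4, 5, 10, 8, 7]),
   (false, 66, [6, 3, 2, 1, 9, 10, 0, 4, 5, 8, 7]),
   (false, 61, [5, 4, 1, 0, 9, 10, 2, 3, 7, 6, 8]),
   (false, 68, [0, 1, 4, 5, 2, 3, 7, 9, 10, 6, 8]),
   (false, 70, [0, 1, 2, 3, 4, 5, 6, 8, 9, 10, 7]),
   (false, 27, [0, 1, 2, 3, 4, 5, 6, 7, 8, 9]),
   (false, 28, [0, 1, 2, 3, 4, 5, 6, 7, 8, 9])],
  [(false, 26, [0, 1, 2, 3, 4, 5, 9, 6, 7, 8]),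
   (false, 56, [0, 1, 2, 3, 4, 5, 9, 10, 6, 7, 8]),
   (false, 60, [9, 2, 1, 0, 3, 6, 4, 5, 10, 7, 8]),
   (false, 64, [9, 3, 2, 1, 6, 7, 0, 4, 5, 10, 8]),
   (false, 63, [0, 1, 4, 5, 2, 3, 9, 10, 6, 7, 8]),
   (false, 28, [0, 1, 2, 3, 4, 5, 6, 9, 7, 8]),
   (false, 69, [7, 6, 3, 2, 9, 10, 1, 0, 4, 5, 8]),
   (false, 80, [0, 1, 2, 3, 4, 5, 6, 7, 8, 9, 10]),
   (false, 29, [0, 1, 2, 3, 4, 5, 6, 7, 8, 9])],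
  [(false, 73, [2, 1, 0, 8, 4, 5, 6, 7, 9, 10, 3]),
   (false, 71, [0, 1, 2, 3, 4, 5, 6, 7, 9, 10, 8]),
   (false, 73, [0, 1, 2, 3, 4, 5, 6, 7, 9, 10, 8]),
   (false, 30, [0, 1, 2, 3, 4, 5, 6, 7, 8, 9]),
   (false, 73, [0, 1, 4, 5, 2, 3, 6, 7, 9, 10, 8]),
   (false, 30, [0, 1, 4, 5, 2, 3, 6, 7, 8, 9]),
   (false, 73, [0, 1, 6, 7, 2, 3, 4, 5, 9, 10, 8]),
   (false, 30, [0, 1, 6, 7, 2, 3, 4, 5, 8, 9]),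
   (false, 30, [2, 1, 0, 8, 4, 5, 6, 7, 3, 9])],
  [(false, 30, [0, 1, 2, 3, 4, 5, 6, 7, 9, 8]),
   (false, 72, [0, 1, 2, 3, 4, 5, 6, 7, 9, 10, 8]),
   (false, 74, [0, 1, 2, 3, 4, 5, 6, 7, 9, 10, 8]),
   (false, 81, [0, 1, 2, 3, 4, 5, 6, 7, 8, 9, 10]),
   (false, 75, [0, 1, 4, 5, 2, 3, 6, 7, 9, 10, 8]),
   (false, 31, [0, 1, 2, 3, 4, 5, 6, 7, 8, 9]),
   (false, 75, [0, 1, 6, 7, 2, 3, 4, 5, 9, 10, 8]),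
   (false, 31, [0, 1, 2, 3, 6, 7, 4, 5, 8, 9]),
   (false, 32, [0, 1, 2, 3, 4, 5, 6, 7, 8, 9])],
  [(false, 77, [4, 1, 0, 8, 2, 3, 9, 10, 6, 7, 5]),
   (false, 73, [0, 1, 2, 3, 4, 5, 9, 10, 6, 7, 8]),
   (false, 74, [3, 2, 1, 0, 6, 7, 9, 10, 4, 5, 8]),
   (false, 33, [0, 1, 2, 3, 4, 5, 6, 7, 8, 9]),
   (false, 77, [0, 1, 2, 3, 4, 5, 6, 7, 9, 10, 8]),
   (false, 34, [0, 1, 2, 3, 4, 5, 6, 7, 8, 9]),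
   (false, 78, [3, 2, 1, 0, 6, 7, 4, 5, 9, 10, 8]),
   (false, 35, [0, 1, 2, 3, 4, 5, 6, 7, 8, 9]),
   (false, 34, [4, 1, 2, 3, 0, 8, 6, 7, 5, 9])],
  [(false, 34, [0, 1, 2, 3, 4, 5, 6, 7, 9, 8]),
   (false, 75, [0, 1, 2, 3, 4, 5, 9, 10, 6, 7, 8]),
   (false, 76, [3, 2, 1, 0, 6, 7, 9, 10, 4, 5, 8]),
   (false, 35, [3, 2, 1, 0, 6, 7, 4, 5, 9, 8]),
   (false, 78, [0, 1, 4, 5, 2, 3, 9, 10, 6, 7, 8]),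
   (false, 82, [0, 1, 2, 3, 4, 5, 6, 7, 8, 9, 10]),
   (false, 79, [3, 2, 1, 0, 6, 7, 4, 5, 9, 10, 8]),
   (false, 36, [0, 1, 2, 3, 4, 5, 6, 7, 8, 9]),
   (false, 37, [0, 1, 2, 3, 4, 5, 6, 7, 8, 9])],
  [(false, 38, [0, 1, 2, 3, 4, 5, 6, 7, 8, 9]),
   (false, 81, [0, 1, 2, 3, 4, 5, 9, 10, 6, 7, 8]),
   (false, 77, [9, 2, 1, 0, 3, 6, 4, 5, 7, 8, 10]),
   (false, 81, [6, 3, 2, 1, 7, 8, 9, 10, 0, 4, 5]),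
   (false, 82, [0, 1, 4, 5, 2, 3, 9, 10, 6, 7, 8]),
   (false, 39, [0, 1, 2, 3, 4, 5, 6, 7, 8, 9]),
   (false, 38, [6, 3, 2, 1, 7, 8, 0, 4, 5, 9]),
   (false, 82, [6, 3, 7, 8, 2, 1, 9, 10, 0, 4, 5]),
   (false, 39, [6, 3, 2, 1, 7, 8, 0, 4, 5, 9])],
  [(false, 87, [10, 0, 1, 2, 4, 6, 11, 3, 8, 5, 7, 9]),
   (false, 86, [10, 1, 2, 3, 0, 4, 11, 5, 6, 7, 8, 9]),
   (false, 86, [10, 2, 1, 0, 3, 5, 11, 4, 7, 6, 9, 8]),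
   (false, 87, [10, 3, 2, 1, 5, 7, 11, 0, 9, 4, 6, 8]),
   (false, 88, [6, 4, 0, 1, 10, 11, 8, 2, 3, 5, 7, 9]),
   (false, 88, [7, 5, 3, 2, 10, 11, 9, 1, 0, 4, 6, 8]),
   (false, 92, [8, 6, 4, 0, 10, 11, 1, 2, 3, 5, 7, 9]),
   (false, 92, [9, 7, 5, 3, 10, 11, 2, 1, 0, 4, 6, 8]),
   (false, 44, [0, 1, 2, 3, 4, 5, 6, 7, 8, 9, 10]),
   (false, 44, [1, 2, 3, 5, 0, 7, 4, 9, 6, 10, 8])],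
  [(false, 101, [2, 1, 0, 6, 4, 5, 10, 11, 3, 9, 8, 7]),
   (false, 93, [10, 1, 0, 6, 2, 3, 4, 5, 11, 9, 7, 8]),
   (false, 101, [0, 1, 2, 3, 4, 5, 10, 11, 6, 7, 8, 9]),
   (false, 114, [0, 1, 2, 3, 4, 5, 7, 10, 11, 6, 8, 9]),
   (false, 101, [0, 1, 4, 5, 2, 3, 10, 11, 6, 8, 7, 9]),
   (false, 114, [0, 1, 4, 5, 2, 3, 8, 10, 11, 6, 7, 9]),
   (false, 114, [2, 1, 0, 6, 4, 5, 9, 10, 11, 3, 8, 7]),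
   (false, 45, [0, 1, 2, 3, 4, 5, 6, 7, 8, 9, 10]),
   (false, 45, [0, 1, 4, 5, 2, 3, 6, 8, 7, 9, 10]),
   (false, 45, [2, 1, 0, 6, 4, 5, 3, 9, 8, 7, 10])],
  [(false, 106, [4, 1, 0, 6, 2, 3, 10, 11, 5, 7, 8, 9]),
   (false, 94, [0, 1, 2, 3, 4, 5, 10, 11, 6, 7, 8, 9]),
   (false, 100, [0, 1, 2, 10, 4, 5, 3, 7, 6, 11, 8, 9]),
   (false, 112, [0, 1, 2, 3, 4, 5, 7, 10, 11, 6, 8, 9]),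
   (false, 102, [0, 1, 4, 5, 2, 3, 10, 11, 6, 8, 7, 9]),
   (false, 115, [0, 1, 4, 5, 2, 3, 8, 10, 11, 6, 7, 9]),
   (false, 45, [0, 1, 2, 3, 4, 5, 6, 7, 8, 10, 9]),
   (false, 119, [0, 1, 2, 3, 4, 5, 7, 9, 10, 11, 6, 8]),
   (false, 46, [0, 1, 2, 3, 4, 5, 6, 7, 8, 9, 10]),
   (false, 47, [0, 1, 2, 3, 4, 5, 6, 7, 8, 9, 10])],
  [(false, 107, [4, 1, 0, 6, 2, 3, 10, 11, 5, 7, 8, 9]),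
   (false, 95, [0, 1, 2, 3, 4, 5, 10, 11, 6, 7, 8, 9]),
   (false, 102, [10, 2, 1, 0, 3, 7, 4, 5, 11, 6, 8, 9]),
   (false, 112, [10, 3, 2, 1, 7, 8, 0, 4, 5, 11, 9, 6]),
   (false, 107, [0, 1, 4, 5, 2, 3, 10, 11, 6, 7, 8, 9]),
   (false, 47, [0, 1, 2, 3, 4, 5, 6, 7, 10, 8, 9]),
   (false, 47, [4, 1, 2, 3, 0, 6, 5, 7, 10, 8, 9]),
   (false, 120, [0, 1, 2, 3, 4, 5, 7, 8, 10, 11, 6, 9]),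
   (false, 144, [0, 1, 2, 3, 4, 5, 7, 8, 9, 10, 11, 6]),
   (false, 48, [0, 1, 2, 3, 4, 5, 6, 7, 8, 9, 10])],
  [(false, 46, [0, 1, 2, 3, 4, 5, 10, 6, 7, 8, 9]),
   (false, 97, [0, 1, 2, 3, 4, 5, 10, 11, 6, 7, 8, 9]),
   (false, 105, [10, 2, 1, 0, 3, 6, 4, 5, 11, 8, 7, 9]),
   (false, 116, [6, 3, 2, 1, 10, 11, 0, 4, 5, 8, 7, 9]),
   (false, 105, [10, 4, 1, 0, 5, 7, 2, 3, 11, 9, 6, 8]),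
   (false, 116, [7, 5, 4, 1, 10, 11, 0, 2, 3, 9, 6, 8]),
   (false, 123, [0, 1, 2, 3, 4, 5, 6, 8, 10, 11, 7, 9]),
   (false, 123, [0, 1, 4, 5, 2, 3, 7, 9, 10, 11, 6, 8]),
   (false, 49, [0, 1, 2, 3, 4, 5, 6, 7, 8, 9, 10]),
   (false, 49, [0, 1, 4, 5, 2, 3, 7, 6, 9, 8, 10])],
  [(false, 47, [0, 1, 2, 3, 4, 5, 10, 6, 7, 8, 9]),
   (false, 98, [0, 1, 2, 3, 4, 5, 10, 11, 6, 7, 8, 9]),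
   (false, 104, [10, 2, 1, 0, 3, 6, 4, 5, 11, 8, 7, 9]),
   (false, 113, [10, 3, 2, 1, 6, 8, 0, 4, 5, 11, 9, 7]),
   (false, 108, [5, 4, 1, 0, 10, 11, 2, 3, 7, 6, 8, 9]),
   (false, 118, [0, 1, 4, 5, 2, 3, 7, 10, 11, 6, 8, 9]),
   (false, 121, [8, 6, 3, 2, 10, 11, 1, 0, 4, 5, 9, 7]),
   (false, 49, [0, 1, 2, 3, 4, 5, 6, 7, 8, 10, 9]),
   (false, 145, [0, 1, 2, 3, 4, 5, 6, 8, 9, 10, 11, 7]),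
   (false, 50, [0, 1, 2, 3, 4, 5, 6, 7, 8, 9, 10])],
  [(false, 48, [0, 1, 2, 3, 4, 5, 10, 6, 7, 8, 9]),
   (false, 99, [0, 1, 2, 3, 4, 5, 10, 11, 6, 7, 8, 9]),
   (false, 107, [10, 2, 1, 0, 3, 6, 4, 5, 11, 7, 8, 9]),
   (false, 115, [10, 3, 2, 1, 6, 7, 0, 4, 5, 11, 8, 9]),
   (false, 111, [0, 1, 4, 5, 2, 3, 10, 11, 6, 7, 8, 9]),
   (false, 50, [0, 1, 2, 3, 4, 5, 6, 10, 7, 8, 9]),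
   (false, 119, [10, 6, 3, 2, 7, 8, 1, 0, 4, 5, 11, 9]),
   (false, 144, [8, 7, 6, 3, 10, 11, 2, 1, 0, 4, 5, 9]),
   (false, 155, [0, 1, 2, 3, 4, 5, 6, 7, 8, 9, 10, 11]),
   (false, 51, [0, 1, 2, 3, 4, 5, 6, 7, 8, 9, 10])],
  [(false, 128, [4, 1, 0, 8, 2, 3, 6, 7, 10, 11, 5, 9]),
   (false, 124, [0, 1, 2, 3, 4, 5, 6, 7, 10, 11, 8, 9]),
   (false, 127, [0, 1, 2, 3, 4, 5, 6, 7, 10, 11, 8, 9]),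
   (false, 146, [0, 1, 2, 3, 4, 5, 6, 7, 9, 10, 11, 8]),
   (false, 128, [0, 1, 4, 5, 2, 3, 6, 7, 10, 11, 8, 9]),
   (false, 52, [0, 1, 2, 3, 4, 5, 6, 7, 8, 9, 10]),
   (false, 128, [0, 1, 6, 7, 2, 3, 4, 5, 10, 11, 8, 9]),
   (false, 52, [0, 1, 2, 3, 6, 7, 4, 5, 8, 9, 10]),
   (false, 52, [4, 1, 0, 8, 2, 3, 6, 7, 5, 10, 9]),
   (false, 53, [0, 1, 2, 3, 4, 5, 6, 7, 8, 9, 10])],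
  [(false, 52, [0, 1, 2, 3, 4, 5, 6, 7, 10, 8, 9]),
   (false, 125, [0, 1, 2, 3, 4, 5, 6, 7, 10, 11, 8, 9]),
   (false, 130, [0, 1, 2, 3, 4, 5, 6, 7, 10, 11, 8, 9]),
   (false, 147, [0, 1, 2, 3, 4, 5, 6, 7, 8, 10, 11, 9]),
   (false, 130, [0, 1, 4, 5, 2, 3, 6, 7, 10, 11, 9, 8]),
   (false, 147, [0, 1, 4, 5, 2, 3, 6, 7, 9, 10, 11, 8]),
   (false, 132, [0, 1, 6, 7, 2, 3, 4, 5, 10, 11, 8, 9]),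
   (false, 54, [0, 1, 2, 3, 4, 5, 6, 7, 8, 9, 10]),
   (false, 55, [0, 1, 2, 3, 4, 5, 6, 7, 8, 9, 10]),
   (false, 55, [0, 1, 4, 5, 2, 3, 6, 7, 9, 8, 10])],
  [(false, 53, [0, 1, 2, 3, 4, 5, 6, 7, 10, 8, 9]),
   (false, 126, [0, 1, 2, 3, 4, 5, 6, 7, 10, 11, 8, 9]),
   (false, 131, [0, 1, 2, 10, 4, 5, 6, 7, 3, 8, 11, 9]),
   (false, 148, [0, 1, 2, 3, 4, 5, 6, 7, 8, 10, 11, 9]),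
   (false, 134, [0, 1, 4, 5, 2, 3, 6, 7, 10, 11, 8, 9]),
   (false, 55, [0, 1, 2, 3, 4, 5, 6, 7, 8, 10, 9]),
   (false, 134, [0, 1, 6, 7, 2, 3, 4, 5, 10, 11, 8, 9]),
   (false, 55, [0, 1, 2, 3, 6, 7, 4, 5, 8, 10, 9]),
   (false, 156, [0, 1, 2, 3, 4, 5, 6, 7, 8, 9, 10, 11]),
   (false, 56, [0, 1, 2, 3, 4, 5, 6, 7, 8, 9, 10])],
  [(false, 136, [4, 1, 2, 3, 0, 8, 6, 7, 10, 11, 5, 9]),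
   (false, 127, [0, 1, 2, 3, 4, 5, 10, 11, 6, 7, 8, 9]),
   (false, 127, [3, 2, 1, 0, 6, 7, 10, 11, 4, 5, 9, 8]),
   (false, 136, [6, 2, 1, 0, 3, 9, 4, 5, 10, 11, 7, 8]),
   (false, 136, [0, 1, 2, 3, 4, 5, 6, 7, 10, 11, 8, 9]),
   (false, 57, [0, 1, 2, 3, 4, 5, 6, 7, 8, 9, 10]),
   (false, 136, [3, 2, 1, 0, 6, 7, 4, 5, 10, 11, 9, 8]),
   (false, 57, [3, 2, 1, 0, 6, 7, 4, 5, 9, 8, 10]),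
   (false, 57, [4, 1, 2, 3, 0, 8, 6, 7, 5, 9, 10]),
   (false, 57, [6, 2, 1, 0, 3, 9, 4, 5, 7, 8, 10])],
  [(false, 138, [4, 1, 0, 8, 2, 3, 10, 11, 6, 7, 5, 9]),
   (false, 128, [0, 1, 2, 3, 4, 5, 10, 11, 6, 7, 8, 9]),
   (false, 131, [3, 2, 1, 0, 6, 7, 10, 11, 4, 5, 8, 9]),
   (false, 57, [0, 1, 2, 3, 4, 5, 6, 7, 8, 10, 9]),
   (false, 136, [0, 1, 4, 5, 2, 3, 10, 11, 6, 7, 8, 9]),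
   (false, 150, [0, 1, 2, 3, 4, 5, 6, 7, 9, 10, 11, 8]),
   (false, 140, [3, 2, 1, 0, 6, 7, 4, 5, 10, 11, 8, 9]),
   (false, 58, [0, 1, 2, 3, 4, 5, 6, 7, 8, 9, 10]),
   (false, 59, [0, 1, 2, 3, 4, 5, 6, 7, 8, 9, 10]),
   (false, 60, [0, 1, 2, 3, 4, 5, 6, 7, 8, 9, 10])],
  [(false, 137, [4, 1, 2, 3, 0, 8, 6, 7, 10, 11, 5, 9]),
   (false, 129, [0, 1, 2, 3, 4, 5, 10, 11, 6, 7, 8, 9]),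
   (false, 130, [3, 2, 1, 0, 6, 7, 10, 11, 4, 5, 8, 9]),
   (false, 57, [3, 2, 1, 0, 6, 7, 4, 5, 10, 8, 9]),
   (false, 137, [0, 1, 2, 3, 4, 5, 6, 7, 10, 11, 8, 9]),
   (false, 58, [0, 1, 2, 3, 4, 5, 6, 7, 8, 10, 9]),
   (false, 139, [3, 2, 1, 0, 6, 7, 4, 5, 10, 11, 8, 9]),
   (false, 151, [3, 2, 1, 0, 6, 7, 4, 5, 9, 10, 11, 8]),
   (false, 58, [4, 1, 2, 3, 0, 8, 6, 7, 5, 10, 9]),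
   (false, 61, [0, 1, 2, 3, 4, 5, 6, 7, 8, 9, 10])],
  [(false, 58, [0, 1, 2, 3, 4, 5, 6, 7, 10, 8, 9]),
   (false, 133, [0, 1, 2, 3, 4, 5, 10, 11, 6, 7, 8, 9]),
   (false, 133, [3, 2, 1, 0, 6, 7, 10, 11, 4, 5, 9, 8]),
   (false, 58, [3, 2, 1, 0, 6, 7, 4, 5, 10, 9, 8]),
   (false, 141, [0, 1, 4, 5, 2, 3, 10, 11, 6, 7, 8, 9]),
   (false, 152, [0, 1, 2, 3, 4, 5, 6, 7, 8, 10, 11, 9]),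
   (false, 141, [3, 2, 6, 7, 1, 0, 10, 11, 4, 5, 9, 8]),
   (false, 152, [3, 2, 1, 0, 6, 7, 4, 5, 9, 10, 11, 8]),
   (false, 62, [0, 1, 2, 3, 4, 5, 6, 7, 8, 9, 10]),
   (false, 62, [3, 2, 1, 0, 6, 7, 4, 5, 9, 8, 10])],
  [(false, 60, [0, 1, 2, 3, 4, 5, 6, 7, 10, 8, 9]),
   (false, 134, [0, 1, 2, 3, 4, 5, 10, 11, 6, 7, 8, 9]),
   (false, 135, [3, 2, 1, 0, 6, 7, 10, 11, 4, 5, 8, 9]),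
   (false, 61, [3, 2, 1, 0, 6, 7, 4, 5, 10, 8, 9]),
   (false, 140, [0, 1, 4, 10, 2, 3, 5, 8, 6, 7, 11, 9]),
   (false, 153, [0, 1, 2, 3, 4, 5, 6, 7, 8, 10, 11, 9]),
   (false, 143, [3, 2, 1, 0, 6, 7, 4, 5, 10, 11, 8, 9]),
   (false, 62, [0, 1, 2, 3, 4, 5, 6, 7, 8, 10, 9]),
   (false, 157, [0, 1, 2, 3, 4, 5, 6, 7, 8, 9, 10, 11]),
   (false, 63, [0, 1, 2, 3, 4, 5, 6, 7, 8, 9, 10])],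
  [(false, 150, [4, 1, 0, 9, 2, 3, 10, 11, 6, 7, 8, 5]),
   (false, 146, [0, 1, 2, 3, 4, 5, 10, 11, 6, 7, 8, 9]),
   (false, 136, [10, 2, 1, 0, 3, 6, 4, 5, 7, 8, 11, 9]),
   (false, 148, [6, 3, 2, 1, 7, 8, 10, 11, 0, 4, 5, 9]),
   (false, 150, [0, 1, 4, 5, 2, 3, 10, 11, 6, 7, 8, 9]),
   (false, 64, [0, 1, 2, 3, 4, 5, 6, 7, 8, 9, 10]),
   (false, 65, [0, 1, 2, 3, 4, 5, 6, 7, 8, 9, 10]),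
   (false, 153, [6, 3, 7, 8, 2, 1, 10, 11, 0, 4, 5, 9]),
   (false, 66, [0, 1, 2, 3, 4, 5, 6, 7, 8, 9, 10]),
   (false, 64, [4, 1, 2, 3, 0, 9, 6, 7, 8, 5, 10])],
  [(false, 64, [0, 1, 2, 3, 4, 5, 6, 7, 8, 10, 9]),
   (false, 147, [0, 1, 2, 3, 4, 5, 10, 11, 6, 7, 8, 9]),
   (false, 137, [10, 2, 1, 0, 3, 6, 4, 5, 7, 8, 11, 9]),
   (false, 149, [6, 3, 2, 1, 7, 8, 10, 11, 0, 4, 5, 9]),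
   (false, 151, [0, 1, 4, 5, 2, 3, 10, 11, 6, 7, 8, 9]),
   (false, 158, [0, 1, 2, 3, 4, 5, 6, 7, 8, 9, 10, 11]),
   (false, 66, [6, 3, 2, 1, 7, 8, 0, 4, 5, 10, 9]),
   (false, 154, [6, 3, 7, 8, 2, 1, 10, 11, 0, 4, 5, 9]),
   (false, 67, [0, 1, 2, 3, 4, 5, 6, 7, 8, 9, 10]),
   (false, 68, [0, 1, 2, 3, 4, 5, 6, 7, 8, 9, 10])],
  [(false, 69, [0, 1, 2, 3, 4, 5, 6, 7, 8, 9, 10]),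
   (false, 156, [0, 1, 2, 3, 4, 5, 10, 11, 6, 7, 8, 9]),
   (false, 150, [10, 2, 1, 0, 3, 6, 4, 5, 7, 8, 9, 11]),
   (false, 150, [10, 3, 6, 7, 2, 1, 8, 9, 0, 4, 5, 11]),
   (false, 157, [0, 1, 4, 5, 2, 3, 10, 11, 6, 7, 8, 9]),
   (false, 70, [0, 1, 2, 3, 4, 5, 6, 7, 8, 9, 10]),
   (false, 156, [7, 6, 3, 2, 8, 9, 10, 11, 1, 0, 4, 5]),
   (false, 69, [7, 6, 3, 2, 8, 9, 1, 0, 4, 5, 10]),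
   (false, 157, [7, 6, 8, 9, 3, 2, 10, 11, 1, 0, 4, 5]),
   (false, 70, [7, 6, 3, 2, 8, 9, 1, 0, 4, 5, 10])],
  [(false, 71, [0, 1, 2, 3, 4, 5, 6, 7, 8, 9, 10]),
   (false, 159, [0, 1, 2, 3, 4, 5, 6, 7, 8, 9, 10, 11]),
   (false, 160, [0, 1, 2, 3, 4, 5, 6, 7, 8, 9, 10, 11]),
   (false, 72, [0, 1, 2, 3, 4, 5, 6, 7, 8, 9, 10]),
   (false, 160, [0, 1, 4, 5, 2, 3, 6, 7, 8, 9, 10, 11]),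
   (false, 72, [0, 1, 4, 5, 2, 3, 6, 7, 8, 9, 10]),
   (false, 160, [0, 1, 6, 7, 2, 3, 4, 5, 8, 9, 10, 11]),
   (false, 72, [0, 1, 6, 7, 2, 3, 4, 5, 8, 9, 10]),
   (false, 160, [0, 1, 8, 9, 2, 3, 4, 5, 6, 7, 10, 11]),
   (false, 72, [0, 1, 8, 9, 2, 3, 4, 5, 6, 7, 10])],
  [(false, 73, [0, 1, 2, 3, 4, 5, 6, 7, 8, 9, 10]),
   (false, 160, [0, 1, 2, 3, 4, 5, 6, 7, 10, 11, 8, 9]),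
   (false, 161, [0, 1, 2, 3, 4, 5, 6, 7, 8, 9, 10, 11]),
   (false, 74, [0, 1, 2, 3, 4, 5, 6, 7, 8, 9, 10]),
   (false, 162, [0, 1, 2, 3, 4, 5, 6, 7, 8, 9, 10, 11]),
   (false, 75, [0, 1, 2, 3, 4, 5, 6, 7, 8, 9, 10]),
   (false, 162, [0, 1, 2, 3, 6, 7, 4, 5, 8, 9, 10, 11]),
   (false, 75, [0, 1, 2, 3, 6, 7, 4, 5, 8, 9, 10]),
   (false, 163, [0, 1, 2, 3, 4, 5, 6, 7, 8, 9, 10, 11]),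
   (false, 76, [0, 1, 2, 3, 4, 5, 6, 7, 8, 9, 10])],
  [(false, 77, [0, 1, 2, 3, 4, 5, 6, 7, 8, 9, 10]),
   (false, 162, [0, 1, 2, 3, 4, 5, 10, 11, 6, 7, 8, 9]),
   (false, 163, [3, 2, 1, 0, 6, 7, 10, 11, 4, 5, 8, 9]),
   (false, 78, [0, 1, 2, 3, 4, 5, 6, 7, 8, 9, 10]),
   (false, 163, [5, 4, 1, 0, 8, 9, 10, 11, 2, 3, 6, 7]),
   (false, 78, [0, 1, 4, 5, 2, 3, 8, 9, 6, 7, 10]),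
   (false, 164, [0, 1, 2, 3, 4, 5, 6, 7, 8, 9, 10, 11]),
   (false, 79, [0, 1, 2, 3, 4, 5, 6, 7, 8, 9, 10]),
   (false, 164, [0, 1, 4, 5, 2, 3, 8, 9, 6, 7, 10, 11]),
   (false, 79, [0, 1, 4, 5, 2, 3, 8, 9, 6, 7, 10])]]

theorem rows13_1 : rowsB L13 [] (some 13) L13_1 cert13_1 = true := by
  decide +kernel

end Pool.Agent.SA27
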