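import Pool.Agent.SA27.Bases
import Pool.Agent.SA32.Plus

set_option autoImplicit false

/-! Base facts for rooted gadgets. -/

namespace Pool.Agent.SA27

open SimpleGraph Pool.Agent.SA33 Pool.Agent.SA97 Pool.Agent.SA32

/-- The rooted tree `b.1` has a rooted gadget for every graph containing one of the trees `b.2`. -/
def RootBaseOK (b : List ℕ × List (List ℕ)) : Prop :=
  ∀ (h0 : 0 < b.1.length) {τ : Type} (T : SimpleGraph τ) (k : ℕ), 3 ≤ k →
    (∃ p ∈ b.2, Nonempty (ptree p ↪g T)) → RootGood T k (ptree b.1) ⟨0, h0⟩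

/-- root 0, leaf 1, child 2 with leaf 3 and path 4 - 5 -/
def rb1 : List ℕ × List (List ℕ) :=
  ([0, 0, 0, 2, 2, 4], [[0, 0, 1, 2, 1, 4, 2, 6, 4, 8], [0, 0, 1, 2, 0, 0, 5, 3, 5, 8]])

/-- root 0, leaf 1, child 2 with leaf 3 and path 4 - 5 - 6 -/
def rb2 : List ℕ × List (List ℕ) :=
  ([0, 0, 0, 2, 2, 4, 5], [[0, 0, 1, 2, 0, 0, 5, 5, 7, 7, 9, 10]])

end Pool.Agent.SA27
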