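import Pool.Agent.SA27.Half
import Pool.Agent.SA32.G2
import Pool.Agent.SA58.GadG
import Pool.Agent.SA33.Half

set_option autoImplicit false

/-! Certificates for `EdgeGood` and `PlusGood` of a tree given by a parent list. -/

namespace Pool.Agent.SA27

open SimpleGraph Pool.Agent.SA33 Pool.Agent.SA36 Pool.Agent.SA97 Pool.Agent.SA32 Pool.Agent.SA58

/-! ### Auxiliary facts -/

theorem rootGood_contains {τ τ' : Type*} {T : SimpleGraph τ} {T' : SimpleGraph τ'} {k : ℕ}
    {σ : Type*} {S : SimpleGraph σ} {s : σ} (h : RootGood T k S s) (e : T ↪g T') :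
    RootGood T' k S s := by
  obtain ⟨n, F, x0, hF, hr⟩ := h
  exact ⟨n, F, x0, ⟨⟨fun f => hF.1.false (e.trans f)⟩, hF.2⟩, hr⟩

/-- Being adjacent to a further vertex, from a list. -/
theorem root_adj {h : List ℕ} (h2 : 2 ≤ h.length) (h1 : h.getD 1 1 = 0) (h0 : 0 < h.length) :
    (ptree h).Adj ⟨0, h0⟩ ⟨1, h2⟩ := by
  change padj h 0 1 = true
  unfold padj
  have h3 : h.getD 1 0 = 0 := by
    rw [List.getD_eq_getElem _ _ h2] at h1 ⊢
    exact h1
  rw [h3]
  rfl

/-! ### Certificates for `PG` -/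

/-- A certificate for a half: it is `upN m st`; `st` is `[0,0]` or embeds in the base number `j`,
whose pattern number `i` embeds in the tree. -/
structure HC where
  m : ℕ
  st : List ℕ
  leaf : Bool
  j : ℕ
  i : ℕ
  τ : List ℕ
  ρ : List ℕ
  deriving Inhabited

/-- At least two vertices, the second one attached to the root. -/
def root2B (h : List ℕ) : Bool := Nat.ble 2 h.length && Nat.beq (h.getD 1 1) 0

theorem root2B_spec {h : List ℕ} (hB : root2B h = true) : 2 ≤ h.length ∧ h.getD 1 1 = 0 := by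
  unfold root2B at hB
  rw [Bool.and_eq_true] at hB
  exact ⟨Nat.le_of_ble_eq_true hB.1, Nat.eq_of_beq_eq_true hB.2⟩

theorem root2B_up {s : List ℕ} (h : 0 < s.length) : root2B (up s) = true := by
  unfold root2B
  rw [Bool.and_eq_true]
  refine ⟨Nat.ble_eq_true_of_le (by rw [up_length h]; omega), ?_⟩
  unfold up
  rfl

/-- The certified half. -/
def HC.list (c : HC) : List ℕ := upN c.m c.st

/-- Check of a certificate for `PG`. -/
def pgB (bases : List (List ℕ × List (List ℕ))) (q : List ℕ) (c : HC) : Bool :=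
  root2B c.st && cond c.leaf (c.st == [0, 0])
    (Nat.blt c.j bases.length && (Nat.blt 0 (bases.getD c.j ([], [])).1.length &&
      (Nat.blt c.i (bases.getD c.j ([], [])).2.length &&
      (embB c.st (bases.getD c.j ([], [])).1 c.τ && (Nat.beq (c.τ.getD 0 0) 0 &&
      embB ((bases.getD c.j ([], [])).2.getD c.i []) q c.ρ)))))

/-- The base facts. -/
def BaseOK (b : List ℕ × List (List ℕ)) : Prop :=
  ∀ (h0 : 0 < b.1.length) {τ : Type} (T : SimpleGraph τ) (k : ℕ), 3 ≤ k →
    (∃ p ∈ b.2, Nonempty (ptree p ↪g T)) → Good T k (ptree b.1) ⟨0, h0⟩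

theorem pgB_spec {bases : List (List ℕ × List (List ℕ))} (hb : ∀ b ∈ bases, BaseOK b)
    {q : List ℕ} {c : HC} (h : pgB bases q c = true) {k : ℕ} (hk : 3 ≤ k) :
    PGL (ptree q) k c.list := by
  unfold pgB at h
  rw [Bool.and_eq_true] at h
  obtain ⟨h1, h2⟩ := h
  have hst := root2B_spec h1
  have hbase : PGL (ptree q) k c.st := by
    cases hleaf : c.leaf
    · rw [hleaf, cond_false] at h2
      simp only [Bool.and_eq_true] at h2
      obtain ⟨k1, k2, k3, k4, k5, k6⟩ := h2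
      have k1' : c.j < bases.length := Nat.le_of_ble_eq_true k1
      have k2' : 0 < (bases.getD c.j ([], [])).1.length := Nat.le_of_ble_eq_true k2
      have k3' : c.i < (bases.getD c.j ([], [])).2.length := Nat.le_of_ble_eq_true k3
      have hmem : bases.getD c.j ([], []) ∈ bases := by
        rw [List.getD_eq_getElem _ _ k1']
        exact List.getElem_mem _
      have hmem2 : (bases.getD c.j ([], [])).2.getD c.i [] ∈ (bases.getD c.j ([], [])).2 := by
        rw [List.getD_eq_getElem _ _ k3']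
        exact List.getElem_mem _
      exact pgl_good k2' (hb _ hmem k2' _ k hk ⟨_, hmem2, embB_emb k6⟩) (by omega) k4
        (Nat.eq_of_beq_eq_true k5)
    · rw [hleaf, cond_true] at h2
      rw [eq_of_beq h2]
      exact pgl_leaf
  -- iterate `up`
  have hup : ∀ m, PGL (ptree q) k (upN m c.st) ∧ root2B (upN m c.st) = true := by
    intro m
    induction m with
    | zero => exact ⟨hbase, h1⟩
    | succ m ih =>
      obtain ⟨i1, i2⟩ := ih
      have h3 := root2B_spec i2
      exact ⟨pgl_up i1 h3.1 h3.2, root2B_up (by omega)⟩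
  exact (hup c.m).1

theorem pgB_root2 {bases : List (List ℕ × List (List ℕ))} {q : List ℕ} {c : HC}
    (h : pgB bases q c = true) : root2B c.list = true := by
  unfold pgB at h
  rw [Bool.and_eq_true] at h
  have h1 := h.1
  have hup : ∀ m, root2B (upN m c.st) = true := by
    intro m
    induction m with
    | zero => exact h1
    | succ m ih => exact root2B_up (by have := (root2B_spec ih).1; omega)
  exact hup c.m

/-! ### Certificates for `EdgeGood` -/

/-- An edge `ab`, certificates for the two halves, and tables of the halves. -/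
structure EC where
  a : ℕ
  b : ℕ
  c1 : HC
  σ1 : List ℕ
  c2 : HC
  σ2 : List ℕ
  deriving Inhabited

/-- Check of an `EdgeGood` certificate. -/
def edgeB (bases : List (List ℕ × List (List ℕ))) (q : List ℕ) (c : EC) : Bool :=
  pgB bases q c.c1 && (pgB bases q c.c2 && (halfB q c.c1.list c.σ1 c.a c.b &&
    halfB q c.c2.list c.σ2 c.b c.a))

theorem edgeB_spec {bases : List (List ℕ × List (List ℕ))} (hb : ∀ b ∈ bases, BaseOK b)
    {q : List ℕ} {c : EC} (h : edgeB bases q c = true) (hT : (ptree q).IsTree) {k : ℕ}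
    (hk : 3 ≤ k) : EdgeGood (ptree q) k := by
  unfold edgeB at h
  simp only [Bool.and_eq_true] at h
  obtain ⟨k1, k2, k3, k4⟩ := h
  obtain ⟨h0, ha, hb', hab, e1, he1⟩ := SA27.half_iso hT k3
  obtain ⟨h0', hb'', ha', hba, e2, he2⟩ := SA27.half_iso hT k4
  obtain ⟨w1, p1⟩ := pgB_spec hb k1 hk
  obtain ⟨w2, p2⟩ := pgB_spec hb k2 hk
  have r1 := root2B_spec (pgB_root2 k1)
  have r2 := root2B_spec (pgB_root2 k2)
  have n1 := root_adj r1.1 r1.2 h0
  have n2 := root_adj r2.1 r2.2 h0'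
  rw [← e1.map_adj_iff, he1] at n1
  rw [← e2.map_adj_iff, he2] at n2
  refine edgeGood_of_halves hT hab ?_ ?_ ?_ ?_
  · refine ⟨(e1 ⟨1, r1.1⟩).1, ?_, n1⟩
    intro h
    have hx := (e1 ⟨1, r1.1⟩).2
    rw [h] at hx
    exact not_mem_hf hT.2 hab hx
  · refine ⟨(e2 ⟨1, r2.1⟩).1, ?_, n2⟩
    intro h
    have hx := (e2 ⟨1, r2.1⟩).2
    rw [h] at hx
    exact not_mem_hf hT.2 hba hx
  · rw [← he1]
    exact p1.iso e1
  · rw [← he2]
    exact p2.iso e2

/-! ### Certificates for `PlusGood` -/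

/-- The skeleton as a parent list: root 0, leaf 1, `m` legs with 4 vertices. -/
def skL : ℕ → List ℕ
  | 1 => [0, 0, 0, 2, 3, 4]
  | 2 => [0, 0, 0, 2, 3, 4, 0, 6, 7, 8]
  | 3 => [0, 0, 0, 2, 3, 4, 0, 6, 7, 8, 0, 10, 11, 12]
  | _ => []

instance skDec (q : ℕ) : DecidableRel (sk q).Adj := fun a b =>
  match a, b with
  | .c, .c => isFalse (fun h => h)
  | .c, .p _ i => inferInstanceAs (Decidable (i = 0))
  | .c, .l => isTrue trivial
  | .p _ i, .c => inferInstanceAs (Decidable (i = 0))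
  | .p t i, .p t' j => inferInstanceAs (Decidable (t = t' ∧ ((i : ℕ) + 1 = j ∨ (j : ℕ) + 1 = i)))
  | .p _ _, .l => isFalse (fun h => h)
  | .l, .c => isTrue trivial
  | .l, .p _ _ => isFalse (fun h => h)
  | .l, .l => isFalse (fun h => h)

instance (q : ℕ) : DecidableEq (Sk q) := fun a b =>
  match a, b with
  | .c, .c => isTrue rfl
  | .c, .p _ _ => isFalse (fun h => by cases h)
  | .c, .l => isFalse (fun h => by cases h)
  | .p _ _, .c => isFalse (fun h => by cases h)
  | .p t i, .p t' j => decidable_of_iff (t = t' ∧ i = j) (by rw [Sk.p.injEq])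
  | .p _ _, .l => isFalse (fun h => by cases h)
  | .l, .c => isFalse (fun h => by cases h)
  | .l, .p _ _ => isFalse (fun h => by cases h)
  | .l, .l => isTrue rfl

/-- Table of the skeleton. -/
def skT (m : ℕ) [NeZero m] (i : ℕ) : Sk m :=
  if i = 0 then .c else if i = 1 then .l else .p (Fin.ofNat m ((i - 2) / 4)) (Fin.ofNat 4 ((i - 2) % 4))

theorem skL_emb1 : ∃ e : ptree (skL 1) ↪g sk 1, e ⟨0, by decide⟩ = .c := by
  obtain ⟨φ, hφ⟩ := embed_of (n := 6) (tree 6 [0, 0, 0, 2, 3, 4]) (sk 1) (fun i => skT 1 i)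
    (by decide +kernel) (by decide +kernel)
  exact ⟨φ, hφ _⟩

theorem skL_emb2 : ∃ e : ptree (skL 2) ↪g sk 2, e ⟨0, by decide⟩ = .c := by
  obtain ⟨φ, hφ⟩ := embed_of (n := 10) (tree 10 [0, 0, 0, 2, 3, 4, 0, 6, 7, 8]) (sk 2)
    (fun i => skT 2 i) (by decide +kernel) (by decide +kernel)
  exact ⟨φ, hφ _⟩

theorem skL_emb3 : ∃ e : ptree (skL 3) ↪g sk 3, e ⟨0, by decide⟩ = .c := by
  obtain ⟨φ, hφ⟩ := embed_of (n := 14) (tree 14 [0, 0, 0, 2, 3, 4, 0, 6, 7, 8, 0, 10, 11, 12])
    (sk 3) (fun i => skT 3 i) (by decide +kernel) (by decide +kernel)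
  exact ⟨φ, hφ _⟩

/-- A rooted embedding from a table. -/
theorem embB_root {s s' σ : List ℕ} (h0 : 0 < s.length) (h0' : 0 < s'.length)
    (hσ : embB s s' σ = true) (hσ0 : σ.getD 0 0 = 0) :
    ∃ φ : ptree s ↪g ptree s', φ ⟨0, h0⟩ = ⟨0, h0'⟩ := by
  have hlt : ∀ b : Fin s.length, σ.getD b.1 0 < s'.length := by
    intro b
    have h1 := allB_spec hσ b.2
    rw [Bool.and_eq_true] at h1
    exact Nat.le_of_ble_eq_true h1.1
  obtain ⟨φ, hφ⟩ := embed_of (ptree s) (ptree s') (fun b => ⟨σ.getD b.1 0, hlt b⟩) (by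
    intro i j hij
    have h1 := allB_spec hσ j.2
    rw [Bool.and_eq_true] at h1
    have h2 := allB_spec h1.2 hij
    rw [Bool.and_eq_true, beq_iff_eq] at h2
    change padj s' (σ.getD i.1 0) (σ.getD j.1 0) = true ↔ padj s i.1 j.1 = true
    rw [h2.2]) (by
    intro i j hij heq
    have h1 := allB_spec hσ j.2
    rw [Bool.and_eq_true] at h1
    have h2 := allB_spec h1.2 hij
    rw [Bool.and_eq_true] at h2
    have h3 : σ.getD i.1 0 = σ.getD j.1 0 := congrArg Fin.val heq
    rw [h3, Nat.beq_refl] at h2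
    exact absurd h2.1 (by decide))
  refine ⟨φ, ?_⟩
  rw [hφ]
  exact Fin.ext hσ0

/-- Different numbers. -/
def neB (a b : ℕ) : Bool := !(Nat.beq a b)

theorem neB_spec {a b : ℕ} (h : neB a b = true) : a ≠ b := by
  rintro rfl
  unfold neB at h
  rw [Nat.beq_refl] at h
  exact absurd h (by decide)

/-- Check of the hypotheses of Theorem W. -/
def wB (q : List ℕ) (x m : ℕ) (bs bs' : List ℕ) : Bool :=
  Nat.blt x q.length && allB (m + 1) fun i =>
    Nat.blt (bs.getD i 0) q.length && (Nat.blt (bs'.getD i 0) q.length &&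
    (padj q x (bs.getD i 0) && (padj q (bs.getD i 0) (bs'.getD i 0) &&
    (neB (bs'.getD i 0) x && allB i fun j => neB (bs.getD j 0) (bs.getD i 0)))))

theorem wB_spec {q : List ℕ} {x m : ℕ} {bs bs' : List ℕ} (h : wB q x m bs bs' = true)
    (hT : (ptree q).IsTree) {k : ℕ} (hk : 3 ≤ k) (hm : 2 ≤ m) :
    RootGood (ptree q) k (sk m) .c := by
  unfold wB at h
  rw [Bool.and_eq_true] at h
  have hx : x < q.length := Nat.le_of_ble_eq_true h.1
  have key : ∀ i : Fin (m + 1), bs.getD i 0 < q.length ∧ bs'.getD i 0 < q.length ∧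
      padj q x (bs.getD i 0) = true ∧ padj q (bs.getD i 0) (bs'.getD i 0) = true ∧
      bs'.getD i 0 ≠ x ∧ ∀ j < i.1, bs.getD j 0 ≠ bs.getD i 0 := by
    intro i
    have h1 := allB_spec h.2 i.2
    simp only [Bool.and_eq_true] at h1
    obtain ⟨k1, k2, k3, k4, k5, k6⟩ := h1
    exact ⟨Nat.le_of_ble_eq_true k1, Nat.le_of_ble_eq_true k2, k3, k4, neB_spec k5,
      fun j hj => neB_spec (allB_spec k6 hj)⟩
  refine rootGood_W (x := (⟨x, hx⟩ : Fin q.length)) hT.2 hk hm
    (b := fun i => ⟨bs.getD i 0, (key i).1⟩) (b' := fun i => ⟨bs'.getD i 0, (key i).2.1⟩)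
    ?_ (fun i => (key i).2.2.1) (fun i => (key i).2.2.2.1) ?_
  · intro i j hij
    have hij' : bs.getD i 0 = bs.getD j 0 := congrArg Fin.val hij
    rcases lt_trichotomy i j with h1 | h1 | h1
    · exact absurd hij' ((key j).2.2.2.2.2 _ h1)
    · exact h1
    · exact absurd hij'.symm ((key i).2.2.2.2.2 _ h1)
  · intro i hi
    exact (key i).2.2.2.2.1 (congrArg Fin.val hi)

/-- One condition of criterion (4). -/
def condB (q : List ℕ) (z c : ℕ) (l : List ℕ) : Bool :=
  Nat.blt (l.getD 0 0) q.length && (Nat.blt (l.getD 1 0) q.length &&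
  (Nat.blt (l.getD 2 0) q.length && (Nat.blt (l.getD 3 0) q.length &&
  (padj q (l.getD 0 0) (l.getD 1 0) && (padj q (l.getD 2 0) (l.getD 3 0) &&
  (cond (Nat.beq (l.getD 4 0) 0)
    (padj q z (l.getD 0 0) && (padj q z (l.getD 2 0) && (neB (l.getD 0 0) (l.getD 2 0) &&
      (neB (l.getD 1 0) z && neB (l.getD 3 0) z))))
    (!(padj q (l.getD 0 0) (l.getD 2 0)) && (!(padj q (l.getD 0 0) (l.getD 3 0)) &&
    (!(padj q (l.getD 1 0) (l.getD 2 0)) && (!(padj q (l.getD 1 0) (l.getD 3 0)) &&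
    (neB (l.getD 0 0) z && (neB (l.getD 1 0) z && (neB (l.getD 2 0) z && (neB (l.getD 3 0) z &&
    (neB (l.getD 0 0) c && (neB (l.getD 1 0) c && (neB (l.getD 2 0) c &&
      neB (l.getD 3 0) c)))))))))))))))))

/-- Three pairwise anticomplete edges. -/
def antiB (q l : List ℕ) : Bool :=
  allB 3 fun i => Nat.blt (l.getD (2 * i) 0) q.length && (Nat.blt (l.getD (2 * i + 1) 0) q.length &&
    (padj q (l.getD (2 * i) 0) (l.getD (2 * i + 1) 0) && allB 3 fun j => Nat.beq i j ||
      (!(padj q (l.getD (2 * i) 0) (l.getD (2 * j) 0)) &&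
      (!(padj q (l.getD (2 * i) 0) (l.getD (2 * j + 1) 0)) &&
      (!(padj q (l.getD (2 * i + 1) 0) (l.getD (2 * j) 0)) &&
      !(padj q (l.getD (2 * i + 1) 0) (l.getD (2 * j + 1) 0)))))))

/-- Check of criterion (4). -/
def c4B (q l : List ℕ) (cc : List (List (List ℕ))) : Bool :=
  antiB q l && allB q.length fun z => allB q.length fun c =>
    !(padj q z c) || condB q z c ((cc.getD z []).getD c [])

theorem c4B_spec {q l : List ℕ} {cc : List (List (List ℕ))} (h : c4B q l cc = true)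
    (hT : (ptree q).IsTree) {k : ℕ} (hk : 3 ≤ k) : RootGood (ptree q) k (sk 1) .c := by
  unfold c4B at h
  rw [Bool.and_eq_true] at h
  obtain ⟨h1, h2⟩ := h
  have key : ∀ i : Fin 3, l.getD (2 * i.1) 0 < q.length ∧ l.getD (2 * i.1 + 1) 0 < q.length ∧
      padj q (l.getD (2 * i.1) 0) (l.getD (2 * i.1 + 1) 0) = true ∧ ∀ j : Fin 3, i ≠ j →
      padj q (l.getD (2 * i.1) 0) (l.getD (2 * j.1) 0) = false ∧
      padj q (l.getD (2 * i.1) 0) (l.getD (2 * j.1 + 1) 0) = false ∧
      padj q (l.getD (2 * i.1 + 1) 0) (l.getD (2 * j.1) 0) = false ∧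
      padj q (l.getD (2 * i.1 + 1) 0) (l.getD (2 * j.1 + 1) 0) = false := by
    intro i
    have h3 := allB_spec h1 i.2
    simp only [Bool.and_eq_true] at h3
    obtain ⟨k1, k2, k3, k4⟩ := h3
    refine ⟨Nat.le_of_ble_eq_true k1, Nat.le_of_ble_eq_true k2, k3, fun j hij => ?_⟩
    have h4 := allB_spec k4 j.2
    simp only [Bool.or_eq_true, Bool.and_eq_true, Bool.not_eq_true'] at h4
    rcases h4 with h4 | h4
    · exact absurd (Fin.ext (Nat.eq_of_beq_eq_true h4)) hij
    · exact h4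
  refine rootGood_sk hk (crit1 hT.2 hT.1 hk
    (a := fun i : Fin 3 => (⟨l.getD (2 * i.1) 0, (key i).1⟩ : Fin q.length))
    (a' := fun i : Fin 3 => ⟨l.getD (2 * i.1 + 1) 0, (key i).2.1⟩) (fun i => (key i).2.2.1) ?_ ?_)
  · intro i j hij
    obtain ⟨m1, m2, m3, m4⟩ := (key i).2.2.2 j hij
    refine ⟨?_, ?_, ?_, ?_⟩
    · change ¬ (padj q (l.getD (2 * i.1) 0) (l.getD (2 * j.1) 0) = true)
      rw [m1]; decide
    · change ¬ (padj q (l.getD (2 * i.1) 0) (l.getD (2 * j.1 + 1) 0) = true)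
      rw [m2]; decide
    · change ¬ (padj q (l.getD (2 * i.1 + 1) 0) (l.getD (2 * j.1) 0) = true)
      rw [m3]; decide
    · change ¬ (padj q (l.getD (2 * i.1 + 1) 0) (l.getD (2 * j.1 + 1) 0) = true)
      rw [m4]; decide
  · intro z c hzc
    have h3 := allB_spec (allB_spec h2 z.2) c.2
    have hzc' : padj q z.1 c.1 = true := hzc
    rw [hzc', Bool.not_true, Bool.false_or] at h3
    generalize (cc.getD z.1 []).getD c.1 [] = r at h3
    unfold condB at h3
    simp only [Bool.and_eq_true] at h3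
    obtain ⟨n1, n2, n3, n4, n5, n6, n7⟩ := h3
    have n1' : r.getD 0 0 < q.length := Nat.le_of_ble_eq_true n1
    have n2' : r.getD 1 0 < q.length := Nat.le_of_ble_eq_true n2
    have n3' : r.getD 2 0 < q.length := Nat.le_of_ble_eq_true n3
    have n4' : r.getD 3 0 < q.length := Nat.le_of_ble_eq_true n4
    have hnadj : ∀ u w : Fin q.length, (!(padj q u.1 w.1)) = true → ¬ (ptree q).Adj u w := by
      intro u w h h'
      change padj q u.1 w.1 = true at h'
      rw [h'] at h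
      exact absurd h (by decide)
    cases hkind : Nat.beq (r.getD 4 0) 0
    · rw [hkind, cond_false] at n7
      simp only [Bool.and_eq_true] at n7
      obtain ⟨o1, o2, o3, o4, p1, p2, p3, p4, p5, p6, p7, p8⟩ := n7
      refine Or.inr ⟨⟨_, n1'⟩, ⟨_, n2'⟩, ⟨_, n3'⟩, ⟨_, n4'⟩, n5, n6, hnadj _ _ o1, hnadj _ _ o2,
        hnadj _ _ o3, hnadj _ _ o4, ?_, ?_, ?_, ?_, ?_, ?_, ?_, ?_⟩
      · exact fun h => neB_spec p1 (congrArg Fin.val h)
      · exact fun h => neB_spec p2 (congrArg Fin.val h)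
      · exact fun h => neB_spec p3 (congrArg Fin.val h)
      · exact fun h => neB_spec p4 (congrArg Fin.val h)
      · exact fun h => neB_spec p5 (congrArg Fin.val h)
      · exact fun h => neB_spec p6 (congrArg Fin.val h)
      · exact fun h => neB_spec p7 (congrArg Fin.val h)
      · exact fun h => neB_spec p8 (congrArg Fin.val h)
    · rw [hkind, cond_true] at n7
      simp only [Bool.and_eq_true] at n7
      obtain ⟨o1, o2, p1, p2, p3⟩ := n7
      refine Or.inl ⟨⟨_, n1'⟩, ⟨_, n3'⟩, ⟨_, n2'⟩, ⟨_, n4'⟩, o1, o2, ?_, n5, n6, ?_, ?_⟩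
      · exact fun h => neB_spec p1 (congrArg Fin.val h)
      · exact fun h => neB_spec p2 (congrArg Fin.val h)
      · exact fun h => neB_spec p3 (congrArg Fin.val h)

/-- A `PlusGood` certificate. -/
structure PC where
  x : ℕ
  b1 : ℕ
  br : List (HC × List ℕ)
  hx : List ℕ
  σx : List ℕ
  kind : ℕ
  m : ℕ
  τ : List ℕ
  bs : List ℕ
  bs' : List ℕ
  cc : List (List (List ℕ))
  deriving Inhabited

/-- The rooted part of a `PlusGood` certificate. -/
def rootB (q : List ℕ) (c : PC) : Bool :=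
  Nat.beq (c.τ.getD 0 0) 0 && match c.kind with
    | 0 => Nat.ble 2 c.m && (Nat.ble c.m 3 && (wB q c.x c.m c.bs c.bs' && embB c.hx (skL c.m) c.τ))
    | 1 => c4B q c.bs c.cc && embB c.hx (skL 1) c.τ
    | _ => embB [0, 0, 0, 0, 1, 2] q c.bs && embB c.hx [0, 0, 0, 2] c.τ

theorem rootB_spec {q : List ℕ} {c : PC} (h : rootB q c = true) (hT : (ptree q).IsTree) {k : ℕ}
    (hk : 3 ≤ k) (h0 : 0 < c.hx.length) : RootGood (ptree q) k (ptree c.hx) ⟨0, h0⟩ := by
  unfold rootB at h
  rw [Bool.and_eq_true] at h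
  obtain ⟨h1, h2⟩ := h
  have hτ : c.τ.getD 0 0 = 0 := Nat.eq_of_beq_eq_true h1
  split at h2
  · simp only [Bool.and_eq_true] at h2
    obtain ⟨k1, k2, k3, k4⟩ := h2
    have hm2 : 2 ≤ c.m := Nat.le_of_ble_eq_true k1
    have hm3 : c.m ≤ 3 := Nat.le_of_ble_eq_true k2
    have hr := wB_spec k3 hT hk hm2
    generalize hm : c.m = m at hr hm2 hm3 k4
    have hcases : m = 2 ∨ m = 3 := by omega
    rcases hcases with rfl | rfl
    · obtain ⟨φ, hφ⟩ := embB_root h0 (by decide) k4 hτ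
      obtain ⟨ψ, hψ⟩ := skL_emb2
      exact (hr.mono ψ hψ).mono φ hφ
    · obtain ⟨φ, hφ⟩ := embB_root h0 (by decide) k4 hτ
      obtain ⟨ψ, hψ⟩ := skL_emb3
      exact (hr.mono ψ hψ).mono φ hφ
  · simp only [Bool.and_eq_true] at h2
    obtain ⟨k1, k2⟩ := h2
    obtain ⟨φ, hφ⟩ := embB_root h0 (by decide) k2 hτ
    obtain ⟨ψ, hψ⟩ := skL_emb1
    exact ((c4B_spec k1 hT hk).mono ψ hψ).mono φ hφ
  · simp only [Bool.and_eq_true] at h2
    obtain ⟨k1, k2⟩ := h2
    obtain ⟨φ, hφ⟩ := embB_root h0 (by decide) k2 hτ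
    obtain ⟨e⟩ := embB_emb k1
    have hr : RootGood (ptree q) k B21 (0 : Fin 4) := rootGood_contains (rootGood_S221 hk) e
    exact hr.mono φ hφ

/-- Check of a `PlusGood` certificate. -/
def plusB (bases : List (List ℕ × List (List ℕ))) (q : List ℕ) (c : PC) : Bool :=
  halfB q c.hx c.σx c.x c.b1 && (root2B c.hx && (rootB q c && (!(leafB q c.b1) &&
    allB q.length fun b => !(padj q b c.x) || (leafB q b ||
      (pgB bases q (c.br.getD b default).1 &&
        halfB q (c.br.getD b default).1.list (c.br.getD b default).2 b c.x)))))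

theorem plusB_spec {bases : List (List ℕ × List (List ℕ))} (hb : ∀ b ∈ bases, BaseOK b)
    {q : List ℕ} {c : PC} (h : plusB bases q c = true) (hT : (ptree q).IsTree) {k : ℕ}
    (hk : 3 ≤ k) : PlusGood (ptree q) k := by
  unfold plusB at h
  simp only [Bool.and_eq_true] at h
  obtain ⟨k1, k2, k3, k4, k5⟩ := h
  obtain ⟨h0, hx, hb1, hxb, e, he⟩ := SA27.half_iso hT k1
  have r := root2B_spec k2
  have hroot := rootB_spec k3 hT hk h0
  -- nonleaf neighbours
  have hnl : ∀ b : Fin q.length, leafB q b = false → ∃ y, y ≠ (⟨c.x, hx⟩ : Fin q.length) ∧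
      (ptree q).Adj b y := by
    intro b hleaf
    have h2 : 2 ≤ degB q b q.length := by
      by_contra hcon
      have : leafB q b = true := Nat.ble_eq_true_of_le (by omega)
      rw [this] at hleaf
      exact absurd hleaf (by decide)
    obtain ⟨j, j', hj, hj', hne, a1, a2⟩ := degB_two h2
    by_cases hjx : j = c.x
    · exact ⟨⟨j', hj'⟩, fun h => hne (hjx.trans (congrArg Fin.val h).symm), a2⟩
    · exact ⟨⟨j, hj⟩, fun h => hjx (congrArg Fin.val h), a1⟩
  have hleafb1 : leafB q c.b1 = false := by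
    cases h : leafB q c.b1
    · rfl
    · rw [h] at k4; exact absurd k4 (by decide)
  refine ⟨⟨c.x, hx⟩, ⟨c.b1, hb1⟩, hxb.symm, hnl ⟨c.b1, hb1⟩ hleafb1, ?_, ?_, ?_⟩
  · have n1 := root_adj r.1 r.2 h0
    rw [← e.map_adj_iff, he] at n1
    refine ⟨(e ⟨1, r.1⟩).1, ?_, n1.symm⟩
    intro h
    have hx := (e ⟨1, r.1⟩).2
    rw [h] at hx
    exact not_mem_hf hT.2 hxb hx
  · intro b hbx hby
    obtain ⟨y, hyx, hby⟩ := hby
    have h3 := allB_spec k5 b.2
    have hbx' : padj q b.1 c.x = true := hbx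
    have hlb : leafB q b.1 = false := by
      rw [Bool.eq_false_iff]
      intro hl
      have h4 := Nat.le_of_ble_eq_true hl
      have h5 := degB_two_le y.2 hx (fun h => hyx (Fin.ext h)) hby hbx'
      omega
    rw [hbx', hlb, Bool.not_true, Bool.false_or, Bool.false_or, Bool.and_eq_true] at h3
    obtain ⟨m1, m2⟩ := h3
    obtain ⟨w1, p1⟩ := pgB_spec hb m1 hk
    obtain ⟨g0, hb', hx', -, e1, he1⟩ := SA27.half_iso hT m2
    have := p1.iso e1
    rw [he1] at this
    exact this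
  · refine hroot.mono e.symm.toEmbedding ?_
    change e.symm _ = _
    rw [← he, e.symm_apply_apply]

end Pool.Agent.SA27
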