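import Pool.Agent.SA27.Enum

set_option autoImplicit false

/-! The kernel check for the enumeration of twin-free trees. -/

namespace Pool.Agent.SA27

open SimpleGraph Pool.Agent.SA33 Pool.Agent.SA97

universe u

/-- `f i` for all `i < n`. -/
def allB : ℕ → (ℕ → Bool) → Bool
  | 0, _ => true
  | n + 1, f => f n && allB n f

theorem allB_spec {n : ℕ} {f : ℕ → Bool} (h : allB n f = true) {i : ℕ} (hi : i < n) :
    f i = true := by
  induction n with
  | zero => exact absurd hi (Nat.not_lt_zero _)
  | succ n ih =>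
    unfold allB at h
    rw [Bool.and_eq_true] at h
    rcases Nat.lt_succ_iff_lt_or_eq.1 hi with h1 | h1
    · exact ih h.2 h1
    · rw [h1]; exact h.1

/-- The number of neighbours of `i` below `n`. -/
def degB (q : List ℕ) (i : ℕ) : ℕ → ℕ
  | 0 => 0
  | n + 1 => cond (padj q i n) (degB q i n + 1) (degB q i n)

theorem degB_pos {q : List ℕ} {i n : ℕ} (h : 1 ≤ degB q i n) : ∃ j, j < n ∧ padj q i j = true := by
  induction n with
  | zero => exact absurd h (by simp [degB])
  | succ n ih =>
    by_cases hp : padj q i n = true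
    · exact ⟨n, Nat.lt_succ_self n, hp⟩
    · rw [Bool.not_eq_true] at hp
      rw [degB, hp, cond_false] at h
      obtain ⟨j, h1, h2⟩ := ih h
      exact ⟨j, Nat.lt_succ_of_lt h1, h2⟩

theorem degB_two {q : List ℕ} {i n : ℕ} (h : 2 ≤ degB q i n) :
    ∃ j j', j < n ∧ j' < n ∧ j ≠ j' ∧ padj q i j = true ∧ padj q i j' = true := by
  induction n with
  | zero => exact absurd h (by simp [degB])
  | succ n ih =>
    by_cases hp : padj q i n = true
    · rw [degB, hp, cond_true] at h
      obtain ⟨j, h1, h2⟩ := degB_pos (show 1 ≤ degB q i n by omega)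
      exact ⟨j, n, by omega, by omega, by omega, h2, hp⟩
    · rw [Bool.not_eq_true] at hp
      rw [degB, hp, cond_false] at h
      obtain ⟨j, j', h1, h2, h3, h4, h5⟩ := ih h
      exact ⟨j, j', by omega, by omega, h3, h4, h5⟩

theorem degB_le {q : List ℕ} {i n m : ℕ} (h : n ≤ m) : degB q i n ≤ degB q i m := by
  induction m with
  | zero => rw [Nat.le_zero.1 h]
  | succ m ih =>
    rcases Nat.le_succ_iff.1 h with h1 | h1
    · refine (ih h1).trans ?_
      rw [degB]
      cases padj q i m
      · exact le_rfl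
      · exact Nat.le_succ _
    · rw [h1]

theorem degB_one_le {q : List ℕ} {i n j : ℕ} (hj : j < n) (hp : padj q i j = true) :
    degB q i j + 1 ≤ degB q i n := by
  refine le_trans ?_ (degB_le (n := j + 1) hj)
  rw [degB, hp, cond_true]

theorem degB_two_le {q : List ℕ} {i n j j' : ℕ} (hj : j < n) (hj' : j' < n) (hne : j ≠ j')
    (hp : padj q i j = true) (hp' : padj q i j' = true) : 2 ≤ degB q i n := by
  rcases lt_or_gt_of_ne hne with h | h
  · have h1 := degB_one_le h hp
    have h2 := degB_one_le hj' hp'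
    omega
  · have h1 := degB_one_le h hp'
    have h2 := degB_one_le hj hp
    omega

/-- `i` has at most one neighbour. -/
def leafB (q : List ℕ) (i : ℕ) : Bool := Nat.ble (degB q i q.length) 1

/-- `σ` is an induced embedding of the tree `q` in the tree `p`. -/
def embB (q p σ : List ℕ) : Bool :=
  allB q.length fun b => Nat.blt (σ.getD b 0) p.length && allB b fun a =>
    !(Nat.beq (σ.getD a 0) (σ.getD b 0)) &&
      (padj p (σ.getD a 0) (σ.getD b 0) == padj q a b)

theorem embB_spec {q p σ : List ℕ} (h : embB q p σ = true) :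
    ∃ v : Fin q.length → Fin p.length, (∀ a b, a < b → ((ptree p).Adj (v a) (v b) ↔
      (ptree q).Adj a b)) ∧ (∀ a b, a < b → v a ≠ v b) := by
  have hlt : ∀ b : Fin q.length, σ.getD b.1 0 < p.length := by
    intro b
    have h1 := allB_spec h b.2
    rw [Bool.and_eq_true] at h1
    have h2 := h1.1
    exact Nat.le_of_ble_eq_true h2
  refine ⟨fun b => ⟨σ.getD b.1 0, hlt b⟩, fun a b hab => ?_, fun a b hab => ?_⟩
  · have h1 := allB_spec h b.2
    rw [Bool.and_eq_true] at h1
    have h2 := allB_spec h1.2 hab
    rw [Bool.and_eq_true, beq_iff_eq] at h2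
    change padj p (σ.getD a.1 0) (σ.getD b.1 0) = true ↔ padj q a.1 b.1 = true
    rw [h2.2]
  · have h1 := allB_spec h b.2
    rw [Bool.and_eq_true] at h1
    have h2 := allB_spec h1.2 hab
    rw [Bool.and_eq_true] at h2
    intro heq
    have h3 : σ.getD a.1 0 = σ.getD b.1 0 := congrArg Fin.val heq
    rw [h3, Nat.beq_refl] at h2
    exact absurd h2.1 (by decide)

theorem embB_emb {q p σ : List ℕ} (h : embB q p σ = true) : Nonempty (ptree q ↪g ptree p) := by
  obtain ⟨v, h1, h2⟩ := embB_spec h
  obtain ⟨φ, -⟩ := embed_of _ _ v h1 h2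
  exact ⟨φ⟩

theorem embB_iso {q p σ : List ℕ} (h : embB q p σ = true) (hl : p.length = q.length) :
    Nonempty (ptree q ≃g ptree p) := by
  obtain ⟨v, h1, h2⟩ := embB_spec h
  exact iso_of _ _ v h1 h2 (by rw [Nat.card_fin, hl])

/-- Appending a vertex to a parent list. -/
theorem fwd_append {q : List ℕ} {i : ℕ} (hi : i < q.length) (hl : q.length < (q ++ [i]).length) :
    ∃ e : ptree (q ++ [i]) ≃g fwd (ptree q) ⟨i, hi⟩, e ⟨q.length, hl⟩ = none := by
  classical
  have hlen : (q ++ [i]).length = q.length + 1 := by simp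
  have hget : ∀ a, a < q.length → (q ++ [i]).getD a 0 = q.getD a 0 := by
    intro a ha
    rw [List.getD_append _ _ _ _ ha]
  have hget' : (q ++ [i]).getD q.length 0 = i := by
    rw [List.getD_append_right _ _ _ _ le_rfl]
    simp
  have hold : ∀ a b, a < q.length → b < q.length → padj (q ++ [i]) a b = padj q a b := by
    intro a b ha hb
    unfold padj
    rw [hget a ha, hget b hb]
  have hnew : ∀ a, a < q.length → (padj (q ++ [i]) a q.length = true ↔ a = i) := by
    intro a ha
    unfold padj
    rw [hget']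
    have h1 : Nat.blt a q.length = true := Nat.ble_eq_true_of_le ha
    have h2 : Nat.blt q.length a = false := by
      rw [Bool.eq_false_iff]
      intro h
      have := Nat.le_of_ble_eq_true h
      omega
    rw [h1, h2, Bool.true_and, Bool.false_and, Bool.or_false]
    exact ⟨fun h => (Nat.eq_of_beq_eq_true h).symm, fun h => by rw [h]; exact Nat.beq_refl i⟩
  let f : Option (Fin q.length) → Fin (q ++ [i]).length := fun o =>
    o.elim ⟨q.length, hl⟩ (fun a => ⟨a.1, a.2.trans hl⟩)
  have hf : Function.Bijective f := by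
    constructor
    · rintro (_ | a) (_ | b) h
      · rfl
      · have := congrArg Fin.val h
        change q.length = b.1 at this
        exact absurd b.2 (by omega)
      · have := congrArg Fin.val h
        change a.1 = q.length at this
        exact absurd a.2 (by omega)
      · have := congrArg Fin.val h
        change a.1 = b.1 at this
        rw [Fin.ext this]
    · rintro ⟨x, hx⟩
      by_cases h : x < q.length
      · exact ⟨some ⟨x, h⟩, rfl⟩
      · refine ⟨none, ?_⟩
        apply Fin.ext
        change q.length = x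
        omega
  let e : fwd (ptree q) ⟨i, hi⟩ ≃g ptree (q ++ [i]) := ⟨Equiv.ofBijective f hf, by
    rintro (_ | a) (_ | b)
    · exact ⟨fun h => absurd h ((ptree (q ++ [i])).loopless.irrefl _), fun h => h.elim⟩
    · change padj (q ++ [i]) q.length b.1 = true ↔ b = ⟨i, hi⟩
      rw [padj_comm, hnew _ b.2]
      exact ⟨fun h => Fin.ext h, fun h => congrArg Fin.val h⟩
    · change padj (q ++ [i]) a.1 q.length = true ↔ a = ⟨i, hi⟩
      rw [hnew _ a.2]
      exact ⟨fun h => Fin.ext h, fun h => congrArg Fin.val h⟩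
    · change padj (q ++ [i]) a.1 b.1 = true ↔ padj q a.1 b.1 = true
      rw [hold _ _ a.2 b.2]⟩
  refine ⟨e.symm, ?_⟩
  have h1 : e none = ⟨q.length, hl⟩ := rfl
  rw [← h1, e.symm_apply_apply]

/-- The check that `p` is covered. -/
def covB (L Pats : List (List ℕ)) (N : Option ℕ) (p : List ℕ) (c : Bool × ℕ × List ℕ) : Bool :=
  cond (tooBig N p.length) true (cond c.1
    (Nat.blt c.2.1 Pats.length && embB (Pats.getD c.2.1 []) p c.2.2)
    (Nat.blt c.2.1 L.length && (Nat.beq p.length (L.getD c.2.1 []).length &&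
      embB (L.getD c.2.1 []) p c.2.2)))

theorem covB_spec {L Pats : List (List ℕ)} {N : Option ℕ} {p : List ℕ} {c : Bool × ℕ × List ℕ}
    (h : covB L Pats N p c = true) : Covered L Pats N (ptree p) := by
  obtain ⟨c1, c2, c3⟩ := c
  unfold covB at h
  cases hbig : tooBig N p.length
  rotate_left
  · refine Or.inr (Or.inr ?_)
    rw [Nat.card_fin]; exact hbig
  rw [hbig, cond_false] at h
  cases c1
  · simp only [cond_false, Bool.and_eq_true] at h
    obtain ⟨h1, h2, h3⟩ := h
    have h1' : c2 < L.length := Nat.le_of_ble_eq_true h1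
    refine Or.inr (Or.inl ⟨L.getD c2 [], ?_, embB_iso h3 (Nat.eq_of_beq_eq_true h2)⟩)
    rw [List.getD_eq_getElem _ _ h1']
    exact List.getElem_mem _
  · simp only [cond_true, Bool.and_eq_true] at h
    obtain ⟨h1, h3⟩ := h
    have h1' : c2 < Pats.length := Nat.le_of_ble_eq_true h1
    refine Or.inl ⟨Pats.getD c2 [], ?_, embB_emb h3⟩
    rw [List.getD_eq_getElem _ _ h1']
    exact List.getElem_mem _

/-- The check for one tree of the list. -/
def rowB (L Pats : List (List ℕ)) (N : Option ℕ) (q : List ℕ)
    (cs : List (Bool × ℕ × List ℕ)) : Bool :=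
  allB q.length fun i =>
    covB L Pats N (cond (leafB q i) (q ++ [i]) ((q ++ [i]) ++ [q.length])) (cs.getD i (false, 0, []))

/-- The check for a part of the list. -/
def rowsB (L Pats : List (List ℕ)) (N : Option ℕ) : List (List ℕ) → List (List (Bool × ℕ × List ℕ)) → Bool
  | [], _ => true
  | q :: R, cs => rowB L Pats N q (cs.headD []) && rowsB L Pats N R cs.tail

theorem rowsB_spec {L Pats : List (List ℕ)} {N : Option ℕ} {R : List (List ℕ)}
    {cs : List (List (Bool × ℕ × List ℕ))} (h : rowsB L Pats N R cs = true) :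
    ∀ q ∈ R, ∃ c, rowB L Pats N q c = true := by
  induction R generalizing cs with
  | nil => intro q hq; exact absurd hq (by simp)
  | cons q R ih =>
    unfold rowsB at h
    rw [Bool.and_eq_true] at h
    intro q' hq'
    rcases List.mem_cons.1 hq' with h1 | h1
    · rw [h1]; exact ⟨_, h.1⟩
    · exact ih h.2 q' h1

/-- Soundness of the check. -/
theorem covered {L Pats : List (List ℕ)} {N : Option ℕ} (hbase : [0, 0, 1, 2] ∈ L)
    (hL : ∀ q ∈ L, ∃ c, rowB L Pats N q c = true) {V : Type u} [Finite V] {G : SimpleGraph V}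
    (hG : G.IsTree) (htw : TwinFree G) (hc : 3 ≤ Nat.card V) : Covered L Pats N G := by
  refine covered_of hbase ?_ ?_ _ V G rfl hG htw hc
  · rintro q hq i ⟨j, hj⟩
    obtain ⟨c, hc⟩ := hL q hq
    have h1 := allB_spec hc i.2
    have hleaf : leafB q i = true := by
      by_contra hcon
      have h2 : 2 ≤ degB q i q.length := by
        by_contra hcon2
        exact hcon (Nat.ble_eq_true_of_le (by omega))
      obtain ⟨x, y, hx, hy, hxy, h3, h4⟩ := degB_two h2
      have h5 := (hj ⟨x, hx⟩).1 h3
      have h6 := (hj ⟨y, hy⟩).1 h4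
      exact hxy (congrArg Fin.val (h5.trans h6.symm))
    rw [hleaf, cond_true] at h1
    obtain ⟨e, -⟩ := fwd_append i.2 (by simp)
    exact (covB_spec h1).iso e
  · rintro q hq i ⟨j, j', hjj, hj, hj'⟩
    obtain ⟨c, hc⟩ := hL q hq
    have h1 := allB_spec hc i.2
    have hleaf : leafB q i = false := by
      rw [Bool.eq_false_iff]
      intro hcon
      have h2 := Nat.le_of_ble_eq_true hcon
      have h3 := degB_two_le j.2 j'.2 (fun h => hjj (Fin.ext h)) hj hj'
      omega
    rw [hleaf, cond_false] at h1
    have hl : q.length < (q ++ [i.1]).length := by simp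
    obtain ⟨e, he⟩ := fwd_append i.2 hl
    obtain ⟨e1, -⟩ := fwd_append (q := q ++ [i.1]) (i := q.length) hl (by simp)
    obtain ⟨e2, -⟩ := fwd_congr e he
    exact (covB_spec h1).iso (e2.comp e1)

end Pool.Agent.SA27
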