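import Pool.Agent.SA27.L81

set_option autoImplicit false

/-! Certificates, part 1. -/

namespace Pool.Agent.SA27

/-- Certificates. -/
def cert81_1 : List (List (Bool × ℕ × List ℕ)) := [
  [(false, 1, [0, 1, 2, 3, 4]),
   (false, 2, [0, 1, 2, 3, 4, 5]),
   (false, 2, [3, 2, 1, 0, 4, 5]),
   (false, 1, [1, 2, 3, 4, 0])],
  [(false, 4, [0, 1, 2, 3, 4, 5, 6]),
   (false, 5, [0, 1, 2, 3, 4, 5, 6]),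
   (false, 4, [2, 1, 0, 4, 3, 5, 6]),
   (false, 3, [0, 1, 2, 3, 4, 5]),
   (false, 3, [4, 0, 1, 2, 5, 3])],
  [(false, 5, [0, 1, 2, 3, 6, 4, 5]),
   (false, 7, [0, 1, 2, 3, 4, 5, 6, 7]),
   (false, 8, [0, 1, 2, 3, 4, 5, 6, 7]),
   (false, 4, [1, 2, 3, 6, 0, 4, 5]),
   (false, 8, [0, 1, 4, 5, 2, 3, 6, 7]),
   (false, 4, [1, 4, 5, 6, 0, 2, 3])],
  [(false, 9, [0, 1, 2, 3, 4, 6, 7, 5]),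
   (false, 10, [1, 2, 3, 5, 0, 6, 7, 4]),
   (false, 10, [2, 1, 0, 4, 3, 6, 7, 5]),
   (false, 9, [3, 2, 1, 0, 5, 6, 7, 4]),
   (false, 6, [0, 1, 2, 3, 4, 5, 6]),
   (false, 6, [1, 2, 3, 5, 0, 6, 4])],
  [(false, 13, [0, 1, 2, 3, 4, 5, 6, 7, 8]),
   (false, 14, [0, 1, 2, 3, 4, 5, 6, 7, 8]),
   (false, 15, [0, 1, 2, 3, 4, 5, 6, 7, 8]),
   (false, 9, [0, 1, 2, 3, 4, 5, 6, 7]),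
   (false, 10, [0, 1, 2, 3, 4, 5, 6, 7]),
   (false, 16, [0, 1, 2, 3, 4, 5, 6, 7, 8]),
   (false, 11, [0, 1, 2, 3, 4, 5, 6, 7])],
  [(false, 14, [0, 1, 2, 3, 4, 7, 8, 5, 6]),
   (false, 17, [0, 1, 2, 3, 4, 5, 6, 7, 8]),
   (false, 14, [2, 1, 0, 4, 3, 7, 8, 5, 6]),
   (false, 10, [1, 2, 3, 7, 0, 5, 6, 4]),
   (false, 10, [1, 0, 4, 7, 2, 5, 6, 3]),
   (false, 14, [5, 1, 0, 4, 6, 7, 8, 2, 3]),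
   (false, 10, [1, 5, 6, 7, 0, 2, 3, 4])],
  [(false, 18, [0, 1, 2, 3, 4, 7, 8, 5, 6]),
   (false, 21, [1, 0, 4, 6, 7, 2, 3, 8, 5]),
   (false, 18, [2, 1, 0, 4, 3, 7, 8, 6, 5]),
   (false, 20, [3, 2, 1, 0, 5, 7, 8, 4, 6]),
   (false, 20, [4, 0, 1, 2, 6, 7, 8, 3, 5]),
   (false, 12, [0, 1, 2, 3, 4, 5, 6, 7]),
   (false, 12, [4, 0, 1, 2, 6, 3, 7, 5])],
  [(false, 17, [0, 1, 2, 3, 8, 4, 5, 6, 7]),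
   (false, 23, [0, 1, 2, 3, 4, 5, 6, 7, 8, 9]),
   (false, 24, [0, 1, 2, 3, 4, 5, 6, 7, 8, 9]),
   (false, 13, [1, 2, 3, 8, 0, 4, 5, 6, 7]),
   (false, 24, [0, 1, 4, 5, 2, 3, 6, 7, 8, 9]),
   (false, 13, [1, 4, 5, 8, 0, 2, 3, 6, 7]),
   (false, 24, [0, 1, 6, 7, 2, 3, 4, 5, 8, 9]),
   (false, 13, [1, 6, 7, 8, 0, 2, 3, 4, 5])],
  [(false, 14, [2, 1, 0, 8, 3, 6, 7, 4, 5]),
   (false, 24, [0, 1, 2, 3, 4, 5, 8, 9, 6, 7]),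
   (false, 24, [3, 2, 1, 0, 6, 7, 8, 9, 4, 5]),
   (false, 14, [1, 2, 3, 8, 0, 4, 5, 6, 7]),
   (false, 25, [0, 1, 2, 3, 4, 5, 6, 7, 8, 9]),
   (false, 16, [1, 4, 5, 8, 0, 2, 3, 6, 7]),
   (false, 25, [3, 2, 1, 0, 6, 7, 4, 5, 8, 9]),
   (false, 16, [2, 6, 7, 8, 3, 1, 0, 4, 5])],
  [(false, 26, [0, 1, 2, 3, 4, 5, 6, 8, 9, 7]),
   (false, 29, [0, 1, 2, 3, 4, 5, 6, 8, 9, 7]),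
   (false, 32, [0, 1, 2, 3, 4, 5, 6, 8, 9, 7]),
   (false, 34, [0, 1, 2, 3, 4, 5, 6, 7, 8, 9]),
   (false, 18, [0, 1, 2, 3, 4, 5, 6, 7, 8]),
   (false, 35, [0, 1, 2, 3, 4, 5, 6, 7, 8, 9]),
   (false, 19, [0, 1, 2, 3, 4, 5, 6, 7, 8]),
   (false, 20, [0, 1, 2, 3, 4, 5, 6, 7, 8])],
  [(false, 27, [0, 1, 2, 3, 4, 5, 6, 8, 9, 7]),
   (false, 30, [0, 1, 2, 3, 4, 5, 6, 8, 9, 7]),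
   (false, 32, [2, 1, 0, 4, 3, 8, 9, 5, 6, 7]),
   (false, 18, [0, 1, 2, 3, 4, 5, 6, 8, 7]),
   (false, 29, [4, 0, 1, 2, 7, 8, 9, 5, 6, 3]),
   (false, 29, [5, 0, 1, 2, 6, 8, 9, 4, 7, 3]),
   (false, 21, [0, 1, 2, 3, 4, 5, 6, 7, 8]),
   (false, 21, [0, 1, 2, 3, 5, 4, 7, 6, 8])],
  [(false, 28, [0, 1, 2, 3, 4, 5, 6, 8, 9, 7]),
   (false, 31, [0, 1, 2, 3, 4, 5, 6, 8, 9, 7]),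
   (false, 33, [0, 1, 2, 3, 4, 5, 6, 8, 9, 7]),
   (false, 19, [0, 1, 2, 3, 4, 5, 6, 8, 7]),
   (false, 21, [0, 1, 2, 3, 4, 5, 6, 8, 7]),
   (false, 31, [0, 5, 6, 7, 4, 1, 2, 8, 9, 3]),
   (false, 33, [0, 5, 6, 7, 4, 1, 2, 8, 9, 3]),
   (false, 19, [0, 5, 6, 7, 4, 1, 2, 8, 3])],
  [(false, 38, [0, 1, 2, 3, 4, 8, 9, 5, 6, 7]),
   (false, 37, [1, 2, 3, 5, 8, 0, 4, 7, 9, 6]),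
   (false, 37, [2, 1, 0, 4, 8, 3, 5, 6, 9, 7]),
   (false, 38, [3, 2, 1, 0, 5, 8, 9, 4, 7, 6]),
   (false, 41, [4, 0, 1, 2, 6, 8, 9, 3, 5, 7]),
   (false, 41, [5, 3, 2, 1, 7, 8, 9, 0, 4, 6]),
   (false, 22, [0, 1, 2, 3, 4, 5, 6, 7, 8]),
   (false, 22, [1, 2, 3, 5, 0, 7, 4, 8, 6])],
  [(false, 44, [0, 1, 2, 3, 4, 5, 6, 7, 8, 9, 10]),
   (false, 45, [0, 1, 2, 3, 4, 5, 6, 7, 8, 9, 10]),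
   (false, 46, [0, 1, 2, 3, 4, 5, 6, 7, 8, 9, 10]),
   (false, 26, [0, 1, 2, 3, 4, 5, 6, 7, 8, 9]),
   (false, 27, [0, 1, 2, 3, 4, 5, 6, 7, 8, 9]),
   (false, 47, [0, 1, 2, 3, 4, 5, 6, 7, 8, 9, 10]),
   (false, 28, [0, 1, 2, 3, 4, 5, 6, 7, 8, 9]),
   (false, 47, [0, 1, 2, 3, 4, 7, 8, 5, 6, 9, 10]),
   (false, 28, [0, 1, 2, 3, 4, 7, 8, 5, 6, 9])],
  [(false, 45, [0, 1, 2, 3, 4, 5, 6, 9, 10, 7, 8]),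
   (true, 4, [2, 1, 0, 7, 5, 8, 3, 9, 10, 6, 4]),
   (true, 6, [1, 0, 2, 7, 8, 9, 5, 10, 6, 3, 4]),
   (false, 29, [0, 1, 2, 3, 4, 5, 6, 7, 8, 9]),
   (false, 30, [0, 1, 2, 3, 4, 5, 6, 7, 8, 9]),
   (false, 48, [0, 1, 2, 3, 4, 5, 6, 7, 8, 9, 10]),
   (false, 31, [0, 1, 2, 3, 4, 5, 6, 7, 8, 9]),
   (true, 6, [1, 0, 7, 2, 3, 9, 5, 10, 6, 8, 4]),
   (false, 29, [0, 1, 7, 8, 4, 5, 6, 2, 3, 9])],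
  [(false, 46, [0, 1, 2, 3, 4, 5, 6, 9, 10, 7, 8]),
   (true, 6, [1, 0, 2, 9, 10, 7, 5, 8, 6, 3, 4]),
   (false, 46, [2, 1, 0, 4, 3, 7, 8, 9, 10, 5, 6]),
   (false, 32, [0, 1, 2, 3, 4, 5, 6, 7, 8, 9]),
   (false, 32, [2, 1, 0, 4, 3, 7, 8, 5, 6, 9]),
   (false, 49, [0, 1, 2, 3, 4, 5, 6, 7, 8, 9, 10]),
   (false, 33, [0, 1, 2, 3, 4, 5, 6, 7, 8, 9]),
   (false, 49, [2, 1, 0, 4, 3, 7, 8, 5, 6, 9, 10]),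
   (false, 33, [2, 1, 0, 4, 3, 7, 8, 5, 6, 9])],
  [(false, 47, [0, 1, 2, 3, 4, 5, 6, 9, 10, 7, 8]),
   (false, 48, [0, 1, 2, 3, 4, 5, 6, 9, 10, 7, 8]),
   (false, 49, [0, 1, 2, 3, 4, 5, 6, 9, 10, 7, 8]),
   (false, 35, [0, 1, 2, 3, 4, 5, 6, 9, 7, 8]),
   (false, 29, [5, 0, 1, 2, 6, 7, 8, 4, 9, 3]),
   (false, 50, [0, 1, 2, 3, 4, 5, 6, 7, 8, 9, 10]),
   (false, 31, [0, 5, 6, 9, 4, 1, 2, 7, 8, 3]),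
   (false, 51, [0, 1, 2, 3, 4, 5, 6, 7, 8, 9, 10]),
   (false, 36, [0, 1, 2, 3, 4, 5, 6, 7, 8, 9])],
  [(true, 4, [2, 1, 0, 5, 9, 6, 3, 7, 8, 10, 4]),
   (true, 7, [0, 1, 2, 5, 3, 6, 4, 7, 8, 9, 10]),
   (true, 4, [0, 1, 2, 5, 9, 6, 4, 7, 8, 10, 3]),
   (false, 27, [1, 2, 3, 9, 0, 5, 6, 7, 8, 4]),
   (false, 27, [1, 0, 4, 9, 2, 5, 6, 7, 8, 3]),
   (true, 4, [0, 1, 5, 2, 9, 3, 4, 7, 8, 10, 6]),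
   (false, 27, [1, 5, 6, 9, 0, 2, 3, 7, 8, 4]),
   (true, 4, [0, 1, 7, 2, 9, 3, 4, 5, 6, 10, 8]),
   (false, 27, [1, 7, 8, 9, 0, 2, 3, 5, 6, 4])],
  [(true, 3, [0, 1, 4, 5, 6, 8, 2, 9, 10, 3, 7]),
   (false, 56, [0, 1, 2, 3, 4, 5, 6, 9, 10, 7, 8]),
   (true, 5, [3, 2, 9, 1, 7, 0, 10, 4, 8, 5, 6]),
   (false, 64, [0, 1, 2, 3, 4, 5, 6, 7, 9, 10, 8]),
   (true, 0, [0, 5, 1, 4, 9, 6, 2, 10, 3, 7, 8]),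
   (true, 0, [0, 4, 1, 5, 9, 8, 2, 10, 3, 7, 6]),
   (false, 37, [0, 1, 2, 3, 4, 5, 6, 7, 8, 9]),
   (false, 38, [0, 1, 2, 3, 4, 5, 6, 7, 8, 9]),
   (false, 37, [0, 1, 2, 3, 5, 4, 8, 7, 6, 9])],
  [(false, 52, [0, 1, 2, 3, 4, 5, 6, 9, 10, 7, 8]),
   (false, 57, [0, 1, 2, 3, 4, 5, 6, 9, 10, 7, 8]),
   (false, 60, [0, 1, 2, 3, 4, 5, 6, 9, 10, 7, 8]),
   (false, 65, [0, 1, 2, 3, 4, 5, 6, 7, 9, 10, 8]),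
   (false, 37, [0, 1, 2, 3, 4, 5, 6, 7, 9, 8]),
   (false, 59, [0, 5, 6, 8, 4, 1, 2, 9, 10, 3, 7]),
   (false, 63, [0, 5, 6, 8, 4, 1, 2, 9, 10, 3, 7]),
   (false, 39, [0, 1, 2, 3, 4, 5, 6, 7, 8, 9]),
   (false, 40, [0, 1, 2, 3, 4, 5, 6, 7, 8, 9])],
  [(false, 53, [0, 1, 2, 3, 4, 5, 6, 9, 10, 7, 8]),
   (true, 0, [1, 9, 2, 0, 5, 10, 3, 6, 7, 8, 4]),
   (false, 61, [0, 1, 2, 9, 4, 5, 6, 3, 7, 10, 8]),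
   (false, 64, [3, 2, 1, 0, 7, 9, 10, 4, 5, 6, 8]),
   (false, 38, [0, 1, 2, 3, 4, 5, 6, 7, 9, 8]),
   (false, 66, [0, 1, 2, 3, 4, 5, 6, 7, 9, 10, 8]),
   (false, 39, [0, 1, 2, 3, 4, 5, 6, 7, 9, 8]),
   (false, 68, [0, 1, 2, 3, 4, 5, 6, 7, 8, 9, 10]),
   (false, 41, [0, 1, 2, 3, 4, 5, 6, 7, 8, 9])],
  [(false, 54, [0, 1, 2, 3, 4, 5, 6, 9, 10, 7, 8]),
   (false, 56, [1, 0, 5, 6, 2, 9, 10, 4, 7, 8, 3]),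
   (false, 61, [2, 1, 0, 4, 3, 9, 10, 5, 6, 7, 8]),
   (false, 37, [0, 1, 2, 3, 4, 5, 6, 9, 7, 8]),
   (false, 58, [4, 0, 1, 2, 7, 9, 10, 5, 6, 3, 8]),
   (false, 56, [5, 0, 1, 2, 6, 9, 10, 4, 7, 3, 8]),
   (false, 61, [6, 5, 0, 4, 8, 9, 10, 1, 2, 7, 3]),
   (false, 42, [0, 1, 2, 3, 4, 5, 6, 7, 8, 9]),
   (false, 37, [0, 5, 6, 8, 4, 1, 2, 9, 7, 3])],
  [(false, 69, [0, 1, 2, 3, 9, 4, 6, 5, 10, 8, 7]),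
   (true, 2, [1, 0, 2, 9, 4, 10, 3, 6, 5, 8, 7]),
   (false, 69, [2, 1, 0, 4, 9, 3, 5, 6, 10, 7, 8]),
   (false, 70, [3, 2, 1, 0, 5, 9, 10, 4, 7, 6, 8]),
   (false, 70, [4, 0, 1, 2, 6, 9, 10, 3, 8, 5, 7]),
   (false, 73, [5, 3, 2, 1, 7, 9, 10, 0, 4, 6, 8]),
   (false, 73, [6, 4, 0, 1, 8, 9, 10, 2, 3, 5, 7]),
   (false, 43, [0, 1, 2, 3, 4, 5, 6, 7, 8, 9]),
   (false, 43, [4, 0, 1, 2, 6, 3, 8, 5, 9, 7])],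
  [(true, 7, [0, 1, 2, 4, 3, 5, 10, 6, 7, 8, 9]),
   (true, 7, [2, 1, 4, 6, 5, 7, 3, 8, 9, 10, 11]),
   (true, 4, [4, 1, 2, 6, 10, 7, 5, 8, 9, 11, 3]),
   (false, 44, [1, 2, 3, 10, 0, 4, 5, 6, 7, 8, 9]),
   (true, 4, [2, 1, 4, 6, 10, 7, 3, 8, 9, 11, 5]),
   (false, 44, [1, 4, 5, 10, 0, 2, 3, 6, 7, 8, 9]),
   (true, 4, [2, 1, 6, 4, 10, 5, 3, 8, 9, 11, 7]),
   (false, 44, [1, 6, 7, 10, 0, 2, 3, 4, 5, 8, 9]),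
   (true, 4, [2, 1, 8, 4, 10, 5, 3, 6, 7, 11, 9]),
   (false, 44, [1, 8, 9, 10, 0, 2, 3, 4, 5, 6, 7])]]

theorem rows81_1 : rowsB L81 pats53 none L81_1 cert81_1 = true := by
  decide +kernel

end Pool.Agent.SA27
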