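import Pool.Agent.SA97.Fwd
import Pool.Agent.SA97.Trees
import Pool.Agent.SA33.Blow

set_option autoImplicit false

/-! Ends of twin-free trees: every twin-free tree with at least five vertices arises from a
smaller one by a new leaf at a leaf, or by a pendant path of length two at a nonleaf. -/

namespace Pool.Agent.SA27

open SimpleGraph Pool.Agent.SA33 Pool.Agent.SA97

variable {V : Type*} {G : SimpleGraph V}

/-- In a connected graph a nonempty set closed under adjacency is everything. -/
theorem closed_univ (hG : G.Connected) (S : Set V) {x : V} (hx : x ∈ S)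
    (hS : ∀ y ∈ S, ∀ z, G.Adj y z → z ∈ S) (y : V) : y ∈ S := by
  obtain ⟨w⟩ := hG.preconnected x y
  induction w with
  | nil => exact hx
  | cons h p ih => exact ih (hS _ hx _ h)

/-- No 4-cycles in a tree. -/
theorem no_c4 (hG : G.IsAcyclic) {x y d e : V} (hxy : x ≠ y) (h1 : G.Adj x d) (h2 : G.Adj y d)
    (h3 : G.Adj x e) (h4 : G.Adj y e) : d = e := by
  have hd : (Walk.cons h1 (Walk.cons h2.symm Walk.nil)).IsPath := by
    simp only [Walk.cons_isPath_iff, Walk.support_cons, Walk.support_nil, List.mem_cons,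
      List.not_mem_nil, or_false, not_or]
    exact ⟨⟨Walk.IsPath.nil, h2.ne'⟩, h1.ne, hxy⟩
  have he : (Walk.cons h3 (Walk.cons h4.symm Walk.nil)).IsPath := by
    simp only [Walk.cons_isPath_iff, Walk.support_cons, Walk.support_nil, List.mem_cons,
      List.not_mem_nil, or_false, not_or]
    exact ⟨⟨Walk.IsPath.nil, h4.ne'⟩, h3.ne, hxy⟩
  have h := (hG.subsingleton_path x y).elim ⟨_, hd⟩ ⟨_, he⟩
  have h' := congrArg (fun p : G.Path x y => p.1.snd) h
  simpa using h'

/-- The ends of a twin-free tree. -/
theorem exists_end [Finite V] (hG : G.IsTree) (htw : TwinFree G) (hc : 3 ≤ Nat.card V) :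
    ∃ a b c, a ≠ c ∧ (∀ z, G.Adj a z ↔ z = b) ∧ (∀ z, G.Adj b z ↔ z = a ∨ z = c) := by
  classical
  have : Nonempty V := hG.connected.nonempty
  obtain ⟨u, v, p, hp, hmax⟩ := Walk.exists_isPath_forall_isPath_length_le_length G
  -- the neighbour of the start of a longest path
  have start : ∀ {u v : V} (q : G.Walk u v), q.IsPath → q.length = p.length → ¬ q.Nil →
      ∀ z, G.Adj u z → z = q.snd := by
    intro u v q hq hl hnil z hz
    apply hG.isAcyclic.eq_snd_of_adj_start hq hz
    by_contra hcon
    have h1 : (q.cons hz.symm).IsPath := hq.cons hcon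
    have h2 := hmax _ _ _ h1
    rw [Walk.length_cons] at h2
    omega
  cases p with
  | nil =>
    -- no edge at all
    exfalso
    have h1 : ∀ z, ¬ G.Adj u z := by
      intro z hz
      have h2 := hmax _ _ (Walk.cons hz Walk.nil) (by
        simp only [Walk.cons_isPath_iff, Walk.support_nil, List.mem_singleton]
        exact ⟨Walk.IsPath.nil, hz.ne⟩)
      simp at h2
    have h2 : ∀ y, y ∈ ({u} : Set V) := closed_univ hG.connected _ (Set.mem_singleton u) (by
      rintro y rfl z hz
      exact absurd hz (h1 z))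
    have h3 : Nat.card V ≤ 1 := by
      have : Subsingleton V := ⟨fun a b => by rw [h2 a, h2 b]⟩
      exact Finite.card_le_one_iff_subsingleton.2 this
    omega
  | @cons _ b _ hab p1 =>
    cases p1 with
    | nil =>
      exfalso
      have hu : ∀ z, G.Adj u z → z = v := fun z hz => start _ hp rfl (by simp) z hz
      have hv : ∀ z, G.Adj v z → z = u := by
        intro z hz
        have h1 := start (Walk.cons hab.symm Walk.nil) (by
          simp only [Walk.cons_isPath_iff, Walk.support_nil, List.mem_singleton]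
          exact ⟨Walk.IsPath.nil, hab.ne'⟩) (by simp) (by simp) z hz
        exact h1
      have h2 : ∀ y, y ∈ ({u, v} : Set V) := closed_univ hG.connected _ (Set.mem_insert u _) (by
        rintro y (rfl | rfl) z hz
        · exact Or.inr (hu z hz)
        · exact Or.inl (hv z hz))
      have h3 : Nat.card V ≤ 2 := by
        have h4 : (Set.univ : Set V) ⊆ {u, v} := fun y _ => h2 y
        have h5 := Set.ncard_le_ncard h4
        rw [Set.ncard_univ] at h5
        exact h5.trans (Set.ncard_insert_le _ _ |>.trans (by rw [Set.ncard_singleton]))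
      omega
    | @cons _ c _ hbc p2 =>
      have hp1 := hp
      rw [Walk.cons_isPath_iff] at hp1
      obtain ⟨hp1, hu1⟩ := hp1
      have hac : u ≠ c := by
        rintro rfl
        exact hu1 (by simp)
      have ha : ∀ z, G.Adj u z ↔ z = b := fun z =>
        ⟨fun hz => start _ hp rfl (by simp) z hz, fun h => h ▸ hab⟩
      refine ⟨u, b, c, hac, ha, fun z => ⟨fun hz => ?_, ?_⟩⟩
      · by_contra hcon
        push Not at hcon
        obtain ⟨hza, hzc⟩ := hcon
        have h1 : z ∉ (Walk.cons hbc p2).support := by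
          intro hmem
          exact hzc ((hG.isAcyclic.eq_snd_of_adj_start hp1 hz hmem).trans (by simp))
        have h2 : (Walk.cons hz.symm (Walk.cons hbc p2)).IsPath := hp1.cons h1
        have h3 : ∀ y, G.Adj z y → y = b := fun y hy =>
          start _ h2 (by simp) (by simp) y hy
        apply hza
        apply htw
        intro y
        constructor
        · intro hy
          rw [h3 y hy]; exact hab
        · intro hy
          rw [(ha y).1 hy]; exact hz.symm
      · rintro (rfl | rfl)
        · exact hab.symm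
        · exact hbc

/-- The graph without the vertex `a`. -/
abbrev del (G : SimpleGraph V) (a : V) : SimpleGraph {x : V // x ≠ a} :=
  G.comap Subtype.val

theorem del_isTree [Finite V] (hG : G.IsTree) {a b : V} (ha : ∀ z, G.Adj a z ↔ z = b) :
    (del G a).IsTree := by
  classical
  have := Fintype.ofFinite V
  have hdeg : G.degree a = 1 := by
    rw [degree_eq_one_iff_existsUnique_adj]
    exact ⟨b, (ha b).2 rfl, fun z hz => (ha z).1 hz⟩
  have h1 := hG.connected.induce_compl_singleton_of_degree_eq_one hdeg
  have h2 : (G.induce ({a}ᶜ : Set V)).IsAcyclic := hG.isAcyclic.comap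
    (Embedding.induce (G := G) ({a}ᶜ : Set V)).toHom
    (Embedding.induce (G := G) ({a}ᶜ : Set V)).injective
  exact ⟨h1, h2⟩

theorem card_del [Finite V] (a : V) : Nat.card {x : V // x ≠ a} + 1 = Nat.card V := by
  classical
  have := Fintype.ofFinite V
  rw [Nat.card_eq_fintype_card, Nat.card_eq_fintype_card]
  have h1 : Fintype.card {x : V // x ≠ a} = Fintype.card V - 1 := by
    rw [Fintype.card_subtype_compl, Fintype.card_subtype_eq]
  have h2 : 0 < Fintype.card V := Fintype.card_pos_iff.2 ⟨a⟩
  omega

/-- Removing a leaf and attaching it again. -/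
theorem del_iso {a b : V} (hab : b ≠ a) (ha : ∀ z, G.Adj a z ↔ z = b) :
    ∃ e : fwd (del G a) ⟨b, hab⟩ ≃g G, e none = a := by
  classical
  let e : Option {x : V // x ≠ a} ≃ V := (Equiv.optionSubtypeNe a)
  refine ⟨⟨e, ?_⟩, rfl⟩
  have hn : e none = a := rfl
  have hs : ∀ x, e (some x) = x.1 := fun x => rfl
  rintro (_ | x) (_ | y)
  · rw [hn]
    exact ⟨fun h => absurd h (G.loopless.irrefl _), fun h => h.elim⟩
  · rw [hn, hs, ha]
    exact ⟨fun h => Subtype.ext h, fun h => congrArg Subtype.val h⟩
  · rw [hn, hs, G.adj_comm, ha]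
    exact ⟨fun h => Subtype.ext h, fun h => congrArg Subtype.val h⟩
  · exact Iff.rfl

/-- First case: the end is a path of length three. -/
theorem twinFree_del (hG : G.IsTree) (htw : TwinFree G) {a b c d : V} (hac : a ≠ c) (hbd : b ≠ d)
    (hcard : ∃ e, e ≠ a ∧ e ≠ b ∧ e ≠ c ∧ e ≠ d)
    (ha : ∀ z, G.Adj a z ↔ z = b) (hb : ∀ z, G.Adj b z ↔ z = a ∨ z = c)
    (hc : ∀ z, G.Adj c z ↔ z = b ∨ z = d) : TwinFree (del G a) := by
  have hab : G.Adj a b := (ha b).2 rfl
  have hbc : G.Adj b c := (hb c).2 (Or.inr rfl)
  have key : ∀ y : V, y ≠ a → y ≠ b → ¬ (∀ z, z ≠ a → (G.Adj b z ↔ G.Adj y z)) := by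
    intro y hya hyb h
    have h1 : G.Adj y c := (h c hac.symm).1 hbc
    have h2 : y = d := by
      rcases (hc y).1 h1.symm with h2 | h2
      · exact absurd h2 hyb
      · exact h2
    obtain ⟨e, he1, he2, he3, he4⟩ := hcard
    have h3 : e ∈ ({a, b, c, d} : Set V) := by
      apply closed_univ hG.connected _ (x := a) (by simp)
      intro x hx z hz
      simp only [Set.mem_insert_iff, Set.mem_singleton_iff] at hx ⊢
      rcases hx with rfl | rfl | rfl | rfl
      · exact Or.inr (Or.inl ((ha z).1 hz))
      · rcases (hb z).1 hz with h | h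
        · exact Or.inl h
        · exact Or.inr (Or.inr (Or.inl h))
      · rcases (hc z).1 hz with h | h
        · exact Or.inr (Or.inl h)
        · exact Or.inr (Or.inr (Or.inr h))
      · by_cases hza : z = a
        · exact Or.inl hza
        · have h4 : G.Adj b z := (h z hza).2 (h2 ▸ hz)
          rcases (hb z).1 h4 with h | h
          · exact Or.inl h
          · exact Or.inr (Or.inr (Or.inl h))
    simp only [Set.mem_insert_iff, Set.mem_singleton_iff] at h3
    tauto
  rintro ⟨x, hx⟩ ⟨y, hy⟩ h
  have h' : ∀ z, z ≠ a → (G.Adj x z ↔ G.Adj y z) := fun z hz => h ⟨z, hz⟩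
  have hxy : x = y := by
    by_cases hxb : x = b
    · by_cases hyb : y = b
      · rw [hxb, hyb]
      · exact absurd (fun z hz => hxb ▸ h' z hz) (key y hy hyb)
    · by_cases hyb : y = b
      · exact absurd (fun z hz => (hyb ▸ (h' z hz)).symm) (key x hx hxb)
      · apply htw
        intro z
        by_cases hz : z = a
        · rw [hz, G.adj_comm x a, G.adj_comm y a, ha, ha]
          exact ⟨fun h => absurd h hxb, fun h => absurd h hyb⟩
        · exact h' z hz
  exact Subtype.ext hxy

/-- Second case: the pendant path of length two is attached to a vertex with two other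
neighbours. -/
theorem twinFree_del_del (hG : G.IsTree) (htw : TwinFree G) {a b c d e : V} (hba : b ≠ a)
    (ha : ∀ z, G.Adj a z ↔ z = b) (hb : ∀ z, G.Adj b z ↔ z = a ∨ z = c)
    (hde : d ≠ e) (hdb : d ≠ b) (heb : e ≠ b) (hcd : G.Adj c d) (hce : G.Adj c e) :
    TwinFree (del (del G a) ⟨b, hba⟩) := by
  have hab : G.Adj a b := (ha b).2 rfl
  have hbc : G.Adj b c := (hb c).2 (Or.inr rfl)
  have hda : d ≠ a := by
    rintro rfl
    have := (ha c).1 hcd.symm
    exact hbc.ne this.symm
  have hea : e ≠ a := by
    rintro rfl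
    have := (ha c).1 hce.symm
    exact hbc.ne this.symm
  have key : ∀ y : V, y ≠ c → ¬ (∀ z, z ≠ a → z ≠ b → (G.Adj c z ↔ G.Adj y z)) := by
    intro y hyc h
    exact hde (no_c4 hG.isAcyclic (fun h => hyc h.symm) hcd ((h d hda hdb).1 hcd) hce
      ((h e hea heb).1 hce))
  rintro ⟨⟨x, hx⟩, hx'⟩ ⟨⟨y, hy⟩, hy'⟩ h
  have hxb : x ≠ b := fun h => hx' (Subtype.ext h)
  have hyb : y ≠ b := fun h => hy' (Subtype.ext h)
  have h' : ∀ z, z ≠ a → z ≠ b → (G.Adj x z ↔ G.Adj y z) := fun z hz hz' =>
    h ⟨⟨z, hz⟩, fun h => hz' (congrArg Subtype.val h)⟩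
  have hxy : x = y := by
    by_cases hxc : x = c
    · by_cases hyc : y = c
      · rw [hxc, hyc]
      · exact absurd (fun z hz hz' => hxc ▸ h' z hz hz') (key y hyc)
    · by_cases hyc : y = c
      · exact absurd (fun z hz hz' => (hyc ▸ (h' z hz hz')).symm) (key x hxc)
      · apply htw
        intro z
        by_cases hz : z = a
        · rw [hz, G.adj_comm x a, G.adj_comm y a, ha, ha]
          exact ⟨fun h => absurd h hxb, fun h => absurd h hyb⟩
        · by_cases hz' : z = b
          · rw [hz', G.adj_comm x b, G.adj_comm y b, hb, hb]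
            exact ⟨fun h => by tauto, fun h => by tauto⟩
          · exact h' z hz hz'
  exact Subtype.ext (Subtype.ext hxy)

end Pool.Agent.SA27
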