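import Pool.Agent.SA27.Ends

set_option autoImplicit false

/-! Enumeration of twin-free trees with a kernel check. -/

namespace Pool.Agent.SA27

open SimpleGraph Pool.Agent.SA33 Pool.Agent.SA97

universe u

/-- The tree with parent list `q`. -/
abbrev ptree (q : List ℕ) : SimpleGraph (Fin q.length) := tree q.length q

/-- `n` is larger than the bound (`none` means that there is no bound). -/
def tooBig : Option ℕ → ℕ → Bool
  | none, _ => false
  | some N, n => Nat.blt N n

theorem tooBig_mono {N : Option ℕ} {n m : ℕ} (h : tooBig N n = true) (hnm : n ≤ m) :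
    tooBig N m = true := by
  cases N with
  | none => exact h
  | some N => exact Nat.ble_eq_true_of_le ((Nat.le_of_ble_eq_true h).trans hnm)

/-- `G` contains one of the patterns or is isomorphic to a member of the list or has more vertices
than the bound. -/
def Covered (L Pats : List (List ℕ)) (N : Option ℕ) {V : Type*} (G : SimpleGraph V) : Prop :=
  (∃ q ∈ Pats, Nonempty (ptree q ↪g G)) ∨ (∃ q ∈ L, Nonempty (ptree q ≃g G)) ∨
    tooBig N (Nat.card V) = true

theorem Covered.iso {L Pats : List (List ℕ)} {N : Option ℕ} {V W : Type*} {G : SimpleGraph V}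
    {H : SimpleGraph W} (h : Covered L Pats N G) (e : G ≃g H) : Covered L Pats N H := by
  rcases h with ⟨q, hq, ⟨f⟩⟩ | ⟨q, hq, ⟨f⟩⟩ | h
  · exact Or.inl ⟨q, hq, ⟨f.trans e.toEmbedding⟩⟩
  · exact Or.inr (Or.inl ⟨q, hq, ⟨f.trans e⟩⟩)
  · refine Or.inr (Or.inr ?_)
    rwa [← Nat.card_congr e.toEquiv]

theorem fwd_congr {V W : Type*} {G : SimpleGraph V} {H : SimpleGraph W} (e : G ≃g H) {x : V}
    {y : W} (hxy : e x = y) : ∃ f : fwd G x ≃g fwd H y, f none = none := by
  refine ⟨⟨Equiv.optionCongr e.toEquiv, ?_⟩, rfl⟩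
  have hy : ∀ z, e z = y ↔ z = x := fun z => by
    rw [← hxy]; exact e.injective.eq_iff
  rintro (_ | a) (_ | b)
  · exact Iff.rfl
  · exact hy b
  · exact hy a
  · exact e.map_adj_iff

/-- A bijective table gives an isomorphism. -/
theorem iso_of {n : ℕ} (S : SimpleGraph (Fin n)) {V : Type*} [Finite V] (G : SimpleGraph V)
    (v : Fin n → V) (hadj : ∀ a b, a < b → (G.Adj (v a) (v b) ↔ S.Adj a b))
    (hne : ∀ a b, a < b → v a ≠ v b) (hcard : Nat.card V ≤ n) : Nonempty (S ≃g G) := by
  obtain ⟨φ, -⟩ := embed_of S G v hadj hne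
  have h1 : Nat.card (Fin n) ≤ Nat.card V := Finite.card_le_of_embedding φ.toEmbedding
  have h2 : Nat.card (Fin n) = Nat.card V := le_antisymm h1 (by rw [Nat.card_fin]; exact hcard)
  have h3 : Function.Bijective φ :=
    Function.Injective.bijective_of_nat_card_le φ.injective h2.symm.le
  exact ⟨⟨Equiv.ofBijective φ h3, φ.map_adj_iff⟩⟩

theorem path4_iso {V : Type*} [Finite V] {G : SimpleGraph V} {a b c d : V} (hac : a ≠ c)
    (had : a ≠ d) (hbd : b ≠ d) (hcd : c ≠ d) (hall : ∀ e, e = a ∨ e = b ∨ e = c ∨ e = d)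
    (h1 : G.Adj a b) (h2 : G.Adj b c) (h3 : G.Adj c d) (h4 : ¬ G.Adj a c) (h5 : ¬ G.Adj a d)
    (h6 : ¬ G.Adj b d) : Nonempty (ptree [0, 0, 1, 2] ≃g G) := by
  classical
  have := Fintype.ofFinite V
  have hcard : Nat.card V ≤ 4 := by
    have h7 : (Finset.univ : Finset V) ⊆ {a, b, c, d} := by
      intro e _
      have := hall e
      simp only [Finset.mem_insert, Finset.mem_singleton]
      exact this
    rw [Nat.card_eq_fintype_card]
    exact (Finset.card_le_card h7).trans Finset.card_le_four
  apply iso_of (n := 4) (tree 4 [0, 0, 1, 2]) G ![a, b, c, d] _ _ hcard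
  · have k1 : (tree 4 [0, 0, 1, 2]).Adj 0 1 := by decide
    have k2 : (tree 4 [0, 0, 1, 2]).Adj 1 2 := by decide
    have k3 : (tree 4 [0, 0, 1, 2]).Adj 2 3 := by decide
    have k4 : ¬ (tree 4 [0, 0, 1, 2]).Adj 0 2 := by decide
    have k5 : ¬ (tree 4 [0, 0, 1, 2]).Adj 0 3 := by decide
    have k6 : ¬ (tree 4 [0, 0, 1, 2]).Adj 1 3 := by decide
    intro i j hij
    fin_cases i <;> fin_cases j <;> first | exact absurd hij (by decide) | skip
    · exact ⟨fun _ => k1, fun _ => h1⟩
    · exact ⟨fun h => absurd h h4, fun h => absurd h k4⟩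
    · exact ⟨fun h => absurd h h5, fun h => absurd h k5⟩
    · exact ⟨fun _ => k2, fun _ => h2⟩
    · exact ⟨fun h => absurd h h6, fun h => absurd h k6⟩
    · exact ⟨fun _ => k3, fun _ => h3⟩
  · intro i j hij
    fin_cases i <;> fin_cases j <;> first | exact absurd hij (by decide) | skip
    · exact h1.ne
    · exact hac
    · exact had
    · exact h2.ne
    · exact hbd
    · exact hcd

/-- The induction. -/
theorem covered_of {L Pats : List (List ℕ)} {N : Option ℕ} (hbase : [0, 0, 1, 2] ∈ L)
    (hA : ∀ q ∈ L, ∀ i : Fin q.length, (∃ j, ∀ z, (ptree q).Adj i z ↔ z = j) →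
      Covered L Pats N (fwd (ptree q) i))
    (hB : ∀ q ∈ L, ∀ i : Fin q.length, (∃ j j', j ≠ j' ∧ (ptree q).Adj i j ∧ (ptree q).Adj i j') →
      Covered L Pats N (fwd (fwd (ptree q) i) none)) :
    ∀ (n : ℕ) (V : Type u) [Finite V] (G : SimpleGraph V), Nat.card V = n → G.IsTree →
      TwinFree G → 3 ≤ n → Covered L Pats N G := by
  intro n
  induction n using Nat.strong_induction_on with
  | _ n ih =>
    intro V _ G hn hG htw h3
    classical
    obtain ⟨a, b, c, hac, ha, hb⟩ := exists_end hG htw (by omega)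
    have hab : G.Adj a b := (ha b).2 rfl
    have hbc : G.Adj b c := (hb c).2 (Or.inr rfl)
    obtain ⟨d, hcd, hdb⟩ : ∃ d, G.Adj c d ∧ d ≠ b := by
      by_contra hcon
      push Not at hcon
      apply hac
      apply htw
      intro z
      rw [ha]
      exact ⟨fun h => h ▸ hbc.symm, fun h => hcon z h⟩
    have hda : d ≠ a := by
      rintro rfl
      exact hbc.ne ((ha c).1 hcd.symm).symm
    by_cases hfour : ∃ e, e ≠ a ∧ e ≠ b ∧ e ≠ c ∧ e ≠ d
    · by_cases hdeg : ∃ e, G.Adj c e ∧ e ≠ b ∧ e ≠ d
      · -- second case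
        obtain ⟨e, hce, heb, hed⟩ := hdeg
        have hea : e ≠ a := by
          rintro rfl
          exact hbc.ne ((ha c).1 hce.symm).symm
        have hT1 := del_isTree hG ha
        have hb' : ∀ z, (del G a).Adj ⟨b, hab.ne'⟩ z ↔ z = ⟨c, hac.symm⟩ := by
          rintro ⟨z, hz⟩
          change G.Adj b z ↔ _
          rw [hb, Subtype.mk.injEq]
          exact ⟨fun h => h.resolve_left hz, fun h => Or.inr h⟩
        have hT2 := del_isTree hT1 hb'
        have htw2 := twinFree_del_del hG htw hab.ne' ha hb hed.symm hdb heb hcd hce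
        have hc1 := card_del (V := V) a
        have hc2 := card_del (V := {x : V // x ≠ a}) ⟨b, hab.ne'⟩
        have hcb : (⟨c, hac.symm⟩ : {x : V // x ≠ a}) ≠ ⟨b, hab.ne'⟩ := fun h =>
          hbc.ne' (congrArg Subtype.val h)
        have hdb' : (⟨d, hda⟩ : {x : V // x ≠ a}) ≠ ⟨b, hab.ne'⟩ := fun h =>
          hdb (congrArg Subtype.val h)
        have heb' : (⟨e, hea⟩ : {x : V // x ≠ a}) ≠ ⟨b, hab.ne'⟩ := fun h =>
          heb (congrArg Subtype.val h)
        -- five distinct vertices
        have hcard5 : 5 ≤ Nat.card V := by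
          have := Fintype.ofFinite V
          rw [Nat.card_eq_fintype_card]
          have h5 : ({a, b, c, d, e} : Finset V).card = 5 := by
            rw [Finset.card_insert_of_notMem, Finset.card_insert_of_notMem,
              Finset.card_insert_of_notMem, Finset.card_insert_of_notMem, Finset.card_singleton]
            · simpa using hed.symm
            · simp only [Finset.mem_insert, Finset.mem_singleton, not_or]
              exact ⟨hcd.ne, hce.ne⟩
            · simp only [Finset.mem_insert, Finset.mem_singleton, not_or]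
              exact ⟨hbc.ne, hdb.symm, heb.symm⟩
            · simp only [Finset.mem_insert, Finset.mem_singleton, not_or]
              exact ⟨hab.ne, hac, hda.symm, hea.symm⟩
          rw [← h5]
          exact Finset.card_le_univ _
        have hcov := ih (n - 2) (by omega) _ (del (del G a) ⟨b, hab.ne'⟩) (by omega) hT2 htw2
          (by omega)
        obtain ⟨e1, -⟩ := del_iso hab.ne' ha
        obtain ⟨e2, he2⟩ := del_iso hcb hb'
        rcases hcov with ⟨q, hq, ⟨f⟩⟩ | ⟨q, hq, ⟨f⟩⟩ | hbig
        rotate_left 2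
        · exact Or.inr (Or.inr (tooBig_mono hbig (by omega)))
        · refine Or.inl ⟨q, hq, ⟨f.trans ⟨⟨fun x => x.1.1, ?_⟩, ?_⟩⟩⟩
          · exact Subtype.val_injective.comp Subtype.val_injective
          · intro x y; exact Iff.rfl
        · obtain ⟨e3, he3⟩ := fwd_congr f (x := f.symm ⟨⟨c, hac.symm⟩, hcb⟩) (f.apply_symm_apply _)
          have he3 : (e2.comp e3) none = ⟨b, hab.ne'⟩ := by
            change e2 (e3 none) = _
            rw [he3, he2]
          obtain ⟨e4, -⟩ := fwd_congr (e2.comp e3) he3
          refine (hB q hq _ ?_).iso (e1.comp e4)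
          refine ⟨f.symm ⟨⟨d, hda⟩, hdb'⟩, f.symm ⟨⟨e, hea⟩, heb'⟩, ?_, ?_, ?_⟩
          · intro h
            have h1 := f.symm.injective h
            exact hed (congrArg (fun z => z.1.1) h1).symm
          · rw [f.symm.map_adj_iff]; exact hcd
          · rw [f.symm.map_adj_iff]; exact hce
      · -- first case
        push Not at hdeg
        have hc : ∀ z, G.Adj c z ↔ z = b ∨ z = d := fun z =>
          ⟨fun h => by by_contra hcon; push Not at hcon; exact hcon.2 (hdeg z h hcon.1), by
            rintro (rfl | rfl)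
            · exact hbc.symm
            · exact hcd⟩
        have hT1 := del_isTree hG ha
        have htw1 := twinFree_del hG htw hac hdb.symm hfour ha hb hc
        have hc1 := card_del (V := V) a
        have hcard5 : 5 ≤ Nat.card V := by
          obtain ⟨e, hea, heb, hec, hed⟩ := hfour
          have := Fintype.ofFinite V
          rw [Nat.card_eq_fintype_card]
          have h5 : ({a, b, c, d, e} : Finset V).card = 5 := by
            rw [Finset.card_insert_of_notMem, Finset.card_insert_of_notMem,
              Finset.card_insert_of_notMem, Finset.card_insert_of_notMem, Finset.card_singleton]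
            · simpa using hed.symm
            · simp only [Finset.mem_insert, Finset.mem_singleton, not_or]
              exact ⟨hcd.ne, hec.symm⟩
            · simp only [Finset.mem_insert, Finset.mem_singleton, not_or]
              exact ⟨hbc.ne, hdb.symm, heb.symm⟩
            · simp only [Finset.mem_insert, Finset.mem_singleton, not_or]
              exact ⟨hab.ne, hac, hda.symm, hea.symm⟩
          rw [← h5]
          exact Finset.card_le_univ _
        have hcov := ih (n - 1) (by omega) _ (del G a) (by omega) hT1 htw1 (by omega)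
        obtain ⟨e1, -⟩ := del_iso hab.ne' ha
        rcases hcov with ⟨q, hq, ⟨f⟩⟩ | ⟨q, hq, ⟨f⟩⟩ | hbig
        rotate_left 2
        · exact Or.inr (Or.inr (tooBig_mono hbig (by omega)))
        · refine Or.inl ⟨q, hq, ⟨f.trans ⟨⟨fun x => x.1, Subtype.val_injective⟩, ?_⟩⟩⟩
          intro x y; exact Iff.rfl
        · obtain ⟨e3, -⟩ := fwd_congr f (x := f.symm ⟨b, hab.ne'⟩) (f.apply_symm_apply _)
          refine (hA q hq _ ?_).iso (e1.comp e3)
          refine ⟨f.symm ⟨c, hac.symm⟩, fun z => ?_⟩
          have hb' : ∀ z, (del G a).Adj ⟨b, hab.ne'⟩ z ↔ z = ⟨c, hac.symm⟩ := by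
            rintro ⟨z, hz⟩
            change G.Adj b z ↔ _
            rw [hb, Subtype.mk.injEq]
            exact ⟨fun h => h.resolve_left hz, fun h => Or.inr h⟩
          rw [← f.map_adj_iff, f.apply_symm_apply, hb', f.eq_symm_apply]
    · -- exactly four vertices
      have hall : ∀ e, e = a ∨ e = b ∨ e = c ∨ e = d := by
        intro e
        by_contra hcon
        push Not at hcon
        exact hfour ⟨e, hcon.1, hcon.2.1, hcon.2.2.1, hcon.2.2.2⟩
      refine Or.inr (Or.inl ⟨_, hbase, ?_⟩)
      apply path4_iso hac hda.symm hdb.symm hcd.ne hall hab hbc hcd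
      · rw [ha]; exact hbc.ne'
      · rw [ha]; exact hdb
      · rw [hb]; rintro (h | h)
        · exact hda h
        · exact hcd.ne h.symm

end Pool.Agent.SA27
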