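import Pool.Agent.SA27.Bases

set_option autoImplicit false

/-! Edge certificates, part 1. -/

namespace Pool.Agent.SA27

/-- Certificates. -/
def finE1 : List (List ℕ × EC) := [
  ([0, 0, 1, 2], ⟨1, 2, ⟨0, [0, 0], true, 0, 0, [], []⟩, [1, 0],
    ⟨0, [0, 0], true, 0, 0, [], []⟩, [2, 3]⟩),
  ([0, 0, 1, 2, 0], ⟨0, 1, ⟨0, [0, 0], true, 0, 0, [], []⟩, [0, 4],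
    ⟨1, [0, 0], true, 0, 0, [], []⟩, [1, 2, 3]⟩),
  ([0, 0, 1, 2, 0, 3], ⟨0, 1, ⟨0, [0, 0], true, 0, 0, [], []⟩, [0, 4],
    ⟨2, [0, 0], true, 0, 0, [], []⟩, [1, 2, 3, 5]⟩),
  ([0, 0, 1, 2, 0, 0, 5], ⟨0, 1, ⟨0, [0, 0, 0, 2], false, 0, 1, [0, 1, 2, 4], [0, 1, 5, 4, 2, 6, 3]⟩, [0, 4, 5, 6],
    ⟨1, [0, 0], true, 0, 0, [], []⟩, [1, 2, 3]⟩),
  ([0, 0, 1, 2, 0, 1, 5], ⟨0, 1, ⟨0, [0, 0], true, 0, 0, [], []⟩, [0, 4],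
    ⟨0, [0, 0, 1, 0, 3], false, 0, 0, [0, 1, 3, 2, 4], [1, 0, 2, 5, 4, 3, 6]⟩, [1, 2, 3, 5, 6]⟩),
  ([0, 0, 1, 2, 0, 3, 4], ⟨0, 1, ⟨1, [0, 0], true, 0, 0, [], []⟩, [0, 4, 6],
    ⟨2, [0, 0], true, 0, 0, [], []⟩, [1, 2, 3, 5]⟩),
  ([0, 0, 1, 2, 1, 4, 2, 6], ⟨1, 2, ⟨0, [0, 0, 0, 2], false, 0, 1, [0, 1, 2, 4], [1, 2, 4, 0, 6, 5, 7]⟩, [1, 0, 4, 5],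
    ⟨0, [0, 0, 0, 2], false, 0, 1, [0, 1, 2, 4], [1, 2, 4, 0, 6, 5, 7]⟩, [2, 3, 6, 7]⟩),
  ([0, 0, 1, 2, 0, 0, 5, 3], ⟨0, 1, ⟨0, [0, 0, 0, 2], false, 0, 1, [0, 1, 2, 4], [0, 1, 5, 4, 2, 6, 3]⟩, [0, 4, 5, 6],
    ⟨2, [0, 0], true, 0, 0, [], []⟩, [1, 2, 3, 7]⟩),
  ([0, 0, 1, 2, 0, 0, 5, 4], ⟨0, 1, ⟨0, [0, 0, 1, 0, 3], false, 0, 0, [0, 1, 3, 2, 4], [0, 1, 4, 5, 2, 7, 6]⟩, [0, 4, 7, 5, 6],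
    ⟨1, [0, 0], true, 0, 0, [], []⟩, [1, 2, 3]⟩),
  ([0, 0, 1, 2, 0, 3, 4, 5], ⟨0, 1, ⟨1, [0, 0], true, 0, 0, [], []⟩, [0, 4, 6],
    ⟨3, [0, 0], true, 0, 0, [], []⟩, [1, 2, 3, 5, 7]⟩),
  ([0, 0, 1, 2, 0, 0, 5, 1, 7], ⟨0, 1, ⟨0, [0, 0, 0, 2], false, 0, 0, [0, 1, 2, 4], [1, 0, 2, 7, 4, 3, 8]⟩, [0, 4, 5, 6],
    ⟨0, [0, 0, 1, 0, 3], false, 0, 0, [0, 1, 3, 2, 4], [1, 0, 2, 7, 4, 3, 8]⟩, [1, 2, 3, 7, 8]⟩),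
  ([0, 0, 1, 2, 0, 0, 5, 2, 7], ⟨0, 1, ⟨0, [0, 0, 0, 2], false, 0, 1, [0, 1, 2, 4], [0, 1, 5, 4, 2, 6, 3]⟩, [0, 4, 5, 6],
    ⟨1, [0, 0, 0, 2], false, 0, 1, [0, 1, 2, 4], [0, 1, 5, 4, 2, 6, 3]⟩, [1, 2, 3, 7, 8]⟩),
  ([0, 0, 1, 2, 0, 0, 5, 5, 7], ⟨0, 5, ⟨0, [0, 0, 1, 2, 0], false, 1, 2, [0, 2, 3, 4, 1], [7, 5, 8, 0, 6, 1, 4, 2, 3]⟩, [0, 1, 2, 3, 4],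
    ⟨0, [0, 0, 0, 2], false, 0, 1, [0, 1, 2, 4], [0, 1, 5, 4, 2, 6, 3]⟩, [5, 6, 7, 8]⟩),
  ([0, 0, 1, 2, 0, 0, 5, 3, 4], ⟨0, 1, ⟨0, [0, 0, 1, 0, 3], false, 0, 0, [0, 1, 3, 2, 4], [0, 1, 4, 5, 2, 8, 6]⟩, [0, 4, 8, 5, 6],
    ⟨2, [0, 0], true, 0, 0, [], []⟩, [1, 2, 3, 7]⟩),
  ([0, 0, 1, 2, 0, 0, 5, 3, 6], ⟨0, 1, ⟨0, [0, 0, 0, 2, 3], false, 1, 5, [0, 1, 2, 3, 4], [0, 1, 5, 4, 2, 6, 3, 8, 7]⟩, [0, 4, 5, 6, 8],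
    ⟨2, [0, 0], true, 0, 0, [], []⟩, [1, 2, 3, 7]⟩),
  ([0, 0, 1, 2, 0, 0, 5, 3, 7], ⟨0, 1, ⟨0, [0, 0, 0, 2], false, 0, 1, [0, 1, 2, 4], [0, 1, 5, 4, 2, 6, 3]⟩, [0, 4, 5, 6],
    ⟨3, [0, 0], true, 0, 0, [], []⟩, [1, 2, 3, 7, 8]⟩),
  ([0, 0, 1, 2, 0, 3, 4, 5, 6], ⟨0, 1, ⟨2, [0, 0], true, 0, 0, [], []⟩, [0, 4, 6, 8],
    ⟨3, [0, 0], true, 0, 0, [], []⟩, [1, 2, 3, 5, 7]⟩),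
  ([0, 0, 1, 2, 0, 0, 5, 1, 7, 4], ⟨0, 1, ⟨0, [0, 0, 1, 0, 3], false, 0, 0, [0, 1, 3, 2, 4], [0, 1, 4, 5, 2, 9, 6]⟩, [0, 4, 9, 5, 6],
    ⟨0, [0, 0, 1, 0, 3], false, 0, 0, [0, 1, 3, 2, 4], [0, 1, 4, 5, 2, 9, 6]⟩, [1, 2, 3, 7, 8]⟩)]

theorem finE1_ok : (finE1.all fun p => edgeB bases0 p.1 p.2) = true := by
  decide +kernel

end Pool.Agent.SA27
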