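import Pool.Agent.SA27.Small7
import Pool.Agent.SA27.Bases2

set_option autoImplicit false

/-! The trees of the list `L81`, given the two rooted base facts. -/

namespace Pool.Agent.SA27

open SimpleGraph Pool.Agent.SA33 Pool.Agent.SA97 Pool.Agent.SA32

theorem hsmall_of_rb (h1 : RootBaseOK rb1) (h2 : RootBaseOK rb2) :
    ∀ k, 3 ≤ k → ∀ q ∈ L81, (ptree q).IsTree → TwinFree (ptree q) →
      EdgeGood (ptree q) k ∨ PlusGood (ptree q) k := by
  apply hsmall_of_U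
  · intro k hk q hq _
    refine h1 (by decide) (ptree q) k hk ?_
    simp only [List.mem_cons, List.not_mem_nil, or_false] at hq
    rcases hq with rfl | rfl | rfl | rfl | rfl | rfl
    · exact ⟨[0, 0, 1, 2, 1, 4, 2, 6, 4, 8], by decide +kernel,
        embB_emb (σ := [0, 1, 2, 3, 4, 5, 6, 7, 8, 9]) (by decide +kernel)⟩
    · exact ⟨[0, 0, 1, 2, 1, 4, 2, 6, 4, 8], by decide +kernel,
        embB_emb (σ := [4, 0, 1, 2, 5, 6, 7, 8, 9, 10]) (by decide +kernel)⟩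
    · exact ⟨[0, 0, 1, 2, 0, 0, 5, 3, 5, 8], by decide +kernel,
        embB_emb (σ := [0, 1, 2, 7, 4, 5, 6, 8, 9, 10]) (by decide +kernel)⟩
    · exact ⟨[0, 0, 1, 2, 1, 4, 2, 6, 4, 8], by decide +kernel,
        embB_emb (σ := [6, 5, 0, 4, 7, 8, 1, 2, 9, 10]) (by decide +kernel)⟩
    · exact ⟨[0, 0, 1, 2, 0, 0, 5, 3, 5, 8], by decide +kernel,
        embB_emb (σ := [0, 1, 2, 3, 4, 5, 6, 7, 8, 9]) (by decide +kernel)⟩
    · exact ⟨[0, 0, 1, 2, 0, 0, 5, 3, 5, 8], by decide +kernel,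
        embB_emb (σ := [0, 1, 2, 7, 4, 5, 6, 8, 9, 10]) (by decide +kernel)⟩
  · intro k hk _
    exact h2 (by decide) _ k hk ⟨_, by decide +kernel, ⟨SimpleGraph.Embedding.refl⟩⟩

end Pool.Agent.SA27
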