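import Pool.Agent.SA27.L81
import Pool.Agent.SA36.Tree
import Pool.Agent.SA33.Pg
import Pool.Agent.SA97.Small

set_option autoImplicit false

/-! Certificates for the halves of a tree given by a parent list. -/

namespace Pool.Agent.SA27

open SimpleGraph Pool.Agent.SA33 Pool.Agent.SA36 Pool.Agent.SA97

/-- Recognising a half of a tree. -/
theorem hf_eq {V : Type*} {T : SimpleGraph V} (hT : T.IsTree) {a b : V} (hab : T.Adj a b)
    (H : Set V) (ha : a ∈ H) (hb : b ∉ H)
    (hcl : ∀ v w, T.Adj v w → v ∈ H → w ∉ H → v = a ∧ w = b) : hf T a b = H := by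
  have h1 : ∀ v, v ∈ hf T a b → v ∈ H := by
    intro v hv
    refine hf_induction (p := fun v => v ∈ H) ha ?_ hv
    intro v w hv hvH hvw hw
    by_contra hwH
    obtain ⟨-, rfl⟩ := hcl v w hvw hvH hwH
    exact not_mem_hf hT.2 hab hw
  have h2 : ∀ v, v ∈ hf T b a → v ∉ H := by
    intro v hv
    refine hf_induction (p := fun v => v ∉ H) hb ?_ hv
    intro v w hv hvH hvw hw hwH
    obtain ⟨rfl, -⟩ := hcl w v hvw.symm hwH hvH
    exact not_mem_hf hT.2 hab.symm hw
  ext v
  refine ⟨h1 v, fun h => ?_⟩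
  rcases hf_cover hT hab v with h3 | h3
  · exact h3
  · exact absurd h (h2 v h3)

/-- `v` is a value of the table `σ` below `n`. -/
def memB (σ : List ℕ) (v : ℕ) : ℕ → Bool
  | 0 => false
  | n + 1 => cond (Nat.beq (σ.getD n 0) v) true (memB σ v n)

theorem memB_iff {σ : List ℕ} {v n : ℕ} : memB σ v n = true ↔ ∃ i, i < n ∧ σ.getD i 0 = v := by
  induction n with
  | zero => simp [memB]
  | succ n ih =>
    rw [memB]
    cases h : Nat.beq (σ.getD n 0) v
    · rw [cond_false, ih]
      have hne : σ.getD n 0 ≠ v := fun h' => by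
        rw [h', Nat.beq_refl] at h
        exact absurd h (by decide)
      constructor
      · rintro ⟨i, hi, h1⟩; exact ⟨i, by omega, h1⟩
      · rintro ⟨i, hi, h1⟩
        refine ⟨i, ?_, h1⟩
        rcases Nat.lt_succ_iff_lt_or_eq.1 hi with h2 | h2
        · exact h2
        · rw [h2] at h1; exact absurd h1 hne
    · rw [cond_true]
      exact ⟨fun _ => ⟨n, by omega, Nat.eq_of_beq_eq_true h⟩, fun _ => rfl⟩

/-- The table `σ` maps the tree `h` onto the half at `a` of the edge `ab` of the tree `q`. -/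
def halfB (q h σ : List ℕ) (a b : ℕ) : Bool :=
  Nat.blt 0 h.length && Nat.beq (σ.getD 0 0) a && Nat.blt a q.length && Nat.blt b q.length &&
  padj q a b && embB h q σ && !(memB σ b h.length) &&
  allB q.length fun w => allB w fun v =>
    !(padj q v w) || (memB σ v h.length == memB σ w h.length) ||
      (Nat.beq v a && Nat.beq w b) || (Nat.beq v b && Nat.beq w a)

theorem half_iso {q h σ : List ℕ} {a b : ℕ} (hT : (ptree q).IsTree)
    (hB : halfB q h σ a b = true) : ∃ (h0 : 0 < h.length) (ha : a < q.length) (hb : b < q.length),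
      (ptree q).Adj ⟨a, ha⟩ ⟨b, hb⟩ ∧
      ∃ e : ptree h ≃g (ptree q).induce (hf (ptree q) ⟨a, ha⟩ ⟨b, hb⟩),
        e ⟨0, h0⟩ = ⟨⟨a, ha⟩, self_mem_hf _ _⟩ := by
  unfold halfB at hB
  simp only [Bool.and_eq_true] at hB
  obtain ⟨⟨⟨⟨⟨⟨⟨k1, k2⟩, k3⟩, k4⟩, k5⟩, k6⟩, k7⟩, k8⟩ := hB
  have h0 : 0 < h.length := Nat.le_of_ble_eq_true k1
  have ha : a < q.length := Nat.le_of_ble_eq_true k3
  have hb : b < q.length := Nat.le_of_ble_eq_true k4
  have hσ0 : σ.getD 0 0 = a := Nat.eq_of_beq_eq_true k2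
  have hab : (ptree q).Adj ⟨a, ha⟩ ⟨b, hb⟩ := k5
  have hlt : ∀ i : Fin h.length, σ.getD i.1 0 < q.length := by
    intro b
    have h1 := allB_spec k6 b.2
    rw [Bool.and_eq_true] at h1
    exact Nat.le_of_ble_eq_true h1.1
  let v : Fin h.length → Fin q.length := fun i => ⟨σ.getD i.1 0, hlt i⟩
  have hv1 : ∀ i j, i < j → ((ptree q).Adj (v i) (v j) ↔ (ptree h).Adj i j) := by
    intro i j hij
    have h1 := allB_spec k6 j.2
    rw [Bool.and_eq_true] at h1
    have h2 := allB_spec h1.2 hij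
    rw [Bool.and_eq_true, beq_iff_eq] at h2
    change padj q (σ.getD i.1 0) (σ.getD j.1 0) = true ↔ padj h i.1 j.1 = true
    rw [h2.2]
  have hv2 : ∀ i j, i < j → v i ≠ v j := by
    intro i j hij heq
    have h1 := allB_spec k6 j.2
    rw [Bool.and_eq_true] at h1
    have h2 := allB_spec h1.2 hij
    rw [Bool.and_eq_true] at h2
    have h3 : σ.getD i.1 0 = σ.getD j.1 0 := congrArg Fin.val heq
    rw [h3, Nat.beq_refl] at h2
    exact absurd h2.1 (by decide)
  obtain ⟨φ, hφ⟩ := embed_of (ptree h) (ptree q) v hv1 hv2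
  have hmem : ∀ x : Fin q.length, x ∈ Set.range v ↔ memB σ x.1 h.length = true := by
    intro x
    rw [memB_iff]
    constructor
    · rintro ⟨i, rfl⟩; exact ⟨i.1, i.2, rfl⟩
    · rintro ⟨i, hi, h1⟩; exact ⟨⟨i, hi⟩, Fin.ext h1⟩
  have hH : hf (ptree q) ⟨a, ha⟩ ⟨b, hb⟩ = Set.range v := by
    apply hf_eq hT hab
    · exact ⟨⟨0, h0⟩, Fin.ext hσ0⟩
    · rw [hmem]
      intro h1
      change memB σ b h.length = true at h1
      rw [h1] at k7
      exact absurd k7 (by decide)
    · intro x y hxy hx hy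
      rw [hmem] at hx hy
      rw [Bool.not_eq_true] at hy
      rcases lt_trichotomy x y with hlt' | heq | hlt'
      · have h1 := allB_spec (allB_spec k8 y.2) hlt'
        have hxy' : padj q x.1 y.1 = true := hxy
        rw [hxy', hx, hy] at h1
        simp only [Bool.not_true, Bool.false_or, Bool.or_eq_true, Bool.and_eq_true] at h1
        rcases h1 with (h1 | ⟨h1, h2⟩) | ⟨h1, h2⟩
        · exact absurd h1 (by decide)
        · exact ⟨Fin.ext (Nat.eq_of_beq_eq_true h1), Fin.ext (Nat.eq_of_beq_eq_true h2)⟩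
        · exfalso
          have h3 := Nat.eq_of_beq_eq_true h1
          rw [h3] at hx
          rw [hx] at k7
          exact absurd k7 (by decide)
      · exfalso
        rw [heq] at hx
        rw [hx] at hy
        exact absurd hy (by decide)
      · have h1 := allB_spec (allB_spec k8 x.2) hlt'
        have hxy' : padj q y.1 x.1 = true := hxy.symm
        rw [hxy', hx, hy] at h1
        simp only [Bool.not_true, Bool.false_or, Bool.or_eq_true, Bool.and_eq_true] at h1
        rcases h1 with (h1 | ⟨h1, h2⟩) | ⟨h1, h2⟩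
        · exact absurd h1 (by decide)
        · exfalso
          have h3 := Nat.eq_of_beq_eq_true h2
          rw [h3] at hx
          rw [hx] at k7
          exact absurd k7 (by decide)
        · exact ⟨Fin.ext (Nat.eq_of_beq_eq_true h2), Fin.ext (Nat.eq_of_beq_eq_true h1)⟩
  refine ⟨h0, ha, hb, hab, ?_⟩
  have hmem2 : ∀ i, φ i ∈ hf (ptree q) ⟨a, ha⟩ ⟨b, hb⟩ := by
    intro i
    rw [hH]
    exact ⟨i, (hφ i).symm⟩
  let f : Fin h.length → hf (ptree q) ⟨a, ha⟩ ⟨b, hb⟩ := fun i => ⟨φ i, hmem2 i⟩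
  have hf' : Function.Bijective f := by
    constructor
    · intro i j hij
      exact φ.injective (congrArg Subtype.val hij)
    · rintro ⟨x, hx⟩
      have hx' : x ∈ Set.range v := by rw [← hH]; exact hx
      obtain ⟨i, rfl⟩ := hx'
      exact ⟨i, Subtype.ext (hφ i)⟩
  refine ⟨⟨Equiv.ofBijective f hf', ?_⟩, ?_⟩
  · intro i j
    exact φ.map_adj_iff
  · apply Subtype.ext
    change φ ⟨0, h0⟩ = _
    rw [hφ]
    exact Fin.ext hσ0

/-- The new root attached to the root `0`. -/
def up (s : List ℕ) : List ℕ := 0 :: 0 :: s.tail.map (· + 1)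

/-- Iterated `up`. -/
def upN : ℕ → List ℕ → List ℕ
  | 0, s => s
  | n + 1, s => up (upN n s)

theorem up_length {s : List ℕ} (h : 0 < s.length) : (up s).length = s.length + 1 := by
  unfold up
  simp only [List.length_cons, List.length_map, List.length_tail]
  omega

theorem up_getD {s : List ℕ} {i : ℕ} (h1 : 1 ≤ i) (h2 : i < s.length) :
    (up s).getD (i + 1) 0 = s.getD i 0 + 1 := by
  unfold up
  cases s with
  | nil => exact absurd h2 (by simp)
  | cons x s =>
    obtain ⟨j, rfl⟩ : ∃ j, i = j + 1 := ⟨i - 1, by omega⟩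
    simp only [List.tail_cons, List.getD_cons_succ]
    have h3 : j < s.length := by simpa using h2
    rw [List.getD_eq_getElem _ _ (by simpa using h3), List.getD_eq_getElem _ _ h3]
    simp

theorem up_iso {s : List ℕ} (h : 0 < s.length) :
    ∃ e : fwd (ptree s) ⟨0, h⟩ ≃g ptree (up s), e none = ⟨0, by rw [up_length h]; omega⟩ := by
  classical
  have hl := up_length h
  let f : Option (Fin s.length) → Fin (up s).length := fun o =>
    o.elim ⟨0, by omega⟩ (fun a => ⟨a.1 + 1, by omega⟩)
  have hf : Function.Bijective f := by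
    constructor
    · rintro (_ | a) (_ | b) h
      · rfl
      · have := congrArg Fin.val h
        change 0 = b.1 + 1 at this
        omega
      · have := congrArg Fin.val h
        change a.1 + 1 = 0 at this
        omega
      · have := congrArg Fin.val h
        change a.1 + 1 = b.1 + 1 at this
        rw [Fin.ext (show a.1 = b.1 by omega)]
    · rintro ⟨x, hx⟩
      rcases Nat.eq_zero_or_pos x with h0 | h0
      · exact ⟨none, Fin.ext h0.symm⟩
      · refine ⟨some ⟨x - 1, by omega⟩, Fin.ext ?_⟩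
        change x - 1 + 1 = x
        omega
  have hroot : ∀ b : ℕ, b < s.length → (padj (up s) 0 (b + 1) = true ↔ b = 0) := by
    intro b hb
    have h1 : Nat.blt 0 (b + 1) = true := Nat.ble_eq_true_of_le (by omega)
    have h2 : Nat.blt (b + 1) 0 = false := by
      rw [Bool.eq_false_iff]
      intro h
      have := Nat.le_of_ble_eq_true h
      omega
    unfold padj
    rw [h1, h2, Bool.true_and, Bool.false_and, Bool.or_false]
    rcases Nat.eq_zero_or_pos b with h0 | h0
    · subst h0
      exact ⟨fun _ => rfl, fun _ => rfl⟩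
    · rw [up_getD h0 hb]
      constructor
      · intro h3
        have := Nat.eq_of_beq_eq_true h3
        omega
      · intro h3; omega
  have hblt : ∀ a b : ℕ, Nat.blt (a + 1) (b + 1) = Nat.blt a b := by
    intro a b
    rw [Bool.eq_iff_iff]
    constructor
    · intro h
      have := Nat.le_of_ble_eq_true h
      exact Nat.ble_eq_true_of_le (by omega)
    · intro h
      have := Nat.le_of_ble_eq_true h
      exact Nat.ble_eq_true_of_le (by omega)
  have hside : ∀ a b : ℕ, b < s.length →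
      (Nat.blt (a + 1) (b + 1) && Nat.beq ((up s).getD (b + 1) 0) (a + 1)) =
        (Nat.blt a b && Nat.beq (s.getD b 0) a) := by
    intro a b hb
    rw [hblt]
    cases hab : Nat.blt a b
    · rfl
    · have : a < b := Nat.le_of_ble_eq_true hab
      rw [up_getD (by omega) hb]
      rw [Bool.true_and, Bool.true_and, Bool.eq_iff_iff]
      constructor
      · intro h
        have := Nat.eq_of_beq_eq_true h
        rw [show s.getD b 0 = a by omega]
        exact Nat.beq_refl a
      · intro h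
        rw [Nat.eq_of_beq_eq_true h]
        exact Nat.beq_refl _
  refine ⟨⟨Equiv.ofBijective f hf, ?_⟩, rfl⟩
  rintro (_ | a) (_ | b)
  · exact ⟨fun h => absurd h ((ptree (up s)).loopless.irrefl _), fun h => h.elim⟩
  · change padj (up s) 0 (b.1 + 1) = true ↔ b = ⟨0, h⟩
    rw [hroot _ b.2]
    exact ⟨fun h => Fin.ext h, fun h => congrArg Fin.val h⟩
  · change padj (up s) (a.1 + 1) 0 = true ↔ a = ⟨0, h⟩
    rw [padj_comm, hroot _ a.2]
    exact ⟨fun h => Fin.ext h, fun h => congrArg Fin.val h⟩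
  · change padj (up s) (a.1 + 1) (b.1 + 1) = true ↔ padj s a.1 b.1 = true
    unfold padj
    rw [hside _ _ a.2, hside _ _ b.2]

/-- `PG` for the tree `s` rooted at `0`. -/
def PGL {τ : Type} (T : SimpleGraph τ) (k : ℕ) (s : List ℕ) : Prop :=
  ∃ h : 0 < s.length, PG T k (ptree s) ⟨0, h⟩

theorem pgl_iso {τ : Type} {T : SimpleGraph τ} {k : ℕ} {s : List ℕ} {σ : Type}
    {S : SimpleGraph σ} {x : σ} (h : PG T k S x) (h0 : 0 < s.length) (e : S ≃g ptree s)
    (he : e x = ⟨0, h0⟩) : PGL T k s := by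
  refine ⟨h0, ?_⟩
  rw [← he]
  exact h.iso e

theorem pgl_leaf {τ : Type} {T : SimpleGraph τ} {k : ℕ} : PGL T k [0, 0] := by
  let e : fwd (⊥ : SimpleGraph Unit) () ≃g ptree [0, 0] := ⟨⟨fun o => o.elim (0 : Fin 2) (fun _ => 1),
    fun i => if i = (0 : Fin 2) then none else some (), by
      rintro (_ | ⟨⟩) <;> rfl, by
      intro i
      change Fin 2 at i
      fin_cases i <;> rfl⟩, by
    rintro (_ | ⟨⟩) (_ | ⟨⟩)
    · exact ⟨fun h => absurd h (by decide), fun h => h.elim⟩
    · exact ⟨fun _ => rfl, fun _ => rfl⟩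
    · exact ⟨fun _ => rfl, fun _ => rfl⟩
    · exact ⟨fun h => absurd h ((ptree [0, 0]).loopless.irrefl _), fun h => h.elim⟩⟩
  exact pgl_iso PG.leaf (by decide) e rfl

theorem pgl_up {τ : Type} {T : SimpleGraph τ} {k : ℕ} {s : List ℕ} (h : PGL T k s)
    (h2 : 2 ≤ s.length) (h1 : s.getD 1 1 = 0) : PGL T k (up s) := by
  obtain ⟨h0, hp⟩ := h
  obtain ⟨e, he⟩ := up_iso h0
  refine pgl_iso (hp.fwd ⟨⟨1, h2⟩, ?_⟩) (by rw [up_length h0]; omega) e he
  change padj s 0 1 = true
  unfold padj
  have h3 : s.getD 1 0 = 0 := by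
    rw [List.getD_eq_getElem _ _ h2] at h1 ⊢
    exact h1
  rw [h3]
  rfl

theorem pgl_good {τ : Type} {T : SimpleGraph τ} {k : ℕ} {s s' σ : List ℕ} (h0' : 0 < s'.length)
    (h : Good T k (ptree s') ⟨0, h0'⟩) (h0 : 0 < s.length) (hσ : embB s s' σ = true)
    (hσ0 : σ.getD 0 0 = 0) : PGL T k s := by
  refine ⟨h0, PG.good ?_⟩
  have hlt : ∀ b : Fin s.length, σ.getD b.1 0 < s'.length := by
    intro b
    have h1 := allB_spec hσ b.2
    rw [Bool.and_eq_true] at h1
    exact Nat.le_of_ble_eq_true h1.1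
  obtain ⟨φ, hφ⟩ := embed_of (ptree s) (ptree s') (fun b => ⟨σ.getD b.1 0, hlt b⟩) (by
    intro i j hij
    have h1 := allB_spec hσ j.2
    rw [Bool.and_eq_true] at h1
    have h2 := allB_spec h1.2 hij
    rw [Bool.and_eq_true, beq_iff_eq] at h2
    change padj s' (σ.getD i.1 0) (σ.getD j.1 0) = true ↔ padj s i.1 j.1 = true
    rw [h2.2]) (by
    intro i j hij heq
    have h1 := allB_spec hσ j.2
    rw [Bool.and_eq_true] at h1
    have h2 := allB_spec h1.2 hij
    rw [Bool.and_eq_true] at h2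
    have h3 : σ.getD i.1 0 = σ.getD j.1 0 := congrArg Fin.val heq
    rw [h3, Nat.beq_refl] at h2
    exact absurd h2.1 (by decide))
  refine good_mono h φ ?_
  rw [hφ]
  exact Fin.ext hσ0

end Pool.Agent.SA27
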