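import Pool.Agent.SA27.Check

set_option autoImplicit false

/-! The 332 twin-free trees with 4 to 13 vertices. -/

namespace Pool.Agent.SA27

/-- Part 1 of the list of twin-free trees. -/
def L13_1 : List (List ℕ) := [
  [0, 0, 1, 2],
  [0, 0, 1, 2, 0],
  [0, 0, 1, 2, 0, 3],
  [0, 0, 1, 2, 1, 4],
  [0, 0, 1, 2, 0, 3, 4],
  [0, 0, 1, 2, 1, 4, 0],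
  [0, 0, 1, 2, 1, 4, 3],
  [0, 0, 1, 2, 0, 3, 4, 5],
  [0, 0, 1, 2, 1, 4, 0, 3],
  [0, 0, 1, 2, 1, 4, 3, 5],
  [0, 0, 1, 2, 1, 4, 3, 6],
  [0, 0, 1, 2, 1, 4, 1, 6],
  [0, 0, 1, 2, 1, 4, 2, 6],
  [0, 0, 1, 2, 0, 3, 4, 5, 6],
  [0, 0, 1, 2, 1, 4, 0, 3, 5],
  [0, 0, 1, 2, 1, 4, 0, 3, 7],
  [0, 0, 1, 2, 1, 4, 3, 5, 6],
  [0, 0, 1, 2, 1, 4, 3, 6, 7],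
  [0, 0, 1, 2, 1, 4, 1, 6, 0],
  [0, 0, 1, 2, 1, 4, 1, 6, 3],
  [0, 0, 1, 2, 1, 4, 2, 6, 0],
  [0, 0, 1, 2, 1, 4, 2, 6, 5],
  [0, 0, 1, 2, 1, 4, 3, 3, 7],
  [0, 0, 1, 2, 0, 3, 4, 5, 6, 7],
  [0, 0, 1, 2, 1, 4, 0, 3, 5, 6],
  [0, 0, 1, 2, 1, 4, 0, 3, 5, 7],
  [0, 0, 1, 2, 1, 4, 0, 3, 7, 8],
  [0, 0, 1, 2, 1, 4, 3, 5, 6, 7],
  [0, 0, 1, 2, 1, 4, 3, 5, 6, 8],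
  [0, 0, 1, 2, 1, 4, 3, 6, 7, 8],
  [0, 0, 1, 2, 1, 4, 1, 6, 0, 3],
  [0, 0, 1, 2, 1, 4, 1, 6, 3, 5],
  [0, 0, 1, 2, 1, 4, 1, 6, 3, 8],
  [0, 0, 1, 2, 1, 4, 2, 6, 0, 3],
  [0, 0, 1, 2, 1, 4, 2, 6, 0, 5],
  [0, 0, 1, 2, 1, 4, 2, 6, 0, 7],
  [0, 0, 1, 2, 1, 4, 2, 6, 5, 7],
  [0, 0, 1, 2, 1, 4, 2, 6, 5, 8],
  [0, 0, 1, 2, 1, 4, 3, 3, 7, 0],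
  [0, 0, 1, 2, 1, 4, 3, 3, 7, 5],
  [0, 0, 1, 2, 1, 4, 3, 6, 6, 8],
  [0, 0, 1, 2, 1, 4, 1, 6, 1, 8],
  [0, 0, 1, 2, 1, 4, 1, 6, 2, 8],
  [0, 0, 1, 2, 1, 4, 2, 6, 4, 8]]

/-- Part 2 of the list of twin-free trees. -/
def L13_2 : List (List ℕ) := [
  [0, 0, 1, 2, 0, 3, 4, 5, 6, 7, 8],
  [0, 0, 1, 2, 1, 4, 0, 3, 5, 6, 7],
  [0, 0, 1, 2, 1, 4, 0, 3, 5, 7, 8],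
  [0, 0, 1, 2, 1, 4, 0, 3, 5, 7, 9],
  [0, 0, 1, 2, 1, 4, 0, 3, 7, 8, 9],
  [0, 0, 1, 2, 1, 4, 3, 5, 6, 7, 8],
  [0, 0, 1, 2, 1, 4, 3, 5, 6, 8, 9],
  [0, 0, 1, 2, 1, 4, 3, 6, 7, 8, 9],
  [0, 0, 1, 2, 1, 4, 1, 6, 0, 3, 5],
  [0, 0, 1, 2, 1, 4, 1, 6, 0, 3, 9],
  [0, 0, 1, 2, 1, 4, 1, 6, 3, 5, 7],
  [0, 0, 1, 2, 1, 4, 1, 6, 3, 5, 8],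
  [0, 0, 1, 2, 1, 4, 1, 6, 3, 8, 9],
  [0, 0, 1, 2, 1, 4, 2, 6, 0, 3, 5],
  [0, 0, 1, 2, 1, 4, 2, 6, 0, 5, 7],
  [0, 0, 1, 2, 1, 4, 2, 6, 0, 5, 8],
  [0, 0, 1, 2, 1, 4, 2, 6, 0, 5, 9],
  [0, 0, 1, 2, 1, 4, 2, 6, 0, 7, 9],
  [0, 0, 1, 2, 1, 4, 2, 6, 5, 7, 8],
  [0, 0, 1, 2, 1, 4, 2, 6, 5, 8, 9],
  [0, 0, 1, 2, 1, 4, 3, 3, 7, 0, 5],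
  [0, 0, 1, 2, 1, 4, 3, 3, 7, 0, 6],
  [0, 0, 1, 2, 1, 4, 3, 3, 7, 0, 8],
  [0, 0, 1, 2, 1, 4, 3, 3, 7, 5, 8],
  [0, 0, 1, 2, 1, 4, 3, 3, 7, 5, 9],
  [0, 0, 1, 2, 1, 4, 3, 6, 6, 8, 0],
  [0, 0, 1, 2, 1, 4, 3, 6, 6, 8, 5],
  [0, 0, 1, 2, 1, 4, 1, 6, 1, 8, 0],
  [0, 0, 1, 2, 1, 4, 1, 6, 1, 8, 3],
  [0, 0, 1, 2, 1, 4, 1, 6, 2, 8, 0],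
  [0, 0, 1, 2, 1, 4, 1, 6, 2, 8, 3],
  [0, 0, 1, 2, 1, 4, 1, 6, 2, 8, 5],
  [0, 0, 1, 2, 1, 4, 1, 6, 2, 8, 9],
  [0, 0, 1, 2, 1, 4, 2, 6, 4, 8, 0],
  [0, 0, 1, 2, 1, 4, 2, 6, 4, 8, 3],
  [0, 0, 1, 2, 1, 4, 2, 6, 4, 8, 7],
  [0, 0, 1, 2, 1, 4, 3, 6, 7, 7, 9],
  [0, 0, 1, 2, 1, 4, 1, 6, 3, 3, 9],
  [0, 0, 1, 2, 1, 4, 2, 6, 5, 5, 9],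
  [0, 0, 1, 2, 0, 3, 4, 5, 6, 7, 8, 9]]

/-- Part 3 of the list of twin-free trees. -/
def L13_3 : List (List ℕ) := [
  [0, 0, 1, 2, 1, 4, 0, 3, 5, 6, 7, 8],
  [0, 0, 1, 2, 1, 4, 0, 3, 5, 6, 7, 10],
  [0, 0, 1, 2, 1, 4, 0, 3, 5, 7, 8, 9],
  [0, 0, 1, 2, 1, 4, 0, 3, 5, 7, 9, 10],
  [0, 0, 1, 2, 1, 4, 0, 3, 7, 8, 9, 10],
  [0, 0, 1, 2, 1, 4, 3, 5, 6, 7, 8, 9],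
  [0, 0, 1, 2, 1, 4, 3, 5, 6, 7, 8, 10],
  [0, 0, 1, 2, 1, 4, 3, 5, 6, 8, 9, 10],
  [0, 0, 1, 2, 1, 4, 3, 6, 7, 8, 9, 10],
  [0, 0, 1, 2, 1, 4, 1, 6, 0, 3, 5, 7],
  [0, 0, 1, 2, 1, 4, 1, 6, 0, 3, 5, 9],
  [0, 0, 1, 2, 1, 4, 1, 6, 0, 3, 9, 10],
  [0, 0, 1, 2, 1, 4, 1, 6, 3, 5, 7, 8],
  [0, 0, 1, 2, 1, 4, 1, 6, 3, 5, 8, 9],
  [0, 0, 1, 2, 1, 4, 1, 6, 3, 5, 8, 10],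
  [0, 0, 1, 2, 1, 4, 1, 6, 3, 8, 9, 10],
  [0, 0, 1, 2, 1, 4, 2, 6, 0, 3, 5, 7],
  [0, 0, 1, 2, 1, 4, 2, 6, 0, 3, 5, 8],
  [0, 0, 1, 2, 1, 4, 2, 6, 0, 3, 5, 10],
  [0, 0, 1, 2, 1, 4, 2, 6, 0, 5, 7, 8],
  [0, 0, 1, 2, 1, 4, 2, 6, 0, 5, 7, 9],
  [0, 0, 1, 2, 1, 4, 2, 6, 0, 5, 7, 10],
  [0, 0, 1, 2, 1, 4, 2, 6, 0, 5, 8, 9],
  [0, 0, 1, 2, 1, 4, 2, 6, 0, 5, 9, 10],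
  [0, 0, 1, 2, 1, 4, 2, 6, 0, 7, 9, 10],
  [0, 0, 1, 2, 1, 4, 2, 6, 5, 7, 8, 9],
  [0, 0, 1, 2, 1, 4, 2, 6, 5, 7, 8, 10],
  [0, 0, 1, 2, 1, 4, 2, 6, 5, 8, 9, 10],
  [0, 0, 1, 2, 1, 4, 3, 3, 7, 0, 5, 6],
  [0, 0, 1, 2, 1, 4, 3, 3, 7, 0, 5, 8],
  [0, 0, 1, 2, 1, 4, 3, 3, 7, 0, 5, 9],
  [0, 0, 1, 2, 1, 4, 3, 3, 7, 0, 5, 10],
  [0, 0, 1, 2, 1, 4, 3, 3, 7, 0, 8, 10],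
  [0, 0, 1, 2, 1, 4, 3, 3, 7, 5, 8, 9],
  [0, 0, 1, 2, 1, 4, 3, 3, 7, 5, 9, 10],
  [0, 0, 1, 2, 1, 4, 3, 6, 6, 8, 0, 5],
  [0, 0, 1, 2, 1, 4, 3, 6, 6, 8, 0, 7],
  [0, 0, 1, 2, 1, 4, 3, 6, 6, 8, 0, 9],
  [0, 0, 1, 2, 1, 4, 3, 6, 6, 8, 5, 9],
  [0, 0, 1, 2, 1, 4, 3, 6, 6, 8, 5, 10],
  [0, 0, 1, 2, 1, 4, 1, 6, 1, 8, 0, 3]]

/-- Part 4 of the list of twin-free trees. -/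
def L13_4 : List (List ℕ) := [
  [0, 0, 1, 2, 1, 4, 1, 6, 1, 8, 3, 5],
  [0, 0, 1, 2, 1, 4, 1, 6, 1, 8, 3, 10],
  [0, 0, 1, 2, 1, 4, 1, 6, 2, 8, 0, 3],
  [0, 0, 1, 2, 1, 4, 1, 6, 2, 8, 0, 5],
  [0, 0, 1, 2, 1, 4, 1, 6, 2, 8, 0, 9],
  [0, 0, 1, 2, 1, 4, 1, 6, 2, 8, 3, 5],
  [0, 0, 1, 2, 1, 4, 1, 6, 2, 8, 3, 9],
  [0, 0, 1, 2, 1, 4, 1, 6, 2, 8, 5, 7],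
  [0, 0, 1, 2, 1, 4, 1, 6, 2, 8, 5, 9],
  [0, 0, 1, 2, 1, 4, 1, 6, 2, 8, 5, 10],
  [0, 0, 1, 2, 1, 4, 1, 6, 2, 8, 9, 10],
  [0, 0, 1, 2, 1, 4, 2, 6, 4, 8, 0, 3],
  [0, 0, 1, 2, 1, 4, 2, 6, 4, 8, 0, 7],
  [0, 0, 1, 2, 1, 4, 2, 6, 4, 8, 0, 10],
  [0, 0, 1, 2, 1, 4, 2, 6, 4, 8, 3, 5],
  [0, 0, 1, 2, 1, 4, 2, 6, 4, 8, 3, 7],
  [0, 0, 1, 2, 1, 4, 2, 6, 4, 8, 3, 9],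
  [0, 0, 1, 2, 1, 4, 2, 6, 4, 8, 7, 9],
  [0, 0, 1, 2, 1, 4, 2, 6, 4, 8, 7, 10],
  [0, 0, 1, 2, 1, 4, 3, 6, 7, 7, 9, 0],
  [0, 0, 1, 2, 1, 4, 3, 6, 7, 7, 9, 5],
  [0, 0, 1, 2, 1, 4, 1, 6, 3, 3, 9, 0],
  [0, 0, 1, 2, 1, 4, 1, 6, 3, 3, 9, 5],
  [0, 0, 1, 2, 1, 4, 1, 6, 3, 3, 9, 8],
  [0, 0, 1, 2, 1, 4, 1, 6, 3, 3, 9, 10],
  [0, 0, 1, 2, 1, 4, 2, 6, 5, 5, 9, 0],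
  [0, 0, 1, 2, 1, 4, 2, 6, 5, 5, 9, 3],
  [0, 0, 1, 2, 1, 4, 2, 6, 5, 5, 9, 7],
  [0, 0, 1, 2, 1, 4, 2, 6, 5, 5, 9, 8],
  [0, 0, 1, 2, 1, 4, 2, 6, 5, 5, 9, 10],
  [0, 0, 1, 2, 1, 4, 3, 6, 7, 8, 8, 10],
  [0, 0, 1, 2, 1, 4, 1, 6, 3, 8, 8, 10],
  [0, 0, 1, 2, 1, 4, 2, 6, 5, 8, 8, 10],
  [0, 0, 1, 2, 1, 4, 3, 3, 7, 5, 5, 10],
  [0, 0, 1, 2, 1, 4, 1, 6, 1, 8, 1, 10],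
  [0, 0, 1, 2, 1, 4, 1, 6, 1, 8, 2, 10],
  [0, 0, 1, 2, 1, 4, 1, 6, 2, 8, 2, 10],
  [0, 0, 1, 2, 1, 4, 1, 6, 2, 8, 4, 10],
  [0, 0, 1, 2, 1, 4, 1, 6, 2, 8, 8, 10],
  [0, 0, 1, 2, 1, 4, 2, 6, 4, 8, 6, 10]]

/-- Part 5 of the list of twin-free trees. -/
def L13_5 : List (List ℕ) := [
  [0, 0, 1, 2, 0, 3, 4, 5, 6, 7, 8, 9, 10],
  [0, 0, 1, 2, 1, 4, 0, 3, 5, 6, 7, 8, 9],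
  [0, 0, 1, 2, 1, 4, 0, 3, 5, 6, 7, 8, 10],
  [0, 0, 1, 2, 1, 4, 0, 3, 5, 6, 7, 10, 11],
  [0, 0, 1, 2, 1, 4, 0, 3, 5, 7, 8, 9, 10],
  [0, 0, 1, 2, 1, 4, 0, 3, 5, 7, 8, 9, 11],
  [0, 0, 1, 2, 1, 4, 0, 3, 5, 7, 9, 10, 11],
  [0, 0, 1, 2, 1, 4, 0, 3, 7, 8, 9, 10, 11],
  [0, 0, 1, 2, 1, 4, 3, 5, 6, 7, 8, 9, 10],
  [0, 0, 1, 2, 1, 4, 3, 5, 6, 7, 8, 10, 11],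
  [0, 0, 1, 2, 1, 4, 3, 5, 6, 8, 9, 10, 11],
  [0, 0, 1, 2, 1, 4, 3, 6, 7, 8, 9, 10, 11],
  [0, 0, 1, 2, 1, 4, 1, 6, 0, 3, 5, 7, 8],
  [0, 0, 1, 2, 1, 4, 1, 6, 0, 3, 5, 7, 9],
  [0, 0, 1, 2, 1, 4, 1, 6, 0, 3, 5, 9, 10],
  [0, 0, 1, 2, 1, 4, 1, 6, 0, 3, 5, 9, 11],
  [0, 0, 1, 2, 1, 4, 1, 6, 0, 3, 9, 10, 11],
  [0, 0, 1, 2, 1, 4, 1, 6, 3, 5, 7, 8, 9],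
  [0, 0, 1, 2, 1, 4, 1, 6, 3, 5, 7, 8, 11],
  [0, 0, 1, 2, 1, 4, 1, 6, 3, 5, 8, 9, 10],
  [0, 0, 1, 2, 1, 4, 1, 6, 3, 5, 8, 10, 11],
  [0, 0, 1, 2, 1, 4, 1, 6, 3, 8, 9, 10, 11],
  [0, 0, 1, 2, 1, 4, 2, 6, 0, 3, 5, 7, 8],
  [0, 0, 1, 2, 1, 4, 2, 6, 0, 3, 5, 7, 10],
  [0, 0, 1, 2, 1, 4, 2, 6, 0, 3, 5, 8, 10],
  [0, 0, 1, 2, 1, 4, 2, 6, 0, 3, 5, 10, 11],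
  [0, 0, 1, 2, 1, 4, 2, 6, 0, 5, 7, 8, 9],
  [0, 0, 1, 2, 1, 4, 2, 6, 0, 5, 7, 8, 10],
  [0, 0, 1, 2, 1, 4, 2, 6, 0, 5, 7, 9, 10],
  [0, 0, 1, 2, 1, 4, 2, 6, 0, 5, 7, 9, 11],
  [0, 0, 1, 2, 1, 4, 2, 6, 0, 5, 7, 10, 11],
  [0, 0, 1, 2, 1, 4, 2, 6, 0, 5, 8, 9, 10],
  [0, 0, 1, 2, 1, 4, 2, 6, 0, 5, 8, 9, 11],
  [0, 0, 1, 2, 1, 4, 2, 6, 0, 5, 9, 10, 11],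
  [0, 0, 1, 2, 1, 4, 2, 6, 0, 7, 9, 10, 11],
  [0, 0, 1, 2, 1, 4, 2, 6, 5, 7, 8, 9, 10],
  [0, 0, 1, 2, 1, 4, 2, 6, 5, 7, 8, 10, 11],
  [0, 0, 1, 2, 1, 4, 2, 6, 5, 8, 9, 10, 11],
  [0, 0, 1, 2, 1, 4, 3, 3, 7, 0, 5, 6, 8],
  [0, 0, 1, 2, 1, 4, 3, 3, 7, 0, 5, 6, 9],
  [0, 0, 1, 2, 1, 4, 3, 3, 7, 0, 5, 6, 10],
  [0, 0, 1, 2, 1, 4, 3, 3, 7, 0, 5, 8, 9],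
  [0, 0, 1, 2, 1, 4, 3, 3, 7, 0, 5, 8, 10],
  [0, 0, 1, 2, 1, 4, 3, 3, 7, 0, 5, 8, 11],
  [0, 0, 1, 2, 1, 4, 3, 3, 7, 0, 5, 9, 10],
  [0, 0, 1, 2, 1, 4, 3, 3, 7, 0, 5, 10, 11],
  [0, 0, 1, 2, 1, 4, 3, 3, 7, 0, 8, 10, 11],
  [0, 0, 1, 2, 1, 4, 3, 3, 7, 5, 8, 9, 10],
  [0, 0, 1, 2, 1, 4, 3, 3, 7, 5, 8, 9, 11],
  [0, 0, 1, 2, 1, 4, 3, 3, 7, 5, 9, 10, 11],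
  [0, 0, 1, 2, 1, 4, 3, 6, 6, 8, 0, 5, 7],
  [0, 0, 1, 2, 1, 4, 3, 6, 6, 8, 0, 5, 9],
  [0, 0, 1, 2, 1, 4, 3, 6, 6, 8, 0, 5, 10],
  [0, 0, 1, 2, 1, 4, 3, 6, 6, 8, 0, 5, 11],
  [0, 0, 1, 2, 1, 4, 3, 6, 6, 8, 0, 9, 11],
  [0, 0, 1, 2, 1, 4, 3, 6, 6, 8, 5, 9, 10],
  [0, 0, 1, 2, 1, 4, 3, 6, 6, 8, 5, 10, 11],
  [0, 0, 1, 2, 1, 4, 1, 6, 1, 8, 0, 3, 5],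
  [0, 0, 1, 2, 1, 4, 1, 6, 1, 8, 0, 3, 11],
  [0, 0, 1, 2, 1, 4, 1, 6, 1, 8, 3, 5, 7],
  [0, 0, 1, 2, 1, 4, 1, 6, 1, 8, 3, 5, 10],
  [0, 0, 1, 2, 1, 4, 1, 6, 1, 8, 3, 10, 11],
  [0, 0, 1, 2, 1, 4, 1, 6, 2, 8, 0, 3, 5],
  [0, 0, 1, 2, 1, 4, 1, 6, 2, 8, 0, 3, 9],
  [0, 0, 1, 2, 1, 4, 1, 6, 2, 8, 0, 5, 7],
  [0, 0, 1, 2, 1, 4, 1, 6, 2, 8, 0, 5, 9],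
  [0, 0, 1, 2, 1, 4, 1, 6, 2, 8, 0, 5, 11],
  [0, 0, 1, 2, 1, 4, 1, 6, 2, 8, 0, 9, 11],
  [0, 0, 1, 2, 1, 4, 1, 6, 2, 8, 3, 5, 7],
  [0, 0, 1, 2, 1, 4, 1, 6, 2, 8, 3, 5, 9],
  [0, 0, 1, 2, 1, 4, 1, 6, 2, 8, 3, 5, 11],
  [0, 0, 1, 2, 1, 4, 1, 6, 2, 8, 3, 9, 10],
  [0, 0, 1, 2, 1, 4, 1, 6, 2, 8, 3, 9, 11],
  [0, 0, 1, 2, 1, 4, 1, 6, 2, 8, 5, 7, 9],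
  [0, 0, 1, 2, 1, 4, 1, 6, 2, 8, 5, 7, 10],
  [0, 0, 1, 2, 1, 4, 1, 6, 2, 8, 5, 9, 10],
  [0, 0, 1, 2, 1, 4, 1, 6, 2, 8, 5, 9, 11],
  [0, 0, 1, 2, 1, 4, 1, 6, 2, 8, 5, 10, 11],
  [0, 0, 1, 2, 1, 4, 1, 6, 2, 8, 9, 10, 11],
  [0, 0, 1, 2, 1, 4, 2, 6, 4, 8, 0, 3, 5],
  [0, 0, 1, 2, 1, 4, 2, 6, 4, 8, 0, 3, 7],
  [0, 0, 1, 2, 1, 4, 2, 6, 4, 8, 0, 3, 9],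
  [0, 0, 1, 2, 1, 4, 2, 6, 4, 8, 0, 3, 10],
  [0, 0, 1, 2, 1, 4, 2, 6, 4, 8, 0, 7, 9],
  [0, 0, 1, 2, 1, 4, 2, 6, 4, 8, 0, 7, 10],
  [0, 0, 1, 2, 1, 4, 2, 6, 4, 8, 0, 7, 11],
  [0, 0, 1, 2, 1, 4, 2, 6, 4, 8, 0, 10, 11],
  [0, 0, 1, 2, 1, 4, 2, 6, 4, 8, 3, 5, 7],
  [0, 0, 1, 2, 1, 4, 2, 6, 4, 8, 3, 7, 9],
  [0, 0, 1, 2, 1, 4, 2, 6, 4, 8, 3, 7, 10],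
  [0, 0, 1, 2, 1, 4, 2, 6, 4, 8, 3, 7, 11],
  [0, 0, 1, 2, 1, 4, 2, 6, 4, 8, 3, 9, 11],
  [0, 0, 1, 2, 1, 4, 2, 6, 4, 8, 7, 9, 10],
  [0, 0, 1, 2, 1, 4, 2, 6, 4, 8, 7, 10, 11],
  [0, 0, 1, 2, 1, 4, 3, 6, 7, 7, 9, 0, 5],
  [0, 0, 1, 2, 1, 4, 3, 6, 7, 7, 9, 0, 8],
  [0, 0, 1, 2, 1, 4, 3, 6, 7, 7, 9, 0, 10],
  [0, 0, 1, 2, 1, 4, 3, 6, 7, 7, 9, 5, 10],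
  [0, 0, 1, 2, 1, 4, 3, 6, 7, 7, 9, 5, 11],
  [0, 0, 1, 2, 1, 4, 1, 6, 3, 3, 9, 0, 5],
  [0, 0, 1, 2, 1, 4, 1, 6, 3, 3, 9, 0, 8],
  [0, 0, 1, 2, 1, 4, 1, 6, 3, 3, 9, 0, 10],
  [0, 0, 1, 2, 1, 4, 1, 6, 3, 3, 9, 5, 7],
  [0, 0, 1, 2, 1, 4, 1, 6, 3, 3, 9, 5, 8],
  [0, 0, 1, 2, 1, 4, 1, 6, 3, 3, 9, 5, 10],
  [0, 0, 1, 2, 1, 4, 1, 6, 3, 3, 9, 5, 11],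
  [0, 0, 1, 2, 1, 4, 1, 6, 3, 3, 9, 8, 10],
  [0, 0, 1, 2, 1, 4, 1, 6, 3, 3, 9, 10, 11],
  [0, 0, 1, 2, 1, 4, 2, 6, 5, 5, 9, 0, 3],
  [0, 0, 1, 2, 1, 4, 2, 6, 5, 5, 9, 0, 7],
  [0, 0, 1, 2, 1, 4, 2, 6, 5, 5, 9, 0, 8],
  [0, 0, 1, 2, 1, 4, 2, 6, 5, 5, 9, 0, 10],
  [0, 0, 1, 2, 1, 4, 2, 6, 5, 5, 9, 0, 11],
  [0, 0, 1, 2, 1, 4, 2, 6, 5, 5, 9, 3, 7],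
  [0, 0, 1, 2, 1, 4, 2, 6, 5, 5, 9, 3, 8],
  [0, 0, 1, 2, 1, 4, 2, 6, 5, 5, 9, 3, 10],
  [0, 0, 1, 2, 1, 4, 2, 6, 5, 5, 9, 7, 8],
  [0, 0, 1, 2, 1, 4, 2, 6, 5, 5, 9, 7, 10],
  [0, 0, 1, 2, 1, 4, 2, 6, 5, 5, 9, 7, 11],
  [0, 0, 1, 2, 1, 4, 2, 6, 5, 5, 9, 8, 10],
  [0, 0, 1, 2, 1, 4, 2, 6, 5, 5, 9, 10, 11],
  [0, 0, 1, 2, 1, 4, 3, 6, 7, 8, 8, 10, 0],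
  [0, 0, 1, 2, 1, 4, 3, 6, 7, 8, 8, 10, 5],
  [0, 0, 1, 2, 1, 4, 1, 6, 3, 8, 8, 10, 0],
  [0, 0, 1, 2, 1, 4, 1, 6, 3, 8, 8, 10, 5],
  [0, 0, 1, 2, 1, 4, 1, 6, 3, 8, 8, 10, 9],
  [0, 0, 1, 2, 1, 4, 1, 6, 3, 8, 8, 10, 11],
  [0, 0, 1, 2, 1, 4, 2, 6, 5, 8, 8, 10, 0],
  [0, 0, 1, 2, 1, 4, 2, 6, 5, 8, 8, 10, 3],
  [0, 0, 1, 2, 1, 4, 2, 6, 5, 8, 8, 10, 7],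
  [0, 0, 1, 2, 1, 4, 2, 6, 5, 8, 8, 10, 9],
  [0, 0, 1, 2, 1, 4, 2, 6, 5, 8, 8, 10, 11],
  [0, 0, 1, 2, 1, 4, 3, 3, 7, 5, 5, 10, 0],
  [0, 0, 1, 2, 1, 4, 3, 3, 7, 5, 5, 10, 6],
  [0, 0, 1, 2, 1, 4, 3, 3, 7, 5, 5, 10, 8],
  [0, 0, 1, 2, 1, 4, 1, 6, 1, 8, 1, 10, 0],
  [0, 0, 1, 2, 1, 4, 1, 6, 1, 8, 1, 10, 3],
  [0, 0, 1, 2, 1, 4, 1, 6, 1, 8, 2, 10, 0],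
  [0, 0, 1, 2, 1, 4, 1, 6, 1, 8, 2, 10, 3],
  [0, 0, 1, 2, 1, 4, 1, 6, 1, 8, 2, 10, 5],
  [0, 0, 1, 2, 1, 4, 1, 6, 1, 8, 2, 10, 11],
  [0, 0, 1, 2, 1, 4, 1, 6, 2, 8, 2, 10, 0],
  [0, 0, 1, 2, 1, 4, 1, 6, 2, 8, 2, 10, 5],
  [0, 0, 1, 2, 1, 4, 1, 6, 2, 8, 4, 10, 0],
  [0, 0, 1, 2, 1, 4, 1, 6, 2, 8, 4, 10, 3],
  [0, 0, 1, 2, 1, 4, 1, 6, 2, 8, 4, 10, 7],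
  [0, 0, 1, 2, 1, 4, 1, 6, 2, 8, 4, 10, 9],
  [0, 0, 1, 2, 1, 4, 1, 6, 2, 8, 8, 10, 0],
  [0, 0, 1, 2, 1, 4, 1, 6, 2, 8, 8, 10, 3],
  [0, 0, 1, 2, 1, 4, 1, 6, 2, 8, 8, 10, 5],
  [0, 0, 1, 2, 1, 4, 1, 6, 2, 8, 8, 10, 9],
  [0, 0, 1, 2, 1, 4, 1, 6, 2, 8, 8, 10, 11],
  [0, 0, 1, 2, 1, 4, 2, 6, 4, 8, 6, 10, 0],
  [0, 0, 1, 2, 1, 4, 2, 6, 4, 8, 6, 10, 5],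
  [0, 0, 1, 2, 1, 4, 2, 6, 4, 8, 6, 10, 9],
  [0, 0, 1, 2, 1, 4, 3, 6, 7, 8, 9, 9, 11],
  [0, 0, 1, 2, 1, 4, 1, 6, 3, 8, 9, 9, 11],
  [0, 0, 1, 2, 1, 4, 2, 6, 5, 8, 9, 9, 11],
  [0, 0, 1, 2, 1, 4, 3, 3, 7, 5, 9, 9, 11],
  [0, 0, 1, 2, 1, 4, 1, 6, 1, 8, 3, 3, 11],
  [0, 0, 1, 2, 1, 4, 1, 6, 2, 8, 5, 5, 11],
  [0, 0, 1, 2, 1, 4, 1, 6, 2, 8, 9, 9, 11],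
  [0, 0, 1, 2, 1, 4, 2, 6, 4, 8, 0, 0, 11],
  [0, 0, 1, 2, 1, 4, 2, 6, 4, 8, 7, 7, 11],
  [0, 0, 1, 2, 1, 4, 1, 6, 3, 3, 9, 3, 11],
  [0, 0, 1, 2, 1, 4, 1, 6, 3, 3, 9, 9, 11],
  [0, 0, 1, 2, 1, 4, 2, 6, 5, 5, 9, 9, 11]]

/-- The twin-free trees with 4 to 13 vertices. -/
def L13 : List (List ℕ) :=
  L13_1 ++ (L13_2 ++ (L13_3 ++ (L13_4 ++ (L13_5))))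

end Pool.Agent.SA27
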