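import Pool.Agent.SA27.Fin81

set_option autoImplicit false

/-! The seven remaining trees, from a rooted gadget. -/

namespace Pool.Agent.SA27

open SimpleGraph Pool.Agent.SA33 Pool.Agent.SA36 Pool.Agent.SA97 Pool.Agent.SA32

/-- `plusB` without the rooted part; instead the half `hx` embeds in the skeleton `u`. -/
def coreB (bases : List (List ℕ × List (List ℕ))) (u q : List ℕ) (c : PC) : Bool :=
  (Nat.beq (c.τ.getD 0 0) 0 && embB c.hx u c.τ) &&
  (halfB q c.hx c.σx c.x c.b1 && (root2B c.hx && (!(leafB q c.b1) &&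
    allB q.length fun b => !(padj q b c.x) || (leafB q b ||
      (pgB bases q (c.br.getD b default).1 &&
        halfB q (c.br.getD b default).1.list (c.br.getD b default).2 b c.x)))))

theorem coreB_spec {bases : List (List ℕ × List (List ℕ))} (hb : ∀ b ∈ bases, BaseOK b)
    {u q : List ℕ} (hu : 0 < u.length) {c : PC} (h : coreB bases u q c = true)
    (hT : (ptree q).IsTree) {k : ℕ} (hk : 3 ≤ k) (hr : RootGood (ptree q) k (ptree u) ⟨0, hu⟩) :
    PlusGood (ptree q) k := by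
  unfold coreB at h
  simp only [Bool.and_eq_true] at h
  obtain ⟨⟨k0, k0'⟩, k1, k2, k4, k5⟩ := h
  obtain ⟨h0, hx, hb1, hxb, e, he⟩ := SA27.half_iso hT k1
  have r := root2B_spec k2
  have hroot : RootGood (ptree q) k (ptree c.hx) ⟨0, h0⟩ := by
    obtain ⟨φ, hφ⟩ := embB_root h0 hu k0' (Nat.eq_of_beq_eq_true k0)
    exact hr.mono φ hφ
  -- nonleaf neighbours
  have hnl : ∀ b : Fin q.length, leafB q b = false → ∃ y, y ≠ (⟨c.x, hx⟩ : Fin q.length) ∧
      (ptree q).Adj b y := by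
    intro b hleaf
    have h2 : 2 ≤ degB q b q.length := by
      by_contra hcon
      have : leafB q b = true := Nat.ble_eq_true_of_le (by omega)
      rw [this] at hleaf
      exact absurd hleaf (by decide)
    obtain ⟨j, j', hj, hj', hne, a1, a2⟩ := degB_two h2
    by_cases hjx : j = c.x
    · exact ⟨⟨j', hj'⟩, fun h => hne (hjx.trans (congrArg Fin.val h).symm), a2⟩
    · exact ⟨⟨j, hj⟩, fun h => hjx (congrArg Fin.val h), a1⟩
  have hleafb1 : leafB q c.b1 = false := by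
    cases h : leafB q c.b1
    · rfl
    · rw [h] at k4; exact absurd k4 (by decide)
  refine ⟨⟨c.x, hx⟩, ⟨c.b1, hb1⟩, hxb.symm, hnl ⟨c.b1, hb1⟩ hleafb1, ?_, ?_, ?_⟩
  · have n1 := root_adj r.1 r.2 h0
    rw [← e.map_adj_iff, he] at n1
    refine ⟨(e ⟨1, r.1⟩).1, ?_, n1.symm⟩
    intro h
    have hx := (e ⟨1, r.1⟩).2
    rw [h] at hx
    exact not_mem_hf hT.2 hxb hx
  · intro b hbx hby
    obtain ⟨y, hyx, hby⟩ := hby
    have h3 := allB_spec k5 b.2
    have hbx' : padj q b.1 c.x = true := hbx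
    have hlb : leafB q b.1 = false := by
      rw [Bool.eq_false_iff]
      intro hl
      have h4 := Nat.le_of_ble_eq_true hl
      have h5 := degB_two_le y.2 hx (fun h => hyx (Fin.ext h)) hby hbx'
      omega
    rw [hbx', hlb, Bool.not_true, Bool.false_or, Bool.false_or, Bool.and_eq_true] at h3
    obtain ⟨m1, m2⟩ := h3
    obtain ⟨w1, p1⟩ := pgB_spec hb m1 hk
    obtain ⟨g0, hb', hx', -, e1, he1⟩ := SA27.half_iso hT m2
    have := p1.iso e1
    rw [he1] at this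
    exact this
  · refine hroot.mono e.symm.toEmbedding ?_
    change e.symm _ = _
    rw [← he, e.symm_apply_apply]

/-- Certificates with the skeleton `[0, 0, 0, 2, 2, 4]`. -/
def finU : List (List ℕ × PC) := [
  ([0, 0, 1, 2, 1, 4, 2, 6, 4, 8], ⟨1, 2,
    [default, default, (⟨0, [0, 0, 0, 2], false, 0, 1, [0, 1, 2, 4], [1, 2, 4, 0, 6, 5, 7]⟩, [2, 3, 6, 7]), default, (⟨0, [0, 0, 0, 2], false, 0, 1, [0, 1, 2, 4], [1, 2, 4, 0, 6, 5, 7]⟩, [4, 5, 8, 9]), default, default, default, default, default],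
    [0, 0, 0, 2, 2, 4], [1, 0, 4, 5, 8, 9], 3, 0, [0, 1, 2, 3, 4, 5], [], [],
    []⟩),
  ([0, 0, 1, 2, 0, 0, 5, 1, 7, 5, 9], ⟨0, 1,
    [default, (⟨0, [0, 0, 1, 0, 3], false, 0, 0, [0, 1, 3, 2, 4], [1, 0, 2, 7, 4, 3, 8]⟩, [1, 2, 3, 7, 8]), default, default, default, (⟨0, [0, 0, 0, 2], false, 0, 0, [0, 1, 2, 4], [1, 0, 2, 7, 4, 3, 8]⟩, [5, 6, 9, 10]), default, default, default, default, default],
    [0, 0, 0, 2, 2, 4], [0, 4, 5, 6, 9, 10], 3, 0, [0, 1, 2, 3, 4, 5], [], [],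
    []⟩),
  ([0, 0, 1, 2, 0, 0, 5, 2, 7, 5, 9], ⟨0, 1,
    [default, (⟨1, [0, 0, 0, 2], false, 0, 1, [0, 1, 2, 4], [0, 1, 5, 4, 2, 6, 3]⟩, [1, 2, 3, 7, 8]), default, default, default, (⟨0, [0, 0, 0, 2], false, 0, 1, [0, 1, 2, 4], [0, 1, 5, 4, 2, 6, 3]⟩, [5, 6, 9, 10]), default, default, default, default, default],
    [0, 0, 0, 2, 2, 4], [0, 4, 5, 6, 9, 10], 3, 0, [0, 1, 2, 3, 4, 5], [], [],
    []⟩),
  ([0, 0, 1, 2, 0, 0, 5, 5, 7, 7, 9], ⟨5, 0,
    [(⟨0, [0, 0, 1, 2, 0], false, 1, 2, [0, 2, 3, 4, 1], [1, 0, 2, 5, 4, 7, 6, 9, 10]⟩, [0, 1, 2, 3, 4]), default, default, default, default, default, default, (⟨0, [0, 0, 0, 2], false, 0, 1, [0, 1, 2, 4], [0, 1, 5, 4, 2, 6, 3]⟩, [7, 8, 9, 10]), default, default, default],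
    [0, 0, 0, 2, 2, 4], [5, 6, 7, 8, 9, 10], 3, 0, [0, 1, 2, 3, 4, 5], [], [],
    []⟩),
  ([0, 0, 1, 2, 0, 0, 5, 3, 5, 8, 7], ⟨0, 1,
    [default, (⟨3, [0, 0], true, 0, 0, [], []⟩, [1, 2, 3, 7, 10]), default, default, default, (⟨0, [0, 0, 0, 2], false, 0, 1, [0, 1, 2, 4], [0, 1, 5, 4, 2, 6, 3]⟩, [5, 6, 8, 9]), default, default, default, default, default],
    [0, 0, 0, 2, 2, 4], [0, 4, 5, 6, 8, 9], 3, 0, [0, 1, 2, 3, 4, 5], [], [],
    []⟩),
  ([0, 0, 1, 2, 0, 0, 5, 2, 7, 5, 9, 8], ⟨0, 1,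
    [default, (⟨1, [0, 0, 0, 2, 3], false, 1, 2, [0, 1, 2, 3, 4], [9, 5, 10, 0, 6, 1, 4, 2, 3]⟩, [1, 2, 3, 7, 8, 11]), default, default, default, (⟨0, [0, 0, 0, 2], false, 0, 1, [0, 1, 2, 4], [0, 1, 5, 4, 2, 6, 3]⟩, [5, 6, 9, 10]), default, default, default, default, default, default],
    [0, 0, 0, 2, 2, 4], [0, 4, 5, 6, 9, 10], 3, 0, [0, 1, 2, 3, 4, 5], [], [],
    []⟩)]

/-- Certificate with the skeleton `[0, 0, 0, 2, 2, 4, 5]`. -/
def finU' : List (List ℕ × PC) := [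
  ([0, 0, 1, 2, 0, 0, 5, 5, 7, 7, 9, 10], ⟨5, 0,
    [(⟨0, [0, 0, 1, 2, 0], false, 1, 2, [0, 2, 3, 4, 1], [0, 5, 1, 7, 6, 9, 8, 10, 11]⟩, [0, 1, 2, 3, 4]), default, default, default, default, default, default, (⟨0, [0, 0, 0, 2, 3], false, 1, 2, [0, 1, 2, 3, 4], [0, 5, 1, 7, 6, 9, 8, 10, 11]⟩, [7, 8, 9, 10, 11]), default, default, default, default],
    [0, 0, 0, 2, 2, 4, 5], [5, 6, 7, 8, 9, 10, 11], 3, 0, [0, 1, 2, 3, 4, 5, 6], [], [],
    []⟩)]

theorem finU_ok : (finU.all fun p => coreB bases0 [0, 0, 0, 2, 2, 4] p.1 p.2) = true := by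
  decide +kernel

theorem finU'_ok : (finU'.all fun p => coreB bases0 [0, 0, 0, 2, 2, 4, 5] p.1 p.2) = true := by
  decide +kernel

theorem finR_U : (finR.all fun q => (finU.any fun p => p.1 == q.1) ||
    (finU'.any fun p => p.1 == q.1)) = true := by
  decide +kernel

/-- All members of `L81` are good if the seven last trees have rooted gadgets. -/
theorem hsmall_of_U
    (hU : ∀ k, 3 ≤ k → ∀ q ∈ [[0, 0, 1, 2, 1, 4, 2, 6, 4, 8], [0, 0, 1, 2, 0, 0, 5, 1, 7, 5, 9],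
      [0, 0, 1, 2, 0, 0, 5, 2, 7, 5, 9], [0, 0, 1, 2, 0, 0, 5, 5, 7, 7, 9],
      [0, 0, 1, 2, 0, 0, 5, 3, 5, 8, 7], [0, 0, 1, 2, 0, 0, 5, 2, 7, 5, 9, 8]],
      (ptree q).IsTree → RootGood (ptree q) k (ptree [0, 0, 0, 2, 2, 4]) ⟨0, by decide⟩)
    (hU' : ∀ k, 3 ≤ k → (ptree [0, 0, 1, 2, 0, 0, 5, 5, 7, 7, 9, 10]).IsTree →
      RootGood (ptree [0, 0, 1, 2, 0, 0, 5, 5, 7, 7, 9, 10]) k (ptree [0, 0, 0, 2, 2, 4, 5])
        ⟨0, by decide⟩) :
    ∀ k, 3 ≤ k → ∀ q ∈ L81, (ptree q).IsTree → TwinFree (ptree q) →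
      EdgeGood (ptree q) k ∨ PlusGood (ptree q) k := by
  intro k hk q hq hT _
  rcases fin81_or hq hT hk with h | h | ⟨c, h⟩
  · exact Or.inl h
  · exact Or.inr h
  · right
    have h1 := List.all_eq_true.1 finR_U _ h
    rw [Bool.or_eq_true, List.any_eq_true, List.any_eq_true] at h1
    rcases h1 with ⟨p, hp, h1⟩ | ⟨p, hp, h1⟩
    · have h2 : p.1 = q := eq_of_beq h1
      subst h2
      refine coreB_spec bases0_ok (by decide) (List.all_eq_true.1 finU_ok p hp) hT hk ?_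
      refine hU k hk p.1 ?_ hT
      unfold finU at hp
      simp only [List.mem_cons, List.not_mem_nil, or_false] at hp
      rcases hp with rfl | rfl | rfl | rfl | rfl | rfl <;> simp
    · have h2 : p.1 = q := eq_of_beq h1
      subst h2
      refine coreB_spec bases0_ok (by decide) (List.all_eq_true.1 finU'_ok p hp) hT hk ?_
      unfold finU' at hp
      simp only [List.mem_cons, List.not_mem_nil, or_false] at hp
      subst hp
      exact hU' k hk hT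

end Pool.Agent.SA27
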